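import Pool.Agent.W5h77.KH.Defs

set_option autoImplicit false

/-!
# Additive functions: exact sequences
-/

namespace Pool.Agent.W5h77.KH

open Function

section

variable {A : Type} [CommRing A] {G : A} {f : AddFun A}
variable {M N K : Type} [AddCommGroup M] [AddCommGroup N] [AddCommGroup K] [Module A M] [Module A N]
  [Module A K]

lemma Adm.quot (h : Adm G M) (p : M →ₗ[A] N) (hp : Surjective p) : Adm G N := by
  obtain ⟨h1, h2⟩ := h
  refine ⟨Module.Finite.of_surjective p hp, fun n => ?_⟩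
  obtain ⟨m, rfl⟩ := hp n
  rw [← map_smul, h2, map_zero]

lemma Adm.sub [IsNoetherianRing A] (h : Adm G N) (i : M →ₗ[A] N) (hi : Injective i) : Adm G M := by
  obtain ⟨h1, h2⟩ := h
  refine ⟨Module.Finite.of_injective i hi, fun n => hi ?_⟩
  rw [map_smul, h2, map_zero]

lemma adm_of_subsingleton [Subsingleton M] : Adm G M :=
  ⟨inferInstance, fun _ => Subsingleton.elim _ _⟩

lemma f_zero (hf : IsAdditive G f) [Subsingleton M] : f M = 0 := by
  have h := hf M M M LinearMap.id LinearMap.id adm_of_subsingleton injective_id surjective_id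
    (fun x => ⟨fun _ => ⟨x, rfl⟩, fun _ => Subsingleton.elim _ _⟩)
  linarith

lemma f_iso (hf : IsAdditive G f) (hN : Adm G N) (e : M ≃ₗ[A] N) : f M = f N := by
  have h := hf M N PUnit e.toLinearMap 0 hN e.injective
    (fun x => ⟨0, Subsingleton.elim _ _⟩)
    (fun x => ⟨fun _ => ⟨e.symm x, e.apply_symm_apply x⟩, fun _ => rfl⟩)
  rw [f_zero hf (M := PUnit), add_zero] at h
  exact h.symm

lemma f_sub (hf : IsAdditive G f) (hM : Adm G M) (S : Submodule A M) : f M = f S + f (M ⧸ S) :=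
  hf S M (M ⧸ S) S.subtype S.mkQ hM S.injective_subtype S.mkQ_surjective
    (LinearMap.exact_subtype_mkQ S)

lemma f_range [IsNoetherianRing A] (hf : IsAdditive G f) (hM : Adm G M) (φ : M →ₗ[A] N) :
    f M = f (LinearMap.ker φ) + f (LinearMap.range φ) := by
  rw [f_sub hf hM (LinearMap.ker φ)]
  congr 1
  exact f_iso hf (hM.quot φ.rangeRestrict φ.surjective_rangeRestrict) φ.quotKerEquivRange

/-- the exactness in the middle -/
lemma f_exact [IsNoetherianRing A] (hf : IsAdditive G f) (hM : Adm G M) (φ : M →ₗ[A] N)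
    (ψ : K →ₗ[A] M) (h : Exact ψ φ) :
    f M = f (LinearMap.range ψ) + f (LinearMap.range φ) := by
  rw [f_range hf hM φ]
  congr 1
  have h1 : LinearMap.ker φ = LinearMap.range ψ := LinearMap.exact_iff.1 h
  rw [h1]

end

section six

variable {A : Type} [CommRing A] [IsNoetherianRing A] {G : A} {f : AddFun A}
variable {M₁ M₂ M₃ N₁ N₂ N₃ : Type} [AddCommGroup M₁] [AddCommGroup M₂] [AddCommGroup M₃]
  [AddCommGroup N₁] [AddCommGroup N₂] [AddCommGroup N₃] [Module A M₁] [Module A M₂] [Module A M₃]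
  [Module A N₁] [Module A N₂] [Module A N₃]

/-- the alternating sum of an exact sequence with six terms -/
lemma f_six (hf : IsAdditive G f) (a : M₁ →ₗ[A] M₂) (b : M₂ →ₗ[A] M₃) (c : M₃ →ₗ[A] N₁)
    (d : N₁ →ₗ[A] N₂) (e : N₂ →ₗ[A] N₃) (ha : Injective a) (h1 : Exact a b) (h2 : Exact b c)
    (h3 : Exact c d) (h4 : Exact d e) (he : Surjective e) (k2 : Adm G M₂) (k3 : Adm G M₃)
    (k4 : Adm G N₁) (k5 : Adm G N₂) :
    f M₂ - f N₂ = (f M₁ - f N₁) + (f M₃ - f N₃) := by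
  have e1 := f_exact hf k2 b a h1
  have e2 := f_exact hf k3 c b h2
  have e3 := f_exact hf k4 d c h3
  have e4 := f_exact hf k5 e d h4
  have e5 : f (LinearMap.range a) = f M₁ :=
    (f_iso hf (k2.sub (LinearMap.range a).subtype (LinearMap.range a).injective_subtype)
      (LinearEquiv.ofInjective a ha)).symm
  have e6 : f (LinearMap.range e) = f N₃ := by
    have h5 : Adm G N₃ := k5.quot e he
    refine f_iso hf h5 ?_
    rw [LinearMap.range_eq_top.2 he]
    exact Submodule.topEquiv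
  linarith

end six

section chi

variable {A : Type} [CommRing A]

/-- the difference of the values on the kernel and on the cokernel -/
noncomputable def chi (f : AddFun A) {M N : Type} [AddCommGroup M] [AddCommGroup N] [Module A M]
    [Module A N] (φ : M →ₗ[A] N) : ℚ :=
  f (LinearMap.ker φ) - f (N ⧸ LinearMap.range φ)

/-- the kernel and the cokernel are finitely generated and killed by `G` -/
def Fred (G : A) {M N : Type} [AddCommGroup M] [AddCommGroup N] [Module A M] [Module A N]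
    (φ : M →ₗ[A] N) : Prop :=
  Adm G (LinearMap.ker φ) ∧ Adm G (N ⧸ LinearMap.range φ)

variable {M₁ M₂ M₃ N₁ N₂ N₃ : Type} [AddCommGroup M₁] [AddCommGroup M₂] [AddCommGroup M₃]
  [AddCommGroup N₁] [AddCommGroup N₂] [AddCommGroup N₃] [Module A M₁] [Module A M₂] [Module A M₃]
  [Module A N₁] [Module A N₂] [Module A N₃] [IsNoetherianRing A] {G : A} {f : AddFun A}

lemma chi_add (hf : IsAdditive G f) (φ₁ : M₁ →ₗ[A] N₁) (φ₂ : M₂ →ₗ[A] N₂) (φ₃ : M₃ →ₗ[A] N₃)
    (i : M₁ →ₗ[A] M₂) (p : M₂ →ₗ[A] M₃) (j : N₁ →ₗ[A] N₂) (q : N₂ →ₗ[A] N₃)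
    (h1 : j.comp φ₁ = φ₂.comp i) (h2 : q.comp φ₂ = φ₃.comp p) (hi : Injective i)
    (hp : Surjective p) (hip : Exact i p) (hj : Injective j) (hq : Surjective q)
    (hjq : Exact j q) (k1 : Fred G φ₁) (k2 : Fred G φ₂) (k3 : Fred G φ₃) :
    chi f φ₂ = chi f φ₁ + chi f φ₃ := by
  have c1 : ∀ x, φ₂ (i x) = j (φ₁ x) := fun x => (congrArg (fun g => g x) h1).symm
  have c2 : ∀ x, q (φ₂ x) = φ₃ (p x) := fun x => congrArg (fun g => g x) h2
  -- the maps of the kernels
  set a : LinearMap.ker φ₁ →ₗ[A] LinearMap.ker φ₂ := i.restrict (fun x hx => by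
    rw [LinearMap.mem_ker] at hx ⊢
    rw [c1, hx, map_zero]) with ha
  set b : LinearMap.ker φ₂ →ₗ[A] LinearMap.ker φ₃ := p.restrict (fun x hx => by
    rw [LinearMap.mem_ker] at hx ⊢
    rw [← c2, hx, map_zero]) with hb
  set d : (N₁ ⧸ LinearMap.range φ₁) →ₗ[A] (N₂ ⧸ LinearMap.range φ₂) :=
    Submodule.mapQ _ _ j (by
      rintro _ ⟨x, rfl⟩
      exact ⟨i x, c1 x⟩) with hd
  set e : (N₂ ⧸ LinearMap.range φ₂) →ₗ[A] (N₃ ⧸ LinearMap.range φ₃) :=
    Submodule.mapQ _ _ q (by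
      rintro _ ⟨x, rfl⟩
      exact ⟨p x, (c2 x).symm⟩) with he
  have hι₂ : Exact (LinearMap.ker φ₂).subtype φ₂ := LinearMap.exact_subtype_ker_map φ₂
  have hι₃ : Exact (LinearMap.ker φ₃).subtype φ₃ := LinearMap.exact_subtype_ker_map φ₃
  have hπ₁ : Exact φ₁ (LinearMap.range φ₁).mkQ := LinearMap.exact_map_mkQ_range φ₁
  have hπ₂ : Exact φ₂ (LinearMap.range φ₂).mkQ := LinearMap.exact_map_mkQ_range φ₂
  set δ := SnakeLemma.δ' φ₁ φ₂ φ₃ i p hip j q hjq h1 h2 (LinearMap.ker φ₃).subtype hι₃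
    (LinearMap.range φ₁).mkQ hπ₁ hp hj with hδ
  have x2 : Exact b δ := SnakeLemma.exact_δ'_right φ₁ φ₂ φ₃ i p hip j q hjq h1 h2
    (LinearMap.ker φ₂).subtype hι₂ (LinearMap.ker φ₃).subtype hι₃ (LinearMap.range φ₁).mkQ hπ₁ hp hj
    b rfl (LinearMap.ker φ₃).injective_subtype
  have x3 : Exact δ d := SnakeLemma.exact_δ'_left φ₁ φ₂ φ₃ i p hip j q hjq h1 h2
    (LinearMap.ker φ₃).subtype hι₃ (LinearMap.range φ₁).mkQ hπ₁ (LinearMap.range φ₂).mkQ hπ₂ hp hj
    d rfl (LinearMap.range φ₁).mkQ_surjective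
  have y1 : Injective a := fun x y hxy => Subtype.ext (hi (congrArg Subtype.val hxy))
  have x1 : Exact a b := by
    intro x
    constructor
    · intro hx
      have h3 : p x.1 = 0 := congrArg Subtype.val hx
      obtain ⟨y, hy⟩ := (hip x.1).1 h3
      refine ⟨⟨y, ?_⟩, Subtype.ext hy⟩
      rw [LinearMap.mem_ker]
      apply hj
      rw [← c1, hy, map_zero]
      exact x.2
    · rintro ⟨y, rfl⟩
      exact Subtype.ext ((hip (i y.1)).2 ⟨y.1, rfl⟩)
  have x4 : Exact d e := by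
    intro x
    obtain ⟨x, rfl⟩ := Submodule.mkQ_surjective _ x
    constructor
    · intro hx
      have h3 : (LinearMap.range φ₃).mkQ (q x) = 0 := hx
      rw [Submodule.mkQ_apply, Submodule.Quotient.mk_eq_zero] at h3
      obtain ⟨y, hy⟩ := h3
      obtain ⟨y, rfl⟩ := hp y
      rw [← c2] at hy
      obtain ⟨z, hz⟩ := (hjq (x - φ₂ y)).1 (by rw [map_sub, hy, sub_self])
      refine ⟨(LinearMap.range φ₁).mkQ z, ?_⟩
      change (LinearMap.range φ₂).mkQ (j z) = _
      rw [hz, map_sub, sub_eq_self, Submodule.mkQ_apply, Submodule.Quotient.mk_eq_zero]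
      exact ⟨y, rfl⟩
    · rintro ⟨y, hy⟩
      obtain ⟨y, rfl⟩ := Submodule.mkQ_surjective _ y
      rw [← hy]
      change (LinearMap.range φ₃).mkQ (q (j y)) = 0
      rw [(hjq (j y)).2 ⟨y, rfl⟩, map_zero]
  have y2 : Surjective e := by
    intro x
    obtain ⟨x, rfl⟩ := Submodule.mkQ_surjective _ x
    obtain ⟨x, rfl⟩ := hq x
    exact ⟨(LinearMap.range φ₂).mkQ x, rfl⟩
  have key := f_six hf a b δ d e y1 x1 x2 x3 x4 y2 k2.1 k3.1 k1.2 k2.2
  unfold chi
  linarith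

lemma chi_iso (hf : IsAdditive G f) (φ : M₁ →ₗ[A] N₁) (ψ : M₂ →ₗ[A] N₂) (i : M₁ ≃ₗ[A] M₂)
    (j : N₁ ≃ₗ[A] N₂) (h : ∀ x, ψ (i x) = j (φ x)) (k : Fred G ψ) : chi f φ = chi f ψ := by
  unfold chi
  congr 1
  · refine f_iso hf k.1 (LinearEquiv.ofBijective (i.toLinearMap.restrict (fun x hx => ?_)) ⟨?_, ?_⟩)
    · rw [LinearMap.mem_ker] at hx ⊢
      change ψ (i x) = 0
      rw [h, hx, map_zero]
    · intro x y hxy
      exact Subtype.ext (i.injective (congrArg Subtype.val hxy))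
    · rintro ⟨y, hy⟩
      refine ⟨⟨i.symm y, ?_⟩, Subtype.ext (i.apply_symm_apply y)⟩
      rw [LinearMap.mem_ker] at hy ⊢
      apply j.injective
      rw [← h, i.apply_symm_apply, hy, map_zero]
  · refine f_iso hf k.2 (Submodule.Quotient.equiv _ _ j ?_)
    ext y
    constructor
    · rintro ⟨_, ⟨x, rfl⟩, rfl⟩
      exact ⟨i x, h x⟩
    · rintro ⟨x, rfl⟩
      refine ⟨φ (i.symm x), ⟨_, rfl⟩, ?_⟩
      change j (φ (i.symm x)) = _
      rw [← h, i.apply_symm_apply]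

end chi

end Pool.Agent.W5h77.KH
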