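import Pool.Agent.W5h77.KH.Val2

set_option autoImplicit false

/-!
# Hypersurfaces with several hyperplane sections which are cones over `F = 0`
-/

namespace Pool.Agent.W5h77.KH

open Function Polynomial Cardinal

section maps

variable {k S : Type} [Field k] [CommRing S] [Algebra k S]

/-- the homomorphism with `u ↦ u` and `z ↦ z - a u` -/
noncomputable def kap (a : k) : S[X][X] →+* S[X][X] :=
  eval₂RingHom (eval₂RingHom ((C : S[X] →+* S[X][X]).comp C) (ell a)) X

/-- the homomorphism with `u ↦ z - a u` and `v ↦ - kap a R` -/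
noncomputable def psg (a : k) (R : S[X][X]) : S[X][X] →+* S[X][X] :=
  eval₂RingHom (eval₂RingHom ((C : S[X] →+* S[X][X]).comp C) (-kap a R)) (ell a)

lemma kap_CC (a : k) (s : S) : kap a (C (C s)) = C (C s) := by
  simp [kap]

lemma kap_CX (a : k) : kap a (C X : S[X][X]) = ell a := by
  simp [kap]

lemma kap_X (a : k) : kap a (X : S[X][X]) = X := by
  simp [kap]

lemma psg_CC (a : k) (R : S[X][X]) (s : S) : psg a R (C (C s)) = C (C s) := by
  simp [psg]

lemma psg_CX (a : k) (R : S[X][X]) : psg a R (C X) = -kap a R := by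
  simp [psg]

lemma psg_X (a : k) (R : S[X][X]) : psg a R X = ell a := by
  simp [psg]

variable {a : k} {R G : S[X][X]}

lemma psg_eqn (hG : G = ell a * kap a R) (F : S) : psg a R (eqn F) = C (C F) + G := by
  rw [eqn, map_sub, map_mul, psg_CC, psg_CX, psg_X, hG]
  ring

lemma thc_G (hG : G = ell a * kap a R) : thc a G = 0 := by
  rw [hG, map_mul, thc_ell, sub_self, map_zero, C_0, zero_mul, zero_mul]

lemma thc_sum (hG : G = ell a * kap a R) (F : S) : thc a (C (C F) + G) = C F := by
  rw [map_add, thc_CC, thc_G hG, add_zero]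

lemma thc_psg_X (R : S[X][X]) (a b : k) :
    thc b (psg a R X) = C (algebraMap k S (b - a)) * X := by
  rw [psg_X, thc_ell]

lemma thc_psg_CX_ne [IsDomain S] (hG : G = ell a * kap a R) {b : k} {R' : S[X][X]}
    (hG' : G = ell b * kap b R') (hab : b ≠ a) : thc b (psg a R (C X)) = 0 := by
  have h1 := thc_G hG'
  rw [hG, map_mul, thc_ell] at h1
  rw [psg_CX, map_neg, neg_eq_zero]
  refine (mul_eq_zero.1 h1).resolve_left ?_
  refine mul_ne_zero ?_ X_ne_zero
  rw [Ne, C_eq_zero]
  intro h2
  apply hab
  rw [← sub_eq_zero]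
  exact FaithfulSMul.algebraMap_injective k S (by rw [h2, map_zero])

lemma thc_kap (a : k) (p : S[X][X]) : thc a (kap a p) = p.map constantCoeff := by
  have h1 : ((thc (S := S) a).comp (kap a)) = mapRingHom constantCoeff := by
    apply Polynomial.ringHom_ext'
    · apply Polynomial.ringHom_ext'
      · ext s : 1
        change thc a (kap a (C (C s))) = (C (C s) : S[X][X]).map constantCoeff
        rw [kap_CC, thc_CC, Polynomial.map_C, constantCoeff_apply, coeff_C_zero]
      · change thc a (kap a (C X)) = (C X : S[X][X]).map constantCoeff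
        rw [kap_CX, thc_ell, Polynomial.map_C, constantCoeff_apply, coeff_X_zero, sub_self,
          map_zero, C_0, zero_mul]
    · change thc a (kap a X) = (X : S[X][X]).map constantCoeff
      rw [kap_X, thc_X, Polynomial.map_X]
  exact congrArg (fun g => g p) h1

lemma thc_psg_CX_eq (a : k) (R : S[X][X]) : thc a (psg a R (C X)) = -(R.map constantCoeff) := by
  rw [psg_CX, map_neg, thc_kap]

/-- the coefficients in the outer variable -/
noncomputable def tau : S[X] →+* S[X][X] := eval₂RingHom ((C : S[X] →+* S[X][X]).comp C) X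

lemma psg_tau (a : k) (R : S[X][X]) : ((psg a R).comp tau) =
    eval₂RingHom ((C : S[X] →+* S[X][X]).comp C) (ell a) := by
  apply Polynomial.ringHom_ext'
  · ext s : 1
    change psg a R (tau (C s)) = _
    simp [tau, psg_CC]
  · change psg a R (tau X) = _
    simp [tau, psg_X]

lemma psg_finite [Nontrivial S] {D : ℕ} (hD : 1 ≤ D) (hR : R.natDegree ≤ D) {b : k} (hb : b ≠ 0)
    (hRb : R.coeff D = C (algebraMap k S b)) : (psg a R).Finite := by
  refine finite_of_gen (psg a R) X ?_ ?_
  · refine ⟨C (cst b⁻¹) * R.map tau + C (cst b⁻¹ * C X), ?_, ?_⟩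
    · refine monic_of_natDegree_le_of_coeff_eq_one D ?_ ?_
      · refine (natDegree_add_le _ _).trans (max_le ?_ ?_)
        · exact (natDegree_C_mul_le _ _).trans (natDegree_map_le.trans hR)
        · rw [natDegree_C]
          exact Nat.zero_le _
      · rw [coeff_add, coeff_C_mul, coeff_map, coeff_C, if_neg (by omega), add_zero, hRb]
        have h1 : tau (C (algebraMap k S b)) = cst b := by simp [tau]
        rw [h1, ← C_mul, ← C_mul, ← map_mul, inv_mul_cancel₀ hb, map_one, C_1, C_1]
    · have h2 : eval₂ ((psg a R).comp tau) X R = kap a R := by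
        rw [psg_tau]
        rfl
      rw [eval₂_add, eval₂_mul, eval₂_C, eval₂_C, eval₂_map, h2, map_mul, psg_CC, psg_CX]
      ring
  · intro T hT hX g
    have hCC : ∀ s : S, (C (C s) : S[X][X]) ∈ T := by
      intro s
      have h4 := hT (C (C s))
      rwa [psg_CC] at h4
    have hCX : (C X : S[X][X]) ∈ T := by
      have h4 := hT X
      rw [psg_X, ell] at h4
      have h5 := add_mem h4 (mul_mem (hCC (algebraMap k S a)) hX)
      rwa [sub_add_cancel] at h5
    have hC : ∀ p : S[X], (C p : S[X][X]) ∈ T := by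
      intro p
      induction p using Polynomial.induction_on' with
      | add p q hp hq => rw [C_add]; exact add_mem hp hq
      | monomial n s =>
        rw [← C_mul_X_pow_eq_monomial, C_mul, C_pow]
        exact mul_mem (hCC s) (pow_mem hCX n)
    induction g using Polynomial.induction_on' with
    | add p q hp hq => exact add_mem hp hq
    | monomial n p =>
      rw [← C_mul_X_pow_eq_monomial]
      exact mul_mem (hC p) (pow_mem hX n)

lemma sum_ne_zero [IsDomain S] (hG : G = ell a * kap a R) {F : S} (hF : F ≠ 0) :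
    C (C F) + G ≠ 0 := by
  intro h
  have h1 := thc_sum hG F
  rw [h, map_zero] at h1
  exact hF (C_injective (by rw [← h1, C_0]))

end maps

section growth

variable {k S : Type} [Field k] [CommRing S] [Algebra k S] [IsNoetherianRing S] [IsDomain S]
  {G R : S[X][X]} {a : k} {D : ℕ} {F : S}

/-- the functions for `F + G` -/
theorem test_sum (hS : Gen S) (hF : F ≠ 0) (hG : G = ell a * kap a R) (hD : 1 ≤ D)
    (hR : R.natDegree ≤ D) {b : k} (hb : b ≠ 0) (hRb : R.coeff D = C (algebraMap k S b)) {e : ℕ}
    {f : AddFun S} (hf : Test k F e f) :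
    Test k (C (C F) + G) (e + 1) (res (psg a R) (lam F f)) := by
  have hfin := psg_finite (S := S) (a := a) hD hR hb hRb
  have hla := lam_additive hS hF hf.add hf.str
  refine ⟨?_, ?_, ?_⟩
  · have h1 := res_additive hfin hla
    rw [psg_eqn hG] at h1
    exact h1
  · have hSS : Gen S[X][X] := gen_poly (gen_poly hS)
    have h2 : eqn F ≠ 0 := by
      intro h3
      have h4 := psg_eqn hG F
      rw [h3, map_zero] at h4
      exact sum_ne_zero hG hF h4.symm
    have h3 := struct_res (psg a R) hfin hSS h2 hla (lam_struct hS hF hf.add hf.str)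
      (by rw [psg_eqn hG]; exact sum_ne_zero hG hF)
    rw [psg_eqn hG] at h3
    exact h3
  · intro N _ _ hN hd
    have hk : ∀ c : k, psg a R (algebraMap k S[X][X] c) = algebraMap k S[X][X] c :=
      fun c => psg_CC a R (algebraMap k S c)
    have h2 := dimLe_res (⟨psg a R, hk⟩ : S[X][X] →ₐ[k] S[X][X]) hfin.to_isIntegral hd
    have h3 : @Adm S[X][X] _ (eqn F) N _ (Module.compHom N (psg (S := S) a R)) := by
      rw [← psg_eqn hG] at hN
      exact res_adm hfin hN
    let := Module.compHom N (psg (S := S) a R)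
    exact lam_dim hS hF hf.add hf.str hf.van N h3 h2

theorem valg_ne (hS : Gen S) (hF : F ≠ 0) (hG : G = ell a * kap a R) {b : k} {R' : S[X][X]}
    (hG' : G = ell b * kap b R') (hab : b ≠ a) {e : ℕ} {f : AddFun S} (hf : Test k F e f)
    {M : Type} [AddCommGroup M] [Module S M] (hM : Adm F M) :
    res (thc b) (res (psg a R) (lam F f)) (PolynomialModule S M) = f M := by
  have hne : b - a ≠ 0 := sub_ne_zero.2 hab
  refine lam_one (ρ := (thc b).comp (psg a R)) (M := M) ?_ ?_
    (a := algebraMap k S (b - a)) (b := algebraMap k S (b - a)⁻¹) ?_ ?_ hS hF hf.add hf.str hM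
  · intro s
    rw [RingHom.comp_apply, psg_CC, thc_CC]
  · rw [RingHom.comp_apply, thc_psg_CX_ne hG hG' hab]
  · rw [← map_mul, mul_inv_cancel₀ hne, map_one]
  · rw [RingHom.comp_apply, thc_psg_X]

theorem valg_eq (hS : Gen S) (hF : F ≠ 0) (hD : 1 ≤ D)
    (hR : R.natDegree ≤ D) {b : k} (hb : b ≠ 0) (hRb : R.coeff D = C (algebraMap k S b)) {e : ℕ}
    {f : AddFun S} (hf : Test k F e f) {M : Type} [AddCommGroup M] [Module S M] (hM : Adm F M) :
    res (thc a) (res (psg a R) (lam F f)) (PolynomialModule S M) = -(D * f M) := by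
  refine lam_two' (ρ := (thc a).comp (psg a R)) (M := M) ?_ ?_ (m := D) hD
    (β := -(R.map constantCoeff)) ?_ (b := algebraMap k S (-b)⁻¹) ?_ ?_ hS hF hf.add hf.str hM
  · intro s
    rw [RingHom.comp_apply, psg_CC, thc_CC]
  · rw [RingHom.comp_apply, thc_psg_X, sub_self, map_zero, C_0, zero_mul]
  · rw [natDegree_neg]
    exact natDegree_map_le.trans hR
  · rw [coeff_neg, coeff_map, hRb, constantCoeff_apply, coeff_C_zero, ← map_neg, ← map_mul,
      inv_mul_cancel₀ (neg_ne_zero.2 hb), map_one]
  · rw [RingHom.comp_apply, thc_psg_CX_eq]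

/-- **The growth of the ranks**: `m ≤ D` hyperplane sections which are cones. -/
theorem growth_cones (hS : Gen S) (hF : F ≠ 0) {ι : Type} [Fintype ι] [DecidableEq ι] {c : ι → k}
    (hc : Injective c) {R : ι → S[X][X]} (hG : ∀ l, G = ell (c l) * kap (c l) (R l)) (hD : 1 ≤ D)
    (hR : ∀ l, (R l).natDegree ≤ D) {b : ι → k} (hb : ∀ l, b l ≠ 0)
    (hRb : ∀ l, (R l).coeff D = C (algebraMap k S (b l)))
    (hιD : Fintype.card ι ≤ D) {e r r' : ℕ} (h : DualLe k (C (C F) + G) (e + 1) r')
    (hr : r' < Fintype.card ι * (r + 1)) : DualLe k F e r := by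
  intro κ _ f hκ hf
  obtain ⟨c', hc', hv⟩ := h (κ × ι) (fun p => res (psg (c p.2) (R p.2)) (lam F (f p.1)))
    (by
      rw [Fintype.card_prod]
      calc r' < Fintype.card ι * (r + 1) := hr
        _ ≤ Fintype.card ι * Fintype.card κ := Nat.mul_le_mul_left _ hκ
        _ = _ := mul_comm _ _)
    (fun p => test_sum hS hF (hG p.2) hD (hR p.2) (hb p.2) (hRb p.2) (hf p.1))
  -- the relations
  have hrel : ∀ (j : ι) (M : Type) [AddCommGroup M] [Module S M], Adm F M →
      DimLe k (A := S) M (e + 1) →
      ∑ i, (∑ l, c' (i, l) - (D + 1) * c' (i, j)) * f i M = 0 := by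
    intro j M _ _ hM hdM
    have h1 := @hv (PolynomialModule S M) _
      (Module.compHom (PolynomialModule S M) (thc (S := S) (c j)))
      ⟨res_finite (thc (S := S) (c j)) (RingHom.Finite.of_surjective _ (thc_surj (c j)))
        (by have := hM.1; infer_instance),
        fun x => by
          change thc (c j) (C (C F) + G) • x = 0
          rw [thc_sum (hG j), ← algebraMap_eq, algebraMap_smul]
          exact ext_coeff fun n => hM.2 _⟩ (dimLe_Tc (c j) hdM)
    rw [Fintype.sum_prod_type] at h1
    rw [← h1]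
    refine Finset.sum_congr rfl fun i _ => ?_
    have h2 : ∀ l : ι, c' (i, l) * res (thc (c j)) (res (psg (c l) (R l)) (lam F (f i)))
        (PolynomialModule S M) =
          c' (i, l) * f i M - (if l = j then (D + 1) * c' (i, l) * f i M else 0) := by
      intro l
      by_cases hlj : l = j
      · subst hlj
        rw [valg_eq hS hF hD (hR l) (hb l) (hRb l) (hf i) hM, if_pos rfl]
        ring
      · rw [valg_ne hS hF (hG l) (hG j) (fun h => hlj (hc h).symm) (hf i) hM, if_neg hlj,
          sub_zero]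
    have h3 : ∑ l : ι, c' (i, l) * res (thc (c j)) (res (psg (c l) (R l)) (lam F (f i)))
        (PolynomialModule S M) = (∑ l, c' (i, l) - (D + 1) * c' (i, j)) * f i M := by
      rw [Finset.sum_congr rfl (fun l _ => h2 l), Finset.sum_sub_distrib, Finset.sum_ite_eq',
        if_pos (Finset.mem_univ j), sub_mul, Finset.sum_mul]
    exact h3.symm
  by_contra hcon
  push Not at hcon
  have hz : ∀ j : ι, (fun i => ∑ l, c' (i, l) - (D + 1) * c' (i, j)) = (0 : κ → ℚ) := by
    intro j
    by_contra hne
    obtain ⟨N, _, _, hN, hdN, h1⟩ := hcon _ hne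
    exact h1 (hrel j N hN hdN)
  apply hc'
  funext ⟨i, j⟩
  have h1 : ∀ j : ι, ∑ l, c' (i, l) = (D + 1) * c' (i, j) := fun j =>
    sub_eq_zero.1 (congrFun (hz j) i)
  have h2 : (Fintype.card ι : ℚ) * ∑ l, c' (i, l) = (D + 1) * ∑ l, c' (i, l) := by
    conv_rhs => rw [Finset.mul_sum]
    rw [← Finset.sum_congr rfl (fun j _ => h1 j), Finset.sum_const, Finset.card_univ,
      nsmul_eq_mul]
  have h3 : ∑ l, c' (i, l) = 0 := by
    have h4 : (Fintype.card ι : ℚ) ≤ D := by exact_mod_cast hιD
    have h5 : ((D : ℚ) + 1 - Fintype.card ι) * ∑ l, c' (i, l) = 0 := by linarith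
    refine (mul_eq_zero.1 h5).resolve_left ?_
    intro h6
    linarith
  have h4 := h1 j
  rw [h3] at h4
  have h5 : (D : ℚ) + 1 ≠ 0 := by positivity
  exact (mul_eq_zero.1 h4.symm).resolve_left h5

end growth

end Pool.Agent.W5h77.KH
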