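import Mathlib

set_option autoImplicit false

/-!
# Additive functions on modules, and the dimension filtration: definitions
-/

namespace Pool.Agent.W5h77.KH

/-- Functions on the modules over `A` with rational values. -/
abbrev AddFun (A : Type) [CommRing A] : Type 1 :=
  ∀ (M : Type) [AddCommGroup M] [Module A M], ℚ

/-- The `A`-module `M` is finitely generated and killed by `G`, that is, it is a finitely
generated module over `A / (G)`. -/
def Adm {A : Type} [CommRing A] (G : A) (M : Type) [AddCommGroup M] [Module A M] : Prop :=
  Module.Finite A M ∧ ∀ m : M, G • m = 0

/-- The function `f` is additive on the short exact sequences of finitely generated modules over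
`A / (G)`. -/
def IsAdditive {A : Type} [CommRing A] (G : A) (f : AddFun A) : Prop :=
  ∀ (M₁ M₂ M₃ : Type) [AddCommGroup M₁] [AddCommGroup M₂] [AddCommGroup M₃] [Module A M₁]
    [Module A M₂] [Module A M₃] (i : M₁ →ₗ[A] M₂) (p : M₂ →ₗ[A] M₃), Adm G M₂ →
    Function.Injective i → Function.Surjective p → Function.Exact i p → f M₂ = f M₁ + f M₃

/-- The module `M` over the `k`-algebra `A` has dimension at most `e`: the domains `A / P`, `P` a
prime ideal containing the annihilator of `M`, have transcendence degree at most `e` over `k`. -/
def DimLe (k : Type) {A : Type} [Field k] [CommRing A] [Algebra k A] (M : Type) [AddCommGroup M]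
    [Module A M] (e : ℕ) : Prop :=
  ∀ P : Ideal A, P.IsPrime → Module.annihilator A M ≤ P → Algebra.trdeg k (A ⧸ P) ≤ e

/-- The classes of the modules of dimension at most `e + 1` in the Grothendieck group with
rational coefficients of the finitely generated modules over `A / (G)` are linear combinations of
the class of `A / (G)` and of classes of modules of dimension at most `e`. (Equivalently: every
additive function which vanishes on `A / (G)` and on the modules of dimension at most `e`
vanishes on the modules of dimension at most `e + 1`.) -/
def Spanned (k : Type) {A : Type} [Field k] [CommRing A] [Algebra k A] (G : A) (e : ℕ) : Prop :=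
  ∀ f : AddFun A, IsAdditive G f → f (A ⧸ Ideal.span {G}) = 0 →
    (∀ (M : Type) [AddCommGroup M] [Module A M], Adm G M → DimLe k (A := A) M e → f M = 0) →
    ∀ (M : Type) [AddCommGroup M] [Module A M], Adm G M → DimLe k (A := A) M (e + 1) → f M = 0

end Pool.Agent.W5h77.KH
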