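import Pool.Agent.W5h77.KH.Tower

set_option autoImplicit false

/-!
# The tower `F + z_1 ^ d - u_1 ^ d + ...`
-/

namespace Pool.Agent.W5h77.KH

open Function MvPolynomial

variable {k : Type} [Field k]

lemma lin_hom (N : ℕ) (a : k) :
    (X 1 - C a * X 0 : MvPolynomial (Fin (N + 2)) k).IsHomogeneous 1 :=
  (isHomogeneous_X _ _).sub (isHomogeneous_C_mul_X _ _)

lemma eval_lin (N : ℕ) (a b : k) :
    MvPolynomial.eval (vertex a N) (X 1 - C b * X 0) = a - b := by
  rw [map_sub, map_mul, eval_X, eval_X, eval_C]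
  change a - b * 1 = a - b
  rw [mul_one]

theorem cone_dbl {d : ℕ} (hd : 2 ≤ d) {ζ : k} (hζ : IsPrimitiveRoot ζ d) {N : ℕ}
    (F : MvPolynomial (Fin N) k) : ConeStep d (d - 1) F (dbl d F) := by
  set ι : Fin (d - 1) → Fin d := Fin.castLE (by omega) with hι
  have hιi : Injective ι := Fin.castLE_injective (by omega)
  refine ⟨le_rfl, fun l => ζ ^ ((ι l : Fin d) : ℕ), X 1 ^ d - X 0 ^ d,
    fun l => ∏ j ∈ Finset.univ.erase (ι l), (X 1 - C (ζ ^ (j : ℕ)) * X 0), ?_, ?_, ?_⟩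
  · intro i j hij
    exact hιi (Fin.ext (hζ.pow_inj (ι i).2 (ι j).2 hij))
  · rw [dbl]
    ring
  · intro l
    refine ⟨?_, ?_, ?_⟩
    · have h1 := IsHomogeneous.prod (Finset.univ.erase (ι l))
        (fun j : Fin d => (X 1 - C (ζ ^ (j : ℕ)) * X 0 : MvPolynomial (Fin (N + 2)) k))
        (fun _ => 1) (fun j _ => lin_hom N _)
      rwa [Finset.sum_const, Finset.card_erase_of_mem (Finset.mem_univ _), Finset.card_univ,
        Fintype.card_fin, smul_eq_mul, mul_one] at h1
    · have h1 := prod_roots (by omega) hζ (X 1 : MvPolynomial (Fin (N + 2)) k) (X 0)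
      have h2 := Finset.mul_prod_erase Finset.univ
        (fun j : Fin d => (X 1 - C (ζ ^ (j : ℕ)) * X 0 : MvPolynomial (Fin (N + 2)) k))
        (Finset.mem_univ (ι l))
      rw [h2]
      exact h1.symm
    · rw [map_prod, Finset.prod_ne_zero_iff]
      intro j hj
      rw [eval_lin, sub_ne_zero]
      intro h1
      exact (Finset.mem_erase.1 hj).1 (Fin.ext (hζ.pow_inj (ι l).2 j.2 h1)).symm

/-- the equivalence -/
theorem tfae {d : ℕ} (hd : 2 ≤ d) {ζ : k} (hζ : IsPrimitiveRoot ζ d) {n i : ℕ} (hi : i ≤ n)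
    (r : ℕ) : List.TFAE
      [Bound k d n i r,
        ∃ t b : ℕ, b < (d - 1) ^ t * (r + 1) ∧ Bound k d (n + 2 * t) (i + t) b,
        ∀ F : MvPolynomial (Fin (n + 2)) k, F.IsHomogeneous d → SmoothForm F →
          ∃ (t b : ℕ) (m : ℕ → ℕ) (H : (s : ℕ) → MvPolynomial (Fin (n + 2 + 2 * s)) k),
            H 0 = F ∧ (∀ s, s < t → 1 ≤ m s ∧ ConeStep d (m s) (H s) (H (s + 1))) ∧
              b < (∏ s ∈ Finset.range t, m s) * (r + 1) ∧ RankLe k (H t) (n - i + t) b] := by
  tfae_have 1 → 2 := by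
    intro h
    exact ⟨0, r, by rw [pow_zero, one_mul]; exact Nat.lt_succ_self r, h⟩
  tfae_have 2 → 3 := by
    rintro ⟨t, b, hb, h⟩ F hF hs
    have hdk : (d : k) ≠ 0 := by
      have : NeZero d := ⟨by omega⟩
      exact hζ.neZero'.out
    refine ⟨t, b, fun _ => d - 1, dblt d F, rfl, fun s _ => ⟨?_, ?_⟩, ?_, ?_⟩
    · change 1 ≤ d - 1
      omega
    · exact cone_dbl hd hζ (dblt d F s)
    · rw [Finset.prod_const, Finset.card_range]
      exact hb
    · have h1 : n + 2 * t + 2 = n + 2 + 2 * t := by omega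
      have h2 : n + 2 * t - (i + t) = n - i + t := by omega
      unfold Bound at h
      rw [h1, h2] at h
      exact h (dblt d F t) (dblt_hom hF t) (dblt_smooth hdk hs t)
  tfae_have 3 → 1 := by
    intro h F hF hs
    obtain ⟨t, b, m, H, rfl, hst, hb, h1⟩ := h F hF hs
    exact rank_of_dual ((tower hd H m hs.ne_zero t (fun s hs' => (hst s hs').2)
      (fun s hs' => (hst s hs').1)).2 b r (dual_of_rank h1) hb)
  tfae_finish

end Pool.Agent.W5h77.KH
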