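import Pool.Agent.W5h77.KH.Pull
import Pool.Agent.W5h77.KH.Equiv
import Pool.Agent.W5h86.HD.Expand2

set_option autoImplicit false

/-!
# Multiples of the degree
-/

namespace Pool.Agent.W5h77.KH

open Function MvPolynomial Pool.Agent.W5h86.HC Pool.Agent.W5h86.HD

variable {k : Type} [Field k]

/-- For every smooth hypersurface `F = 0` of degree `d` and dimension `n` the rank of
`A ^ i` is at most `b + 1` (in the form of `RankLe`, see there). -/
def RankBound (k : Type) [Field k] (d n i b : ℕ) : Prop :=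
  ∀ F : MvPolynomial (Fin (n + 2)) k, F.IsHomogeneous d → Smooth F → RankLe k F (n - i) b

lemma smooth_ne_zero {N : ℕ} {F : MvPolynomial (Fin (N + 1)) k} (h : Smooth F) : F ≠ 0 := by
  rintro rfl
  have h0 : (fun _ : Fin (N + 1) => (1 : k)) ≠ 0 := fun h1 => one_ne_zero (congrFun h1 0)
  obtain ⟨i, hi⟩ := h k (fun _ => 1) h0 (map_zero _)
  rw [map_zero, map_zero] at hi
  exact hi rfl

lemma dbl_smooth' {d N : ℕ} (hd : 1 ≤ d) (hdk : (d : k) ≠ 0) {F : MvPolynomial (Fin N) k}
    (h : Smooth F) : Smooth (dbl d F) := by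
  intro L _ _ a ha0 haF
  have hdk' : (d : L) ≠ 0 := by
    intro h1
    apply hdk
    apply FaithfulSMul.algebraMap_injective k L
    rw [map_natCast, h1, map_zero]
  have hss : Injective (fun i : Fin N => (i.succ.succ : Fin (N + 2))) := fun i j hij =>
    Fin.succ_injective _ (Fin.succ_injective _ hij)
  have h10 : (1 : Fin (N + 2)) ≠ 0 := Fin.succ_ne_zero (0 : Fin (N + 1))
  have hs0 : ∀ i : Fin N, (0 : Fin (N + 2)) ≠ i.succ.succ := fun i => (Fin.succ_ne_zero _).symm
  have hs1 : ∀ i : Fin N, (1 : Fin (N + 2)) ≠ i.succ.succ := by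
    intro i h3
    have h4 : (Fin.succ 0 : Fin (N + 2)) = i.succ.succ := h3
    exact Fin.succ_ne_zero i (Fin.succ_injective _ h4).symm
  by_contra hcon
  push Not at hcon
  have h0 : a 0 = 0 := by
    have h1 := hcon 0
    have h2 : pderiv (0 : Fin (N + 2)) (rename (fun i : Fin N => (i.succ.succ : Fin (N + 2))) F) =
        0 := by
      classical
      apply pderiv_eq_zero_of_notMem_vars
      intro h3
      obtain ⟨j, _, hj⟩ := Finset.mem_image.1 (vars_rename _ F h3)
      exact Fin.succ_ne_zero _ hj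
    rw [dbl, map_sub, map_add, h2, zero_add, Derivation.leibniz_pow, Derivation.leibniz_pow,
      pderiv_X_of_ne h10, pderiv_X_self, smul_zero, smul_zero, zero_sub,
      map_neg, neg_eq_zero, nsmul_eq_mul, smul_eq_mul, mul_one, map_mul, map_natCast, map_pow,
      aeval_X] at h1
    exact eq_zero_of_pow_eq_zero ((mul_eq_zero.1 h1).resolve_left hdk')
  have h0' : a 1 = 0 := by
    have h1 := hcon 1
    have h2 : pderiv (1 : Fin (N + 2)) (rename (fun i : Fin N => (i.succ.succ : Fin (N + 2))) F) =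
        0 := by
      classical
      apply pderiv_eq_zero_of_notMem_vars
      intro h3
      obtain ⟨j, _, hj⟩ := Finset.mem_image.1 (vars_rename _ F h3)
      have h4 : (j.succ.succ : Fin (N + 2)) = Fin.succ 0 := hj
      exact Fin.succ_ne_zero _ (Fin.succ_injective _ h4)
    rw [dbl, map_sub, map_add, h2, zero_add, Derivation.leibniz_pow, Derivation.leibniz_pow,
      pderiv_X_of_ne h10.symm, pderiv_X_self, smul_zero, smul_zero,
      sub_zero, nsmul_eq_mul, smul_eq_mul, mul_one, map_mul, map_natCast, map_pow,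
      aeval_X] at h1
    exact eq_zero_of_pow_eq_zero ((mul_eq_zero.1 h1).resolve_left hdk')
  have hne : (fun i : Fin N => a i.succ.succ) ≠ 0 := by
    intro h1
    apply ha0
    funext i
    refine Fin.cases h0 (fun i => ?_) i
    refine Fin.cases h0' (fun i => ?_) i
    exact congrFun h1 i
  have hF : aeval (fun i : Fin N => a i.succ.succ) F = 0 := by
    rw [dbl, map_sub, map_add, map_pow, map_pow, aeval_X, aeval_X, h0, h0',
      zero_pow (by omega : d ≠ 0), sub_zero, add_zero, aeval_rename] at haF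
    exact haF
  obtain ⟨i, hi⟩ := h L _ hne hF
  apply hi
  have h2 := hcon i.succ.succ
  rw [dbl, map_sub, map_add, pderiv_rename hss, Derivation.leibniz_pow, Derivation.leibniz_pow,
    pderiv_X_of_ne (hs0 i), pderiv_X_of_ne (hs1 i), smul_zero, smul_zero, smul_zero, smul_zero,
    sub_zero, add_zero, aeval_rename] at h2
  exact h2

lemma dblt_smooth' {d N : ℕ} (hd : 1 ≤ d) (hdk : (d : k) ≠ 0) {F : MvPolynomial (Fin N) k}
    (h : Smooth F) (t : ℕ) : Smooth (dblt d F t) := by
  induction t with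
  | zero => exact h
  | succ t ih => exact dbl_smooth' hd hdk ih

lemma lsub_one' {N : ℕ} (F : MvPolynomial (Fin N) k) :
    lsub k (1 : Matrix (Fin N) (Fin N) k) F = F := by
  have h : lsub k (1 : Matrix (Fin N) (Fin N) k) = AlgHom.id k _ := by
    apply MvPolynomial.algHom_ext
    intro i
    rw [lsub_X, Finset.sum_eq_single i]
    · simp
    · intro j _ hj
      rw [Matrix.one_apply_ne hj.symm, C_0, zero_mul]
    · simp
  rw [h]
  rfl

lemma lsub_bij {N : ℕ} {g : Matrix (Fin N) (Fin N) k} (hg : g.det ≠ 0) :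
    Bijective (lsub k g) := by
  have hu : IsUnit g.det := isUnit_iff_ne_zero.2 hg
  refine bijective_iff_has_inverse.2 ⟨lsub k g⁻¹, fun F => ?_, fun F => ?_⟩
  · rw [lsub_lsub, Matrix.mul_nonsing_inv g hu, lsub_one']
  · rw [lsub_lsub, Matrix.nonsing_inv_mul g hu, lsub_one']

lemma phi_finite {N a : ℕ} (ha : 0 < a) :
    (phi k k N a : MvPolynomial (Fin N) k →+* MvPolynomial (Fin N) k).Finite :=
  phiAlg_finite (K := k) (L := k) (N := N) (m := a) ha

lemma phi_inj {N a : ℕ} (ha : 0 < a) : Injective (phi k k N a) := by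
  have h : phi k k N a = expand a := by
    apply MvPolynomial.algHom_ext
    intro i
    rw [phi_X, expand_X]
  rw [h]
  exact expand_injective ha

/-- the tower over a finite pull-back -/
lemma above_dblt {d N : ℕ} (hd : 2 ≤ d) {ζ : k} (hζ : IsPrimitiveRoot ζ d)
    {F : MvPolynomial (Fin N) k} (φ : MvPolynomial (Fin N) k →ₐ[k] MvPolynomial (Fin N) k)
    (hfin : φ.toRingHom.Finite) (hinj : Injective φ) (t : ℕ) :
    Above F t ((d - 1) ^ t) (dblt d (φ F) t) := by
  induction t with
  | zero =>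
    rw [pow_zero]
    exact Above.pull 0 1 F φ Above.base hfin hinj
  | succ t ih =>
    rw [pow_succ]
    exact Above.cone t _ d (d - 1) _ _ ih hd (by omega) (cone_dbl hd hζ _)

lemma bound_apply {D n i t b : ℕ} (h : RankBound k D (n + 2 * t) (i + t) b) (hi : i ≤ n)
    (G : MvPolynomial (Fin (n + 2 + 2 * t)) k) (hG : G.IsHomogeneous D) (hs : Smooth G) :
    RankLe k G (n - i + t) b := by
  have h1 : n + 2 * t + 2 = n + 2 + 2 * t := by omega
  have h2 : n + 2 * t - (i + t) = n - i + t := by omega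
  unfold RankBound at h
  rw [h1, h2] at h
  exact h G hG hs

lemma smooth_phi_lsub [CharZero k] {N d' a : ℕ} (ha : 0 < a) {F : MvPolynomial (Fin N) k}
    (hF : F.IsHomogeneous (d' + 1)) (hs : Smooth F) :
    ∃ φ : MvPolynomial (Fin N) k →ₐ[k] MvPolynomial (Fin N) k, φ.toRingHom.Finite ∧
      Injective φ ∧ (φ F).IsHomogeneous (a * (d' + 1)) ∧ Smooth (φ F) := by
  obtain ⟨g, hg, hgs⟩ := exists_general_coord hF hs
  refine ⟨(phi k k N a).comp (lsub k g), ?_, ?_, ?_, ?_⟩
  · have h1 : (lsub k g : MvPolynomial (Fin N) k →+* MvPolynomial (Fin N) k).Finite :=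
      RingHom.Finite.of_surjective _ (lsub_bij hg).2
    exact (phi_finite (k := k) (N := N) ha).comp h1
  · exact (phi_inj ha).comp (lsub_bij hg).1
  · rw [AlgHom.comp_apply]
    exact isHomogeneous_phi a (isHomogeneous_lsub g hF)
  · rw [AlgHom.comp_apply]
    exact smooth_phi ha hgs

/-- the equivalence -/
theorem tfae' [CharZero k] (hζ : ∀ m : ℕ, 0 < m → ∃ ζ : k, IsPrimitiveRoot ζ m) {d : ℕ}
    (hd : 2 ≤ d) {n i : ℕ} (hi : i ≤ n) (r : ℕ) : List.TFAE
      [RankBound k d n i r,
        ∃ a t b : ℕ, 1 ≤ a ∧ b < (a * d - 1) ^ t * (r + 1) ∧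
          RankBound k (a * d) (n + 2 * t) (i + t) b,
        ∀ F : MvPolynomial (Fin (n + 2)) k, F.IsHomogeneous d → Smooth F →
          ∃ (t m b : ℕ) (H : MvPolynomial (Fin (n + 2 + 2 * t)) k),
            Above F t m H ∧ b < m * (r + 1) ∧ RankLe k H (n - i + t) b] := by
  tfae_have 1 → 2 := by
    intro h
    refine ⟨1, 0, r, le_rfl, by rw [pow_zero, one_mul]; exact Nat.lt_succ_self r, ?_⟩
    rw [one_mul]
    exact h
  tfae_have 2 → 3 := by
    rintro ⟨a, t, b, ha, hb, h⟩ F hF hs
    have had : 2 ≤ a * d := le_trans hd (Nat.le_mul_of_pos_left d ha)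
    obtain ⟨ζ, hζ'⟩ := hζ (a * d) (by omega)
    have hdk : ((a * d : ℕ) : k) ≠ 0 := by
      have : a * d ≠ 0 := by omega
      exact_mod_cast this
    obtain ⟨d', hd'⟩ : ∃ d', d = d' + 1 := ⟨d - 1, by omega⟩
    obtain ⟨φ, hfin, hinj, hhom, hsm⟩ := smooth_phi_lsub (a := a) ha (d' := d')
      (by rw [← hd']; exact hF) hs
    rw [← hd'] at hhom
    exact ⟨t, (a * d - 1) ^ t, b, dblt (a * d) (φ F) t, above_dblt had hζ' φ hfin hinj t, hb,
      bound_apply h hi _ (dblt_hom hhom t) (dblt_smooth' (by omega) hdk hsm t)⟩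
  tfae_have 3 → 1 := by
    intro h F hF hs
    obtain ⟨t, m, b, H, hA, hb, h1⟩ := h F hF hs
    exact rank_of_dual ((above (smooth_ne_zero hs) hA).2.2 (n - i) b r (dual_of_rank h1) hb)
  tfae_finish

end Pool.Agent.W5h77.KH
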