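import Pool.Agent.W5h77.KH.Rank

set_option autoImplicit false

/-!
# Transport to forms in `N` variables
-/

namespace Pool.Agent.W5h77.KH

open Function

section transport

variable {k A B : Type} [Field k] [CommRing A] [CommRing B] [Algebra k A] [Algebra k B]

lemma comp_symm (φ : A ≃ₐ[k] B) : ((φ : A →ₐ[k] B) : A →+* B).comp
    ((φ.symm : B →ₐ[k] A) : B →+* A) = RingHom.id B := by
  ext x
  simp

lemma fin_equiv (φ : A ≃ₐ[k] B) : ((φ : A →ₐ[k] B) : A →+* B).Finite :=
  RingHom.Finite.of_surjective _ φ.surjective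

lemma test_equiv (φ : A ≃ₐ[k] B) {G : A} {e : ℕ} {g : AddFun B} (h : Test k (φ G) e g) :
    Test k G e (res ((φ.symm : B →ₐ[k] A) : B →+* A) g) := by
  set ψ : B →+* A := ((φ.symm : B →ₐ[k] A) : B →+* A) with hψ
  have hψG : ψ (φ G) = G := φ.symm_apply_apply G
  have hfin : ψ.Finite := fin_equiv φ.symm
  refine ⟨?_, ?_, ?_⟩
  · have h1 := res_additive hfin h.add
    rw [hψG] at h1
    exact h1
  · let i1 : Module B (A ⧸ Ideal.span {G}) := Module.compHom (A ⧸ Ideal.span {G}) ψ
    have hmap : Ideal.span {φ G} = Ideal.map (φ : A →+* B) (Ideal.span {G}) := by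
      rw [Ideal.map_span, Set.image_singleton]
      rfl
    set E : (A ⧸ Ideal.span {G}) ≃+* (B ⧸ Ideal.span {φ G}) :=
      Ideal.quotientEquiv (Ideal.span {G}) (Ideal.span {φ G}) (φ : A ≃+* B) hmap with hE
    have e : (A ⧸ Ideal.span {G}) ≃ₗ[B] (B ⧸ Ideal.span {φ G}) :=
      { toFun := E
        invFun := E.symm
        left_inv := E.symm_apply_apply
        right_inv := E.apply_symm_apply
        map_add' := E.map_add
        map_smul' := fun b x => by
          obtain ⟨a, rfl⟩ := Ideal.Quotient.mk_surjective x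
          change E (Ideal.Quotient.mk _ (φ.symm b * a)) = b • E (Ideal.Quotient.mk _ a)
          change Ideal.Quotient.mk _ (φ (φ.symm b * a)) = Ideal.Quotient.mk _ (b * φ a)
          rw [map_mul, φ.apply_symm_apply] }
    have hadm : Adm (φ G) (B ⧸ Ideal.span {φ G}) := by
      refine ⟨inferInstance, fun m => ?_⟩
      obtain ⟨m, rfl⟩ := Submodule.mkQ_surjective _ m
      rw [← map_smul]
      exact (Submodule.Quotient.mk_eq_zero _).2
        (Ideal.mul_mem_right _ _ (Ideal.mem_span_singleton_self _))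
    have h1 := f_iso h.add hadm e
    rw [h.str] at h1
    exact h1
  · intro M _ _ hM hd
    have h2 := dimLe_res (φ.symm : B →ₐ[k] A) hfin.to_isIntegral hd
    have h3 : @Adm B _ (φ G) M _ (Module.compHom M ψ) := by
      rw [← hψG] at hM
      exact res_adm hfin hM
    let := Module.compHom M ψ
    exact h.van M h3 h2

/-- transport along an isomorphism -/
theorem dual_equiv (φ : A ≃ₐ[k] B) {G : A} {e r : ℕ} (h : DualLe k G e r) :
    DualLe k (φ G) e r := by
  intro κ _ f hκ hf
  obtain ⟨c, hc, hv⟩ := h κ (fun i => res ((φ.symm : B →ₐ[k] A) : B →+* A) (f i)) hκ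
    (fun i => test_equiv φ (hf i))
  refine ⟨c, hc, fun N _ _ hN hd => ?_⟩
  have h2 := dimLe_res (φ : A →ₐ[k] B) (fin_equiv φ).to_isIntegral hd
  have h3 := @hv N _ (Module.compHom N ((φ : A →ₐ[k] B) : A →+* B)) (res_adm (fin_equiv φ) hN) h2
  rw [← h3]
  refine Finset.sum_congr rfl fun i _ => ?_
  congr 1
  change f i N = res ((φ : A →ₐ[k] B) : A →+* B)
    (res ((φ.symm : B →ₐ[k] A) : B →+* A) (f i)) N
  rw [res_res, comp_symm, res_id]

end transport

section roots

open Polynomial

/-- `x ^ d - y ^ d` is a product of linear forms -/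
lemma prod_roots {k R : Type} [Field k] [CommRing R] [IsDomain R] [Algebra k R] {d : ℕ}
    (hd : 1 ≤ d) {ζ : k} (hζ : IsPrimitiveRoot ζ d) (x y : R) :
    ∏ j : Fin d, (x - algebraMap k R (ζ ^ (j : ℕ)) * y) = x ^ d - y ^ d := by
  classical
  have h1 : IsPrimitiveRoot (algebraMap k R ζ) d :=
    hζ.map_of_injective (FaithfulSMul.algebraMap_injective k R)
  rw [h1.pow_sub_pow_eq_prod_sub_mul x y (by omega)]
  have hinj : Injective (fun j : Fin d => (algebraMap k R ζ) ^ (j : ℕ)) := by
    intro i j hij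
    exact Fin.ext (h1.pow_inj i.2 j.2 hij)
  have h2 : Finset.univ.image (fun j : Fin d => (algebraMap k R ζ) ^ (j : ℕ)) =
      nthRootsFinset d (1 : R) := by
    apply Finset.eq_of_subset_of_card_le
    · intro z hz
      obtain ⟨j, _, rfl⟩ := Finset.mem_image.1 hz
      rw [mem_nthRootsFinset (by omega)]
      rw [← pow_mul, mul_comm, pow_mul, h1.pow_eq_one, one_pow]
    · rw [h1.card_nthRootsFinset, Finset.card_image_of_injective _ hinj, Finset.card_univ,
        Fintype.card_fin]
  rw [← h2, Finset.prod_image (fun i _ j _ h => hinj h)]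
  exact Finset.prod_congr rfl fun j _ => by rw [map_pow]

end roots

section forms

open MvPolynomial

variable {k : Type} [Field k]

/-- the form `F + z ^ d - u ^ d` in two more variables `u`, `z`, which come first -/
noncomputable def dbl (d : ℕ) {N : ℕ} (F : MvPolynomial (Fin N) k) :
    MvPolynomial (Fin (N + 2)) k :=
  rename (fun i => i.succ.succ) F + X 1 ^ d - X 0 ^ d

/-- the form `F + z_1 ^ d - u_1 ^ d + ... + z_t ^ d - u_t ^ d` in `2 t` more variables -/
noncomputable def dblt (d : ℕ) {N : ℕ} (F : MvPolynomial (Fin N) k) :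
    (t : ℕ) → MvPolynomial (Fin (N + 2 * t)) k
  | 0 => F
  | t + 1 => dbl d (dblt d F t)

/-- the hypersurface `F = 0` is smooth: the partial derivatives of `F` have no common zero
besides the origin over an algebraic closure -/
def SmoothForm {N : ℕ} (F : MvPolynomial (Fin N) k) : Prop :=
  ∀ a : Fin N → AlgebraicClosure k, (∀ i, aeval a (pderiv i F) = 0) → a = 0

lemma dbl_hom {d N : ℕ} {F : MvPolynomial (Fin N) k} (h : F.IsHomogeneous d) :
    (dbl d F).IsHomogeneous d := by
  refine ((h.rename_isHomogeneous).add ?_).sub ?_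
  · have h1 := (isHomogeneous_X k (1 : Fin (N + 2))).pow d
    rwa [one_mul] at h1
  · have h1 := (isHomogeneous_X k (0 : Fin (N + 2))).pow d
    rwa [one_mul] at h1

lemma dbl_smooth {d N : ℕ} (hdk : (d : k) ≠ 0) {F : MvPolynomial (Fin N) k}
    (h : SmoothForm F) : SmoothForm (dbl d F) := by
  have hdk' : (d : AlgebraicClosure k) ≠ 0 := by
    intro h1
    apply hdk
    apply FaithfulSMul.algebraMap_injective k (AlgebraicClosure k)
    rw [map_natCast, h1, map_zero]
  have hss : Injective (fun i : Fin N => (i.succ.succ : Fin (N + 2))) := fun i j hij =>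
    Fin.succ_injective _ (Fin.succ_injective _ hij)
  have h10 : (1 : Fin (N + 2)) ≠ 0 := Fin.succ_ne_zero (0 : Fin (N + 1))
  have hs0 : ∀ i : Fin N, (0 : Fin (N + 2)) ≠ i.succ.succ := fun i => (Fin.succ_ne_zero _).symm
  have hs1 : ∀ i : Fin N, (1 : Fin (N + 2)) ≠ i.succ.succ := by
    intro i h3
    have h4 : (Fin.succ 0 : Fin (N + 2)) = i.succ.succ := h3
    exact Fin.succ_ne_zero i (Fin.succ_injective _ h4).symm
  intro a ha
  have h0 : a 0 = 0 := by
    have h1 := ha 0
    have h2 : pderiv (0 : Fin (N + 2)) (rename (fun i : Fin N => (i.succ.succ : Fin (N + 2))) F) =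
        0 := by
      classical
      apply pderiv_eq_zero_of_notMem_vars
      intro h3
      obtain ⟨j, _, hj⟩ := Finset.mem_image.1 (vars_rename _ F h3)
      exact Fin.succ_ne_zero _ hj
    rw [dbl, map_sub, map_add, h2, zero_add, Derivation.leibniz_pow, Derivation.leibniz_pow,
      pderiv_X_of_ne h10, pderiv_X_self, smul_zero, smul_zero, zero_sub,
      map_neg, neg_eq_zero, nsmul_eq_mul, smul_eq_mul, mul_one, map_mul, map_natCast, map_pow,
      aeval_X] at h1
    exact eq_zero_of_pow_eq_zero ((mul_eq_zero.1 h1).resolve_left hdk')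
  have h0' : a 1 = 0 := by
    have h1 := ha 1
    have h2 : pderiv (1 : Fin (N + 2)) (rename (fun i : Fin N => (i.succ.succ : Fin (N + 2))) F) =
        0 := by
      classical
      apply pderiv_eq_zero_of_notMem_vars
      intro h3
      obtain ⟨j, _, hj⟩ := Finset.mem_image.1 (vars_rename _ F h3)
      have h4 : (j.succ.succ : Fin (N + 2)) = Fin.succ 0 := hj
      exact Fin.succ_ne_zero _ (Fin.succ_injective _ h4)
    rw [dbl, map_sub, map_add, h2, zero_add, Derivation.leibniz_pow, Derivation.leibniz_pow,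
      pderiv_X_of_ne h10.symm, pderiv_X_self, smul_zero, smul_zero,
      sub_zero, nsmul_eq_mul, smul_eq_mul, mul_one, map_mul, map_natCast, map_pow,
      aeval_X] at h1
    exact eq_zero_of_pow_eq_zero ((mul_eq_zero.1 h1).resolve_left hdk')
  have h1 : (fun i : Fin N => a i.succ.succ) = 0 := by
    apply h
    intro i
    have h2 := ha i.succ.succ
    rw [dbl, map_sub, map_add, pderiv_rename hss, Derivation.leibniz_pow, Derivation.leibniz_pow,
      pderiv_X_of_ne (hs0 i), pderiv_X_of_ne (hs1 i), smul_zero, smul_zero, smul_zero, smul_zero,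
      sub_zero, add_zero, aeval_rename] at h2
    exact h2
  funext i
  refine Fin.cases h0 (fun i => ?_) i
  refine Fin.cases h0' (fun i => ?_) i
  exact congrFun h1 i

lemma dblt_hom {d N : ℕ} {F : MvPolynomial (Fin N) k} (h : F.IsHomogeneous d) (t : ℕ) :
    (dblt d F t).IsHomogeneous d := by
  induction t with
  | zero => exact h
  | succ t ih => exact dbl_hom ih

lemma dblt_smooth {d N : ℕ} (hdk : (d : k) ≠ 0) {F : MvPolynomial (Fin N) k}
    (h : SmoothForm F) (t : ℕ) : SmoothForm (dblt d F t) := by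
  induction t with
  | zero => exact h
  | succ t ih => exact dbl_smooth hdk ih

lemma SmoothForm.ne_zero {N : ℕ} {F : MvPolynomial (Fin (N + 1)) k} (h : SmoothForm F) :
    F ≠ 0 := by
  rintro rfl
  have h1 := h (fun _ => 1) (fun i => by rw [map_zero, map_zero])
  exact one_ne_zero (congrFun h1 0)

/-- the isomorphism with the polynomial ring in two variables -/
noncomputable def equiv2 (k : Type) [Field k] (N : ℕ) : MvPolynomial (Fin (N + 2)) k ≃ₐ[k]
    Polynomial (Polynomial (MvPolynomial (Fin N) k)) :=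
  (finSuccEquiv k (N + 1)).trans (Polynomial.mapAlgEquiv (finSuccEquiv k N))

lemma equiv2_dbl {d N : ℕ} (hd : 1 ≤ d) {ζ : k} (hζ : IsPrimitiveRoot ζ d)
    (F : MvPolynomial (Fin N) k) :
    equiv2 k N (dbl d F) = sus (fun j : Fin d => ζ ^ (j : ℕ)) F := by
  have h0 : equiv2 k N (X 0) = Polynomial.X := by
    change Polynomial.map _ (finSuccEquiv k (N + 1) (X 0)) = _
    rw [finSuccEquiv_X_zero, Polynomial.map_X]
  have hs : ∀ i : Fin (N + 1), equiv2 k N (X i.succ) = Polynomial.C (finSuccEquiv k N (X i)) := by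
    intro i
    change Polynomial.map _ (finSuccEquiv k (N + 1) (X i.succ)) = _
    rw [finSuccEquiv_X_succ, Polynomial.map_C]
    rfl
  have h1 : equiv2 k N (X 1) = Polynomial.C Polynomial.X := by
    have h2 := hs 0
    rw [finSuccEquiv_X_zero] at h2
    exact h2
  have hF : equiv2 k N (rename (fun i : Fin N => i.succ.succ) F) =
      Polynomial.C (Polynomial.C F) := by
    induction F using MvPolynomial.induction_on with
    | C a =>
      rw [rename_C]
      exact (equiv2 k N).commutes a
    | add p q hp hq => rw [map_add, map_add, hp, hq, Polynomial.C_add, Polynomial.C_add]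
    | mul_X p i hp =>
      rw [map_mul, map_mul, hp, rename_X, hs, finSuccEquiv_X_succ, Polynomial.C_mul,
        Polynomial.C_mul]
  rw [dbl, map_sub, map_add, map_pow, map_pow, h0, h1, hF, sus]
  have h2 := prod_roots hd hζ (Polynomial.C Polynomial.X : Polynomial (Polynomial
    (MvPolynomial (Fin N) k))) Polynomial.X
  have h3 : ∏ j : Fin d, ell (S := MvPolynomial (Fin N) k) (ζ ^ (j : ℕ)) =
      Polynomial.C Polynomial.X ^ d - Polynomial.X ^ d := h2
  rw [h3]
  ring

/-- **The growth of the ranks**, one step. -/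
theorem growth_form {d : ℕ} (hd : 2 ≤ d) {ζ : k} (hζ : IsPrimitiveRoot ζ d) {N : ℕ}
    {F : MvPolynomial (Fin N) k} (hF : F ≠ 0) {e r r' : ℕ} (h : DualLe k (dbl d F) (e + 1) r')
    (hr : r' < (d - 1) * (r + 1)) : DualLe k F e r := by
  have h1 := dual_equiv (B := Polynomial (Polynomial (MvPolynomial (Fin N) k))) (equiv2 k N) h
  rw [equiv2_dbl (by omega) hζ] at h1
  refine growth (gen_mv k N) hF ?_ ?_ h1 ?_
  · intro i j hij
    exact Fin.ext (hζ.pow_inj i.2 j.2 hij)
  · rw [Fintype.card_fin]
    exact hd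
  · rw [Fintype.card_fin]
    exact hr

lemma dbl_ne_zero {d : ℕ} (hd : 1 ≤ d) {ζ : k} (hζ : IsPrimitiveRoot ζ d) {N : ℕ}
    {F : MvPolynomial (Fin N) k} (hF : F ≠ 0) : dbl d F ≠ 0 := by
  intro h
  have h1 := equiv2_dbl hd hζ F
  rw [h, map_zero] at h1
  exact sus_ne_zero ⟨0, hd⟩ hF h1.symm

/-- **The growth of the ranks.** -/
theorem growth_iter {d : ℕ} (hd : 2 ≤ d) {ζ : k} (hζ : IsPrimitiveRoot ζ d) {N : ℕ}
    {F : MvPolynomial (Fin N) k} (hF : F ≠ 0) {e : ℕ} (t : ℕ) : dblt d F t ≠ 0 ∧
      ∀ r b : ℕ, DualLe k (dblt d F t) (e + t) b → b < (d - 1) ^ t * (r + 1) → DualLe k F e r := by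
  induction t with
  | zero =>
    refine ⟨hF, fun r b h hb => ?_⟩
    intro κ _ f hκ hf
    exact h κ f (by rw [pow_zero, one_mul] at hb; omega) hf
  | succ t ih =>
    refine ⟨dbl_ne_zero (by omega) hζ ih.1, fun r b h hb => ?_⟩
    -- the largest possible rank of the previous form
    set s := (d - 1) ^ t * (r + 1) - 1 with hs
    have hpos : 0 < (d - 1) ^ t * (r + 1) :=
      Nat.mul_pos (Nat.pow_pos (by omega)) (Nat.succ_pos r)
    refine ih.2 r s ?_ (by omega)
    refine growth_form hd hζ ih.1 (e := e + t) h ?_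
    have h1 : s + 1 = (d - 1) ^ t * (r + 1) := by omega
    rw [h1, ← mul_assoc, ← pow_succ']
    exact hb

/-- For every smooth hypersurface `F = 0` of degree `d` and dimension `n` the rank of
`A ^ i` is at most `b + 1` (in the form of `RankLe`, see there). -/
def Bound (k : Type) [Field k] (d n i b : ℕ) : Prop :=
  ∀ F : MvPolynomial (Fin (n + 2)) k, F.IsHomogeneous d → SmoothForm F → RankLe k F (n - i) b

/-- the reduction for all hypersurfaces of a degree -/
theorem bound_of {d : ℕ} (hd : 2 ≤ d) {ζ : k} (hζ : IsPrimitiveRoot ζ d) {n i t b r : ℕ}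
    (hi : i ≤ n) (h : Bound k d (n + 2 * t) (i + t) b) (hb : b < (d - 1) ^ t * (r + 1)) :
    Bound k d n i r := by
  intro F hF hs
  have hdk : (d : k) ≠ 0 := by
    have : NeZero d := ⟨by omega⟩
    exact hζ.neZero'.out
  have h1 : n + 2 * t + 2 = n + 2 + 2 * t := by omega
  have h2 : n + 2 * t - (i + t) = n - i + t := by omega
  unfold Bound at h
  rw [h1, h2] at h
  have h3 := h (dblt d F t) (dblt_hom hF t) (dblt_smooth hdk hs t)
  exact rank_of_dual ((growth_iter hd hζ hs.ne_zero t).2 r b (dual_of_rank h3) hb)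

end forms

end Pool.Agent.W5h77.KH
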