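import Pool.Agent.W5h77.KH.Cones
import Pool.Agent.W5h77.KH.Forms

set_option autoImplicit false

/-!
# Hypersurfaces with hyperplane sections which are cones: forms
-/

namespace Pool.Agent.W5h77.KH

open Function MvPolynomial

variable {k : Type} [Field k]

/-- the point `(1, a, 0, ..., 0)`: the vertex of the cone -/
def vertex (a : k) (N : ℕ) : Fin (N + 2) → k := Fin.cons 1 (Fin.cons a 0)

/-- the substitution `z ↦ z + a u` -/
noncomputable def sbs (a : k) (N : ℕ) : Fin (N + 2) → MvPolynomial (Fin (N + 2)) k :=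
  Fin.cons (X 0) (Fin.cons (X 1 + C a * X 0) (fun i => X i.succ.succ))

lemma coeff_top {n D : ℕ} {H : MvPolynomial (Fin (n + 1)) k} (hH : H.IsHomogeneous D) :
    (finSuccEquiv k n H).coeff D = C (eval (Fin.cons 1 0) H) := by
  have h1 : ∀ i, i < D → eval (0 : Fin n → k) ((finSuccEquiv k n H).coeff i) = 0 := by
    intro i hi
    have h2 := hH.finSuccEquiv_coeff_isHomogeneous i (D - i) (by omega)
    rw [eval_zero, constantCoeff_eq]
    refine h2.coeff_eq_zero ?_
    rw [map_zero]
    omega
  have h2 : ((finSuccEquiv k n H).coeff D).IsHomogeneous 0 :=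
    hH.finSuccEquiv_coeff_isHomogeneous D 0 (by omega)
  have h3 : (finSuccEquiv k n H).coeff D = C (coeff 0 ((finSuccEquiv k n H).coeff D)) := by
    rw [← totalDegree_zero_iff_isHomogeneous] at h2
    exact totalDegree_eq_zero_iff_eq_C.1 h2
  have h4 : (finSuccEquiv k n H).natDegree < D + 1 := by
    rw [natDegree_finSuccEquiv]
    exact Nat.lt_succ_of_le ((degreeOf_le_totalDegree _ _).trans hH.totalDegree_le)
  have h5 : eval (Fin.cons 1 0) H = coeff 0 ((finSuccEquiv k n H).coeff D) := by
    rw [eval_eq_eval_mv_eval', Polynomial.eval_eq_sum_range' (n := D + 1)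
      (lt_of_le_of_lt Polynomial.natDegree_map_le h4), Finset.sum_range_succ,
      Finset.sum_eq_zero, zero_add, one_pow, mul_one, Polynomial.coeff_map]
    · change MvPolynomial.eval (0 : Fin n → k) _ = _
      rw [eval_zero, constantCoeff_eq]
    · intro i hi
      rw [Polynomial.coeff_map]
      have h6 := h1 i (Finset.mem_range.1 hi)
      change MvPolynomial.eval (0 : Fin n → k) _ * _ = 0
      rw [h6, zero_mul]
  rw [h5]
  exact h3

lemma equiv2_X0 (N : ℕ) : equiv2 k N (X 0) = Polynomial.X := by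
  change Polynomial.map _ (finSuccEquiv k (N + 1) (X 0)) = _
  rw [finSuccEquiv_X_zero, Polynomial.map_X]

lemma equiv2_Xs (N : ℕ) (i : Fin (N + 1)) :
    equiv2 k N (X i.succ) = Polynomial.C (finSuccEquiv k N (X i)) := by
  change Polynomial.map _ (finSuccEquiv k (N + 1) (X i.succ)) = _
  rw [finSuccEquiv_X_succ, Polynomial.map_C]
  rfl

lemma equiv2_X1 (N : ℕ) : equiv2 k N (X 1) = Polynomial.C Polynomial.X := by
  have h2 := equiv2_Xs (k := k) N 0
  rw [finSuccEquiv_X_zero] at h2
  exact h2

lemma equiv2_Xss (N : ℕ) (i : Fin N) :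
    equiv2 k N (X i.succ.succ) = Polynomial.C (Polynomial.C (X i)) := by
  rw [equiv2_Xs, finSuccEquiv_X_succ]

lemma equiv2_C (N : ℕ) (a : k) : equiv2 k N (C a) = cst a := (equiv2 k N).commutes a

lemma equiv2_rename (N : ℕ) (F : MvPolynomial (Fin N) k) :
    equiv2 k N (rename (fun i : Fin N => i.succ.succ) F) = Polynomial.C (Polynomial.C F) := by
  induction F using MvPolynomial.induction_on with
  | C a =>
    rw [rename_C]
    exact (equiv2 k N).commutes a
  | add p q hp hq => rw [map_add, map_add, hp, hq, Polynomial.C_add, Polynomial.C_add]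
  | mul_X p i hp =>
    rw [map_mul, map_mul, hp, rename_X, equiv2_Xss, Polynomial.C_mul, Polynomial.C_mul]

lemma kap_equiv2 (a : k) (N : ℕ) (q : MvPolynomial (Fin (N + 2)) k) :
    kap a (equiv2 k N (aeval (sbs a N) q)) = equiv2 k N q := by
  induction q using MvPolynomial.induction_on with
  | C b =>
    rw [aeval_C, algebraMap_eq, equiv2_C, cst, kap_CC]
  | add p q hp hq => rw [map_add, map_add, map_add, map_add, hp, hq]
  | mul_X p i hp =>
    rw [map_mul, map_mul, map_mul, map_mul, hp, aeval_X]
    congr 1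
    refine Fin.cases ?_ (fun i => ?_) i
    · change kap a (equiv2 k N (X 0)) = equiv2 k N (X 0)
      rw [equiv2_X0, kap_X]
    · refine Fin.cases ?_ (fun i => ?_) i
      · change kap a (equiv2 k N (X 1 + C a * X 0)) = equiv2 k N (X 1)
        rw [map_add, map_mul, equiv2_X1, equiv2_X0, equiv2_C, map_add, map_mul, kap_CX, kap_X, cst,
          kap_CC, ell]
        ring
      · change kap a (equiv2 k N (X i.succ.succ)) = equiv2 k N (X i.succ.succ)
        rw [equiv2_Xss, kap_CC]

lemma eval_sbs (a : k) (N : ℕ) (q : MvPolynomial (Fin (N + 2)) k) :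
    eval (Fin.cons 1 0) (aeval (sbs a N) q) = eval (vertex a N) q := by
  induction q using MvPolynomial.induction_on with
  | C b => rw [aeval_C, algebraMap_eq, eval_C, eval_C]
  | add p q hp hq => rw [map_add, map_add, map_add, hp, hq]
  | mul_X p i hp =>
    rw [map_mul, map_mul, map_mul, hp, aeval_X, eval_X]
    congr 1
    refine Fin.cases ?_ (fun i => ?_) i
    · change eval (Fin.cons 1 0) (X 0) = (1 : k)
      rw [eval_X]
      rfl
    · refine Fin.cases ?_ (fun i => ?_) i
      · change eval (Fin.cons 1 0) (X 1 + C a * X 0) = a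
        rw [map_add, map_mul, eval_X, eval_X, eval_C]
        change (0 : k) + a * 1 = a
        ring
      · change eval (Fin.cons 1 0) (X i.succ.succ) = (0 : k)
        rw [eval_X]
        rfl

lemma sbs_hom (a : k) (N : ℕ) {q : MvPolynomial (Fin (N + 2)) k} {D : ℕ} (hq : q.IsHomogeneous D) :
    (aeval (sbs a N) q).IsHomogeneous D := by
  have h1 := hq.aeval (sbs a N) (n := 1) (fun i => by
    refine Fin.cases ?_ (fun i => ?_) i
    · exact isHomogeneous_X _ _
    · refine Fin.cases ?_ (fun i => ?_) i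
      · exact (isHomogeneous_X _ _).add (isHomogeneous_C_mul_X _ _)
      · exact isHomogeneous_X _ _)
  rwa [one_mul] at h1

/-- **Hyperplane sections which are cones.** -/
theorem cones_form {N D : ℕ} (hD : 1 ≤ D) {F : MvPolynomial (Fin N) k} (hF : F ≠ 0) {m : ℕ}
    (hm : m ≤ D) {c : Fin m → k} (hc : Injective c) {G : MvPolynomial (Fin (N + 2)) k}
    {Q : Fin m → MvPolynomial (Fin (N + 2)) k} (hQ : ∀ l, (Q l).IsHomogeneous D)
    (hG : ∀ l, G = (X 1 - C (c l) * X 0) * Q l) (hv : ∀ l, eval (vertex (c l) N) (Q l) ≠ 0)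
    {e r b : ℕ} (h : DualLe k (rename (fun i : Fin N => i.succ.succ) F + G) (e + 1) b)
    (hr : b < m * (r + 1)) : DualLe k F e r := by
  have h1 := dual_equiv (B := Polynomial (Polynomial (MvPolynomial (Fin N) k))) (equiv2 k N) h
  rw [map_add, equiv2_rename] at h1
  refine growth_cones (gen_mv k N) hF hc (G := equiv2 k N G)
    (R := fun l => equiv2 k N (aeval (sbs (c l) N) (Q l))) ?_ hD ?_
    (b := fun l => eval (vertex (c l) N) (Q l)) hv ?_ ?_ h1 ?_
  · intro l
    rw [kap_equiv2, hG l, map_mul, map_sub, map_mul, equiv2_X1, equiv2_X0, equiv2_C]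
    rfl
  · intro l
    have h2 := sbs_hom (c l) N (hQ l)
    refine le_trans (Polynomial.natDegree_map_le (p := finSuccEquiv k (N + 1) _)) ?_
    rw [natDegree_finSuccEquiv]
    exact (degreeOf_le_totalDegree _ _).trans h2.totalDegree_le
  · intro l
    have h2 := coeff_top (sbs_hom (c l) N (hQ l))
    rw [eval_sbs] at h2
    have h3 : (equiv2 k N (aeval (sbs (c l) N) (Q l))).coeff D =
        finSuccEquiv k N ((finSuccEquiv k (N + 1) (aeval (sbs (c l) N) (Q l))).coeff D) :=
      Polynomial.coeff_map _ _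
    rw [h3, h2]
    exact (finSuccEquiv k N).commutes _
  · rw [Fintype.card_fin]
    exact hm
  · rw [Fintype.card_fin]
    exact hr

end Pool.Agent.W5h77.KH
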