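import Pool.Agent.W5h77.KH.PM

set_option autoImplicit false

/-!
# The Grothendieck group of a polynomial ring over a field is generated by the ring
-/

namespace Pool.Agent.W5h77.KH

open Function Polynomial

/-- Every additive function which vanishes on `A` vanishes on all finitely generated modules. -/
def Gen (A : Type) [CommRing A] : Prop :=
  ∀ f : AddFun A, IsAdditive (0 : A) f → f A = 0 →
    ∀ (M : Type) [AddCommGroup M] [Module A M], Module.Finite A M → f M = 0

lemma adm_zero {A : Type} [CommRing A] {M : Type} [AddCommGroup M] [Module A M]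
    (h : Module.Finite A M) : Adm (0 : A) M := ⟨h, fun m => zero_smul A m⟩

lemma gen_field (k : Type) [Field k] : Gen k := by
  intro f hf h0 M _ _ hM
  induction hM using IsNoetherianRing.induction_on_isQuotientEquivQuotientPrime k with
  | subsingleton N => exact f_zero hf
  | quotient N p e =>
    have hp : p.1 = ⊥ := (Ideal.eq_bot_or_top p.1).resolve_right p.2.ne_top
    have e2 : (k ⧸ p.1) ≃ₗ[k] k := by
      rw [hp]
      exact Submodule.quotEquivOfEqBot _ rfl
    rw [f_iso hf (adm_zero inferInstance) (e.trans e2), h0]
  | exact N₁ N₂ N₃ i p hi hp hip h1 h3 =>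
    rw [hf N₁ N₂ N₃ i p (adm_zero inferInstance) hi hp hip, h1, h3, add_zero]

section poly

variable {A : Type} [CommRing A] [IsNoetherianRing A]

/-- `A[X] / 𝔭 A[X]` is a polynomial module -/
lemma exists_pmod_equiv (P : Ideal A) :
    Nonempty ((A[X] ⧸ P.map (C : A →+* A[X])) ≃ₗ[A[X]] PolynomialModule A (A ⧸ P)) := by
  set s : PolynomialModule A (A ⧸ P) := PolynomialModule.single A 0 (Submodule.Quotient.mk 1) with hs
  set φ : A[X] →ₗ[A[X]] PolynomialModule A (A ⧸ P) := LinearMap.toSpanSingleton A[X] _ s with hφ
  have hc : ∀ (x : A[X]) (n : ℕ), (φ x).coeff n = Submodule.Quotient.mk (x.coeff n) := by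
    intro x n
    rw [hφ, LinearMap.toSpanSingleton_apply, hs, PolynomialModule.smul_single_apply,
      if_pos (Nat.zero_le n), Nat.sub_zero, ← Submodule.Quotient.mk_smul, smul_eq_mul, mul_one]
  have hk : LinearMap.ker φ = P.map (C : A →+* A[X]) := by
    ext x
    rw [LinearMap.mem_ker, Ideal.mem_map_C_iff]
    constructor
    · intro h n
      have h1 := hc x n
      rw [h] at h1
      exact (Submodule.Quotient.mk_eq_zero _).1 h1.symm
    · intro h
      refine ext_coeff fun n => ?_
      rw [hc, (Submodule.Quotient.mk_eq_zero _).2 (h n)]
      rfl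
  have hsurj : Surjective φ := by
    intro y
    induction y using PolynomialModule.induction_linear with
    | zero => exact ⟨0, map_zero _⟩
    | add a b ha hb =>
      obtain ⟨a, rfl⟩ := ha
      obtain ⟨b, rfl⟩ := hb
      exact ⟨a + b, map_add _ _ _⟩
    | single n m =>
      obtain ⟨m, rfl⟩ := Submodule.mkQ_surjective _ m
      refine ⟨monomial n m, ?_⟩
      rw [hφ, LinearMap.toSpanSingleton_apply, hs, PolynomialModule.monomial_smul_single, add_zero,
        ← Submodule.Quotient.mk_smul, smul_eq_mul, mul_one]
      rfl
  exact ⟨(Submodule.quotEquivOfEq _ _ hk.symm).trans (φ.quotKerEquivOfSurjective hsurj)⟩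

variable {g : AddFun A[X]}

lemma pmod_additive (hg : IsAdditive (0 : A[X]) g) :
    IsAdditive (0 : A) (fun M _ _ => g (PolynomialModule A M)) := by
  intro M₁ M₂ M₃ _ _ _ _ _ _ i p hM hi hp hip
  have := hM.1
  exact hg _ _ _ (pmap i) (pmap p) (adm_zero inferInstance) (pmap_injective hi)
    (pmap_surjective hp) (pmap_exact hip)

/-- pseudo-division -/
lemma pseudo {P : Ideal A} {Q : Ideal A[X]} (hPQ : P.map C ≤ Q) {f : A[X]} (hf : f ∈ Q)
    (hmin : ∀ g ∈ Q, g.natDegree < f.natDegree → g.leadingCoeff ∈ P) :
    ∀ (n : ℕ) (g : A[X]), g.natDegree < n → g ∈ Q →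
      ∃ e : ℕ, C f.leadingCoeff ^ e * g ∈ Ideal.span {f} ⊔ P.map C := by
  intro n
  induction n with
  | zero => intro g h; omega
  | succ n ih =>
    intro g hgn hg
    by_cases h1 : g.leadingCoeff ∈ P
    · -- remove the leading term
      by_cases h2 : g.natDegree = 0
      · refine ⟨0, ?_⟩
        rw [pow_zero, one_mul]
        apply Ideal.mem_sup_right
        rw [eq_C_of_natDegree_eq_zero h2]
        apply Ideal.mem_map_of_mem
        rw [← h2]
        exact h1
      · have h3 : C g.leadingCoeff * X ^ g.natDegree ∈ P.map (C : A →+* A[X]) :=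
          Ideal.mul_mem_right _ _ (Ideal.mem_map_of_mem _ h1)
        have h4 : g.eraseLead = g - C g.leadingCoeff * X ^ g.natDegree := by
          conv_rhs => rw [← eraseLead_add_C_mul_X_pow g]
          simp
        have h5 : g.eraseLead ∈ Q := by
          rw [h4]
          exact Q.sub_mem hg (hPQ h3)
        have h6 : g.eraseLead.natDegree < n := by
          have h7 := eraseLead_natDegree_le g
          omega
        obtain ⟨e, he⟩ := ih _ h6 h5
        refine ⟨e, ?_⟩
        rw [← eraseLead_add_C_mul_X_pow g, mul_add]
        exact Ideal.add_mem _ he (Ideal.mul_mem_left _ _ (Ideal.mem_sup_right h3))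
    · have h2 : f.natDegree ≤ g.natDegree := by
        by_contra hcon
        exact h1 (hmin g hg (by omega))
      set g' : A[X] := C f.leadingCoeff * g - C g.leadingCoeff * X ^ (g.natDegree - f.natDegree) * f
        with hg'
      have h3 : g' ∈ Q := Q.sub_mem (Q.mul_mem_left _ hg) (Q.mul_mem_left _ hf)
      by_cases h4 : g.natDegree = 0
      · -- then `g'` is a constant
        have h5 : f.natDegree = 0 := by omega
        refine ⟨1, ?_⟩
        have h6 : C f.leadingCoeff * g = C g.leadingCoeff * f := by
          conv_lhs => rw [eq_C_of_natDegree_eq_zero h4]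
          conv_rhs => rw [eq_C_of_natDegree_eq_zero h5]
          rw [leadingCoeff, leadingCoeff, h4, h5, mul_comm]
        rw [pow_one, h6]
        exact Ideal.mem_sup_left (Ideal.mul_mem_left _ _ (Ideal.mem_span_singleton_self f))
      · have h5 : g'.natDegree < n := by
          have h6 : g'.natDegree ≤ g.natDegree - 1 := by
            rw [natDegree_le_iff_coeff_eq_zero]
            intro m hm
            rw [hg', coeff_sub, coeff_C_mul, mul_assoc, coeff_C_mul, coeff_X_pow_mul']
            have h7 : g.natDegree - f.natDegree ≤ m := by omega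
            rw [if_pos h7]
            by_cases h8 : m = g.natDegree
            · subst h8
              have h9 : g.natDegree - (g.natDegree - f.natDegree) = f.natDegree := by omega
              rw [h9, leadingCoeff, leadingCoeff, mul_comm, sub_self]
            · rw [coeff_eq_zero_of_natDegree_lt (by omega : g.natDegree < m),
                coeff_eq_zero_of_natDegree_lt (by omega : f.natDegree < m - (g.natDegree - f.natDegree))]
              simp
          omega
        obtain ⟨e, he⟩ := ih g' h5 h3
        refine ⟨e + 1, ?_⟩
        have h6 : C f.leadingCoeff ^ (e + 1) * g = C f.leadingCoeff ^ e * g' +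
            C f.leadingCoeff ^ e * (C g.leadingCoeff * X ^ (g.natDegree - f.natDegree)) * f := by
          rw [hg']
          ring
        rw [h6]
        exact Ideal.add_mem _ he (Ideal.mem_sup_left
          (Ideal.mul_mem_left _ _ (Ideal.mem_span_singleton_self f)))

lemma ann_mono {R M N : Type} [CommRing R] [AddCommGroup M] [AddCommGroup N] [Module R M]
    [Module R N] (i : M →ₗ[R] N) (hi : Injective i) :
    Module.annihilator R N ≤ Module.annihilator R M := i.annihilator_le_of_injective hi

/-- devissage -/
lemma devissage {R : Type} [CommRing R] [IsNoetherianRing R] {G : R} {g : AddFun R}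
    (hg : IsAdditive G g) {T : Ideal R → Prop}
    (h : ∀ P : Ideal R, P.IsPrime → T P → G ∈ P → g (R ⧸ P) = 0) :
    ∀ (M : Type) [AddCommGroup M] [Module R M], Adm G M →
      (∀ P : Ideal R, P.IsPrime → Module.annihilator R M ≤ P → T P) → g M = 0 := by
  intro M _ _ hM
  obtain ⟨hM1, hM2⟩ := hM
  induction hM1 using IsNoetherianRing.induction_on_isQuotientEquivQuotientPrime R with
  | subsingleton N => exact fun _ => f_zero hg
  | quotient N p e =>
    intro hT
    have h1 : Module.annihilator R N = p.1 := by
      rw [e.annihilator_eq, Ideal.annihilator_quotient]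
    have h2 : Adm G (R ⧸ p.1) := by
      refine ⟨inferInstance, fun m => ?_⟩
      obtain ⟨n, rfl⟩ := e.surjective m
      rw [← map_smul, hM2, map_zero]
    rw [f_iso hg h2 e]
    refine h p.1 p.2 (hT p.1 p.2 h1.le) ?_
    rw [← h1, Module.mem_annihilator]
    exact hM2
  | exact N₁ N₂ N₃ i p hi hp hip h1 h3 =>
    intro hT
    have hA : Adm G N₂ := ⟨inferInstance, hM2⟩
    have hA1 := hA.sub i hi
    have hA3 := hA.quot p hp
    rw [hg N₁ N₂ N₃ i p hA hi hp hip,
      h1 hA1.2 (fun P hP hle => hT P hP ((i.annihilator_le_of_injective hi).trans hle)),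
      h3 hA3.2 (fun P hP hle => hT P hP ((p.annihilator_le_of_surjective hp).trans hle)), add_zero]

theorem gen_poly (hA : Gen A) : Gen A[X] := by
  intro g hg h0 M _ _ hM
  -- the polynomial modules
  have hpm : ∀ (M : Type) [AddCommGroup M] [Module A M], Module.Finite A M →
      g (PolynomialModule A M) = 0 := by
    refine hA _ (pmod_additive hg) ?_
    have e : PolynomialModule A A ≃ₗ[A[X]] A[X] := PolynomialModule.equivPolynomialSelf
    have := f_iso hg (adm_zero inferInstance) e
    change g (PolynomialModule A A) = 0
    rw [this, h0]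
  -- the primes
  have key : ∀ P : Ideal A, ∀ Q : Ideal A[X], Q.IsPrime → Q.comap C = P → g (A[X] ⧸ Q) = 0 := by
    intro P
    induction P using WellFoundedGT.induction with
    | ind P ih =>
    intro Q hQ hQP
    have hPQ : P.map C ≤ Q := by
      rw [Ideal.map_le_iff_le_comap, hQP]
    have hP : P.IsPrime := by
      rw [← hQP]
      exact Ideal.comap_isPrime C Q
    by_cases hall : Q ≤ P.map C
    · have h1 : Q = P.map C := le_antisymm hall hPQ
      obtain ⟨e⟩ := exists_pmod_equiv P
      rw [h1, f_iso hg (adm_zero inferInstance) e]
      exact hpm (A ⧸ P) inferInstance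
    · -- an element of minimal degree
      have hex : ∃ n : ℕ, ∃ f ∈ Q, f.leadingCoeff ∉ P ∧ f.natDegree = n := by
        by_contra hcon
        push Not at hcon
        apply hall
        have h1 : ∀ (n : ℕ) (f : A[X]), f.natDegree < n → f ∈ Q → f ∈ P.map C := by
          intro n
          induction n with
          | zero => intro f h; omega
          | succ n ihn =>
            intro f hfn hf
            have h2 : f.leadingCoeff ∈ P := by
              by_contra h3
              exact hcon _ f hf h3 rfl
            have h3 : C f.leadingCoeff * X ^ f.natDegree ∈ P.map (C : A →+* A[X]) :=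
              Ideal.mul_mem_right _ _ (Ideal.mem_map_of_mem _ h2)
            by_cases h4 : f.natDegree = 0
            · rw [eq_C_of_natDegree_eq_zero h4]
              apply Ideal.mem_map_of_mem
              rw [← h4]
              exact h2
            · have h5 : f.eraseLead ∈ Q := by
                have h6 : f.eraseLead = f - C f.leadingCoeff * X ^ f.natDegree := by
                  conv_rhs => rw [← eraseLead_add_C_mul_X_pow f]
                  simp
                rw [h6]
                exact Q.sub_mem hf (hPQ h3)
              have h6 := ihn f.eraseLead (by have := eraseLead_natDegree_le f; omega) h5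
              rw [← eraseLead_add_C_mul_X_pow f]
              exact Ideal.add_mem _ h6 h3
        exact fun f hf => h1 _ f (Nat.lt_succ_self _) hf
      classical
      obtain ⟨f, hf, hlc, hdeg⟩ := Nat.find_spec hex
      have hmin : ∀ g ∈ Q, g.natDegree < f.natDegree → g.leadingCoeff ∈ P := by
        intro g hg hlt
        by_contra hcon
        rw [hdeg] at hlt
        exact Nat.find_min hex hlt ⟨g, hg, hcon, rfl⟩
      set J : Ideal A[X] := Ideal.span {f} ⊔ P.map C with hJ
      have hJQ : J ≤ Q := sup_le (by rw [Ideal.span_le]; simpa using hf) hPQ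
      -- a uniform exponent
      obtain ⟨e, he⟩ : ∃ e : ℕ, ∀ x ∈ Q, C f.leadingCoeff ^ e * x ∈ J := by
        obtain ⟨s, hs⟩ := IsNoetherian.noetherian Q
        have h1 : ∀ x : A[X], ∃ e : ℕ, x ∈ Q → C f.leadingCoeff ^ e * x ∈ J := by
          intro x
          by_cases hx : x ∈ Q
          · obtain ⟨e, he⟩ := pseudo hPQ hf hmin (x.natDegree + 1) x (Nat.lt_succ_self _) hx
            exact ⟨e, fun _ => he⟩
          · exact ⟨0, fun h => absurd h hx⟩
        choose E hE using h1
        refine ⟨∑ x ∈ s, E x, fun x hx => ?_⟩
        rw [← hs] at hx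
        induction hx using Submodule.span_induction with
        | mem x hx =>
          have h2 : x ∈ Q := by
            rw [← hs]
            exact Submodule.subset_span hx
          obtain ⟨c, hc⟩ := Nat.exists_eq_add_of_le (Finset.single_le_sum
            (f := E) (fun _ _ => Nat.zero_le _) (Finset.mem_coe.1 hx))
          rw [hc, pow_add, mul_comm (C f.leadingCoeff ^ E x), mul_assoc]
          exact J.mul_mem_left _ (hE x h2)
        | zero => rw [mul_zero]; exact J.zero_mem
        | add a b _ _ ha hb => rw [mul_add]; exact J.add_mem ha hb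
        | smul r a _ ha =>
          rw [smul_eq_mul, mul_left_comm]
          exact J.mul_mem_left _ ha
      -- the kernel
      have hfac : g (A[X] ⧸ J) = g (Submodule.map J.mkQ Q) + g (A[X] ⧸ Q) := by
        rw [f_sub hg (adm_zero inferInstance) (Submodule.map J.mkQ Q)]
        congr 1
        exact f_iso hg (adm_zero inferInstance) (Submodule.quotientQuotientEquivQuotient J Q hJQ)
      have hker : g (Submodule.map J.mkQ Q) = 0 := by
        refine devissage hg (T := fun R => P < R.comap C) ?_ _ (adm_zero inferInstance) ?_
        · intro R hR hlt _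
          exact ih (R.comap C) hlt R hR rfl
        · intro R hR hle
          refine lt_of_le_of_ne ?_ ?_
          · intro a ha
            refine hle ?_
            rw [Module.mem_annihilator]
            rintro ⟨_, ⟨x, hx, rfl⟩⟩
            apply Subtype.ext
            change C a • J.mkQ x = 0
            rw [← map_smul, Submodule.mkQ_apply, Submodule.Quotient.mk_eq_zero, smul_eq_mul]
            exact J.mul_mem_right _ (Ideal.mem_sup_right (Ideal.mem_map_of_mem _ ha))
          · intro heq
            have h1 : C f.leadingCoeff ^ e ∈ R := by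
              refine hle ?_
              rw [Module.mem_annihilator]
              rintro ⟨_, ⟨x, hx, rfl⟩⟩
              apply Subtype.ext
              change C f.leadingCoeff ^ e • J.mkQ x = 0
              rw [← map_smul, Submodule.mkQ_apply, Submodule.Quotient.mk_eq_zero, smul_eq_mul]
              exact he x hx
            have h2 : f.leadingCoeff ∈ R.comap C := hR.mem_of_pow_mem e h1
            rw [← heq] at h2
            exact hlc h2
      have hE : g (A[X] ⧸ J) = 0 := by
        have hprime : (P.map (C : A →+* A[X])).IsPrime := Ideal.isPrime_map_C_of_isPrime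
        have hfP : f ∉ P.map (C : A →+* A[X]) := fun h => hlc (Ideal.mem_map_C_iff.1 h _)
        set L : Ideal A[X] := P.map C with hL
        -- the submodule generated by `f`
        have h1 := f_sub hg (M := A[X] ⧸ L) (adm_zero inferInstance) (Submodule.map L.mkQ J)
        have h2 : g ((A[X] ⧸ L) ⧸ Submodule.map L.mkQ J) = g (A[X] ⧸ J) :=
          f_iso hg (adm_zero inferInstance)
            (Submodule.quotientQuotientEquivQuotient L J le_sup_right)
        have h3 : g (A[X] ⧸ L) = g (Submodule.map L.mkQ J) := by
          set φ : (A[X] ⧸ L) →ₗ[A[X]] (A[X] ⧸ L) := LinearMap.lsmul A[X] (A[X] ⧸ L) f with hφ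
          have h4 : LinearMap.range φ = Submodule.map L.mkQ J := by
            ext y
            constructor
            · rintro ⟨x, rfl⟩
              obtain ⟨x, rfl⟩ := Submodule.mkQ_surjective _ x
              exact ⟨f * x, J.mul_mem_right _ (Ideal.mem_sup_left (Ideal.mem_span_singleton_self f)),
                rfl⟩
            · rintro ⟨x, hx, rfl⟩
              obtain ⟨a, ha, b, hb, rfl⟩ := Submodule.mem_sup.1 hx
              obtain ⟨c, rfl⟩ := Ideal.mem_span_singleton'.1 ha
              refine ⟨L.mkQ c, ?_⟩
              rw [map_add, (show L.mkQ b = 0 from (Submodule.Quotient.mk_eq_zero _).2 hb), add_zero,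
                mul_comm]
              rfl
          have h5 : Injective φ := by
            rw [← LinearMap.ker_eq_bot, LinearMap.ker_eq_bot']
            intro x hx
            obtain ⟨x, rfl⟩ := Submodule.mkQ_surjective _ x
            have h6 : f * x ∈ L := (Submodule.Quotient.mk_eq_zero _).1 hx
            exact (Submodule.Quotient.mk_eq_zero _).2 ((hprime.mem_or_mem h6).resolve_left hfP)
          rw [← h4]
          exact f_iso hg (adm_zero inferInstance) (LinearEquiv.ofInjective φ h5)
        rw [h2, h3] at h1
        linarith
      linarith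
  refine devissage hg (T := fun _ => True) (fun Q hQ _ _ => key _ Q hQ rfl) M (adm_zero hM)
    (fun _ _ _ => trivial)

end poly

end Pool.Agent.W5h77.KH
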