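import Pool.Agent.W5h77.KH.Susp

set_option autoImplicit false

/-!
# The forms `F + ∏ (z - c_j u)`
-/

namespace Pool.Agent.W5h77.KH

open Function Polynomial Cardinal

section maps

variable {k S : Type} [Field k] [CommRing S] [Algebra k S] {ι : Type} [Fintype ι] [DecidableEq ι]

/-- the constants of `S[v][u]` -/
noncomputable abbrev cst (a : k) : S[X][X] := C (C (algebraMap k S a))

/-- the linear form `z - a u`; the inner variable is `z` and the outer one is `u` -/
noncomputable def ell (a : k) : S[X][X] := C X - cst a * X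

/-- the form `F + ∏ (z - c_j u)` -/
noncomputable def sus (c : ι → k) (F : S) : S[X][X] := C (C F) + ∏ j, ell (c j)

/-- the homomorphism with `u ↦ z - c_l u` and `v ↦ - ∏_{j ≠ l} (z - c_j u)` -/
noncomputable def psc (c : ι → k) (l : ι) : S[X][X] →+* S[X][X] :=
  eval₂RingHom (eval₂RingHom ((C : S[X] →+* S[X][X]).comp C)
    (-∏ j ∈ Finset.univ.erase l, ell (c j))) (ell (c l))

/-- the homomorphism with `u ↦ X` and `z ↦ a X` -/
noncomputable def thc (a : k) : S[X][X] →+* S[X] :=
  eval₂RingHom (compRingHom (C (algebraMap k S a) * X)) X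

lemma psc_CC (c : ι → k) (l : ι) (s : S) : psc c l (C (C s)) = C (C s) := by
  simp [psc]

lemma psc_CX (c : ι → k) (l : ι) :
    psc (S := S) c l (C X) = -∏ j ∈ Finset.univ.erase l, ell (c j) := by
  simp [psc]

lemma psc_X (c : ι → k) (l : ι) : psc (S := S) c l X = ell (c l) := by
  simp [psc]

lemma thc_CC (a : k) (s : S) : thc a (C (C s)) = C s := by
  simp [thc]

lemma thc_CX (a : k) : thc a (C X : S[X][X]) = C (algebraMap k S a) * X := by
  simp [thc]

lemma thc_X (a : k) : thc a (X : S[X][X]) = X := by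
  simp [thc]

lemma thc_ell (a b : k) : thc a (ell b : S[X][X]) = C (algebraMap k S (a - b)) * X := by
  rw [ell, cst, map_sub, map_mul, thc_CX, thc_CC, thc_X, map_sub, C_sub]
  ring

lemma psc_eqn (c : ι → k) (l : ι) (F : S) : psc c l (eqn F) = sus c F := by
  have h := Finset.mul_prod_erase Finset.univ (fun j => (ell (c j) : S[X][X])) (Finset.mem_univ l)
  rw [eqn, sus, map_sub, map_mul, psc_CC, psc_CX, psc_X, ← h]
  ring

lemma thc_sus (c : ι → k) (j : ι) (F : S) : thc (c j) (sus c F) = C F := by
  rw [sus, map_add, map_prod, thc_CC, Finset.prod_eq_zero (Finset.mem_univ j), add_zero]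
  rw [thc_ell, sub_self, map_zero, C_0, zero_mul]

lemma thc_psc_X (c : ι → k) (l : ι) (a : k) :
    thc a (psc (S := S) c l X) = C (algebraMap k S (a - c l)) * X := by
  rw [psc_X, thc_ell]

lemma thc_psc_CX_ne (c : ι → k) {l j : ι} (h : j ≠ l) :
    thc (c j) (psc (S := S) c l (C X)) = 0 := by
  rw [psc_CX, map_neg, map_prod, Finset.prod_eq_zero (Finset.mem_erase.2 ⟨h, Finset.mem_univ j⟩),
    neg_zero]
  rw [thc_ell, sub_self, map_zero, C_0, zero_mul]

lemma thc_psc_CX_eq (c : ι → k) (l : ι) :
    thc (c l) (psc (S := S) c l (C X)) =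
      C (algebraMap k S (-∏ j ∈ Finset.univ.erase l, (c l - c j))) * X ^ (Fintype.card ι - 1) := by
  rw [psc_CX, map_neg, map_prod]
  have h1 : ∀ j ∈ Finset.univ.erase l, thc (c l) (ell (c j) : S[X][X]) =
      C (algebraMap k S (c l - c j)) * X := fun j _ => thc_ell _ _
  rw [Finset.prod_congr rfl h1, Finset.prod_mul_distrib, Finset.prod_const,
    Finset.card_erase_of_mem (Finset.mem_univ l), Finset.card_univ, map_neg, C_neg, map_prod,
    map_prod, neg_mul]

lemma thc_surj (a : k) : Surjective (thc a : S[X][X] →+* S[X]) := by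
  intro p
  induction p using Polynomial.induction_on' with
  | add p q hp hq =>
    obtain ⟨p, rfl⟩ := hp
    obtain ⟨q, rfl⟩ := hq
    exact ⟨p + q, map_add _ _ _⟩
  | monomial n s =>
    refine ⟨C (C s) * X ^ n, ?_⟩
    rw [map_mul, map_pow, thc_CC, thc_X, C_mul_X_pow_eq_monomial]

lemma psc_finite [Nontrivial S] {c : ι → k} (hc : Injective c) (hι : 2 ≤ Fintype.card ι) (l : ι) :
    (psc (S := S) c l).Finite := by
  refine finite_of_gen (psc c l) X ?_ ?_
  · set a : ι → k := fun j => (c l - c j)⁻¹ with ha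
    set δ : k := ∏ j ∈ Finset.univ.erase l, (c l - c j)⁻¹ with hδ
    set P : S[X][X][X] := ∏ j ∈ Finset.univ.erase l, (X + C (cst (a j) * X)) with hP
    have hne : ∀ j ∈ Finset.univ.erase l, c l - c j ≠ 0 := by
      intro j hj h
      exact (Finset.mem_erase.1 hj).1 (hc (sub_eq_zero.1 h)).symm
    have hPm : P.Monic := monic_prod_of_monic _ _ (fun j _ => monic_X_add_C _)
    refine ⟨P + C (cst δ * C X), ?_, ?_⟩
    · refine hPm.add_of_left ?_
      refine lt_of_le_of_lt degree_C_le ?_
      rw [hP, degree_prod_of_monic _ _ (fun j _ => monic_X_add_C _),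
        Finset.sum_congr rfl (fun j _ => degree_X_add_C _), Finset.sum_const,
        Finset.card_erase_of_mem (Finset.mem_univ l), Finset.card_univ, nsmul_one]
      have : 0 < Fintype.card ι - 1 := by omega
      exact_mod_cast this
    · rw [eval₂_add, hP, eval₂_finsetProd, eval₂_C, map_mul, psc_CX, psc_CC]
      have h1 : ∀ j ∈ Finset.univ.erase l, eval₂ (psc (S := S) c l) X (X + C (cst (a j) * X)) =
          cst (a j) * ell (c j) := by
        intro j hj
        rw [eval₂_add, eval₂_X, eval₂_C, map_mul, psc_CC, psc_X, ell, ell]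
        have h2 : (X : S[X][X]) = cst (a j) * (cst (c l - c j)) * X := by
          rw [← C_mul, ← C_mul, ← map_mul, ha, inv_mul_cancel₀ (hne j hj), map_one, C_1, C_1,
            one_mul]
        conv_lhs =>
          enter [1]
          rw [h2]
        simp only [cst, map_sub, C_sub]
        ring
      rw [Finset.prod_congr rfl h1, Finset.prod_mul_distrib, hδ]
      simp only [cst, map_prod]
      ring
  · intro T hT hX g
    have hCC : ∀ s : S, (C (C s) : S[X][X]) ∈ T := by
      intro s
      have h4 := hT (C (C s))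
      rwa [psc_CC] at h4
    have hCX : (C X : S[X][X]) ∈ T := by
      have h4 := hT X
      rw [psc_X, ell] at h4
      have h5 := add_mem h4 (mul_mem (hCC (algebraMap k S (c l))) hX)
      rwa [sub_add_cancel] at h5
    have hC : ∀ p : S[X], (C p : S[X][X]) ∈ T := by
      intro p
      induction p using Polynomial.induction_on' with
      | add p q hp hq => rw [C_add]; exact add_mem hp hq
      | monomial n s =>
        rw [← C_mul_X_pow_eq_monomial, C_mul, C_pow]
        exact mul_mem (hCC s) (pow_mem hCX n)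
    induction g using Polynomial.induction_on' with
    | add p q hp hq => exact add_mem hp hq
    | monomial n p =>
      rw [← C_mul_X_pow_eq_monomial]
      exact mul_mem (hC p) (pow_mem hX n)

lemma sus_ne_zero [IsDomain S] {c : ι → k} (j : ι) {F : S} (hF : F ≠ 0) : sus c F ≠ 0 := by
  intro h
  have h1 := thc_sus c j F
  rw [h, map_zero] at h1
  exact hF (C_injective (by rw [← h1, C_0]))

end maps

section T

variable {k S : Type} [Field k] [CommRing S] [Algebra k S]

lemma dimLe_Tc (a : k) {M : Type} [AddCommGroup M] [Module S M] {n : ℕ}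
    (h : DimLe k (A := S) M n) :
    @DimLe k S[X][X] _ _ _ (PolynomialModule S M) _
      (Module.compHom (PolynomialModule S M) (thc (S := S) a)) (n + 1) := by
  intro P hP hle
  have hmem : ∀ b : S[X][X], (∀ x : PolynomialModule S M, thc a b • x = 0) → b ∈ P := by
    intro b hb
    refine hle ?_
    rw [mem_ann_res, Module.mem_annihilator]
    exact hb
  have hC : ∀ c : k, ((C : S[X] →+* S[X][X]).comp (C : S →+* S[X])) (algebraMap k S c) =
      algebraMap k S[X][X] c := fun c => rfl
  set φ : S →ₐ[k] S[X][X] := ⟨(C : S[X] →+* S[X][X]).comp (C : S →+* S[X]), hC⟩ with hφ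
  set p : Ideal S := P.comap φ with hp
  have hpp : p.IsPrime := Ideal.comap_isPrime φ P
  have hann : Module.annihilator S M ≤ p := by
    intro s hs
    refine hmem _ fun x => ?_
    change thc a (C (C s)) • x = 0
    rw [thc_CC, ← algebraMap_eq, algebraMap_smul]
    refine ext_coeff fun n => ?_
    exact Module.mem_annihilator.1 hs (x.coeff n)
  have hd := h p hpp hann
  have hXX : (C X - cst a * X : S[X][X]) ∈ P := by
    refine hmem _ fun x => ?_
    rw [map_sub, map_mul, thc_CX, thc_X, thc_CC, sub_self, zero_smul]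
  set π : (S ⧸ p) →ₐ[k] (S[X][X] ⧸ P) := Ideal.quotientMapₐ P φ le_rfl with hπ
  have hσc : ∀ c : k, eval₂RingHom (π : (S ⧸ p) →+* (S[X][X] ⧸ P)) (Ideal.Quotient.mk P X)
      (algebraMap k (S ⧸ p)[X] c) = algebraMap k (S[X][X] ⧸ P) c := by
    intro c
    rw [IsScalarTower.algebraMap_apply k (S ⧸ p) (S ⧸ p)[X], algebraMap_eq, coe_eval₂RingHom,
      eval₂_C]
    exact π.commutes c
  set σ : (S ⧸ p)[X] →ₐ[k] (S[X][X] ⧸ P) :=
    ⟨eval₂RingHom (π : (S ⧸ p) →+* (S[X][X] ⧸ P)) (Ideal.Quotient.mk P X), hσc⟩ with hσ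
  have h1 : ∀ s : S, σ (C (Ideal.Quotient.mk p s)) = Ideal.Quotient.mk P (C (C s)) := by
    intro s
    change eval₂RingHom (π : (S ⧸ p) →+* (S[X][X] ⧸ P)) (Ideal.Quotient.mk P X) _ = _
    rw [coe_eval₂RingHom, eval₂_C]
    rfl
  have h2 : σ X = Ideal.Quotient.mk P X := by
    change eval₂RingHom (π : (S ⧸ p) →+* (S[X][X] ⧸ P)) (Ideal.Quotient.mk P X) _ = _
    rw [coe_eval₂RingHom, eval₂_X]
  have h3 : Ideal.Quotient.mk P (C X) = σ (C (Ideal.Quotient.mk p (algebraMap k S a)) * X) := by
    rw [map_mul, h1, h2, ← map_mul, Ideal.Quotient.eq]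
    exact hXX
  have hC' : ∀ q : S[X], Ideal.Quotient.mk P (C q) ∈ σ.range := by
    intro q
    induction q using Polynomial.induction_on' with
    | add a b ha hb => rw [C_add, map_add]; exact add_mem ha hb
    | monomial n s =>
      rw [← C_mul_X_pow_eq_monomial, C_mul, C_pow, map_mul, map_pow, ← h1, h3]
      exact mul_mem (AlgHom.mem_range_self σ _) (pow_mem (AlgHom.mem_range_self σ _) n)
  have hsurj : Surjective σ := by
    intro g
    obtain ⟨g, rfl⟩ := Ideal.Quotient.mk_surjective g
    change Ideal.Quotient.mk P g ∈ σ.range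
    induction g using Polynomial.induction_on' with
    | add a b ha hb => rw [map_add]; exact add_mem ha hb
    | monomial n q =>
      rw [← C_mul_X_pow_eq_monomial, map_mul, map_pow, ← h2]
      exact mul_mem (hC' q) (pow_mem (AlgHom.mem_range_self σ _) n)
  refine (trdeg_le_of_surjective σ hsurj).trans ?_
  rw [trdeg_poly]
  push_cast
  exact add_le_add_left hd 1

end T

end Pool.Agent.W5h77.KH
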