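import Pool.Agent.W5h77.KH.Lat

set_option autoImplicit false

/-!
# The additive function of modules over `S[v][u] / (F - u v)`
-/

namespace Pool.Agent.W5h77.KH

open Function Polynomial

section triple

variable {R : Type} [CommRing R] [IsNoetherianRing R] {N₁ N₂ N₃ : Type} [AddCommGroup N₁]
  [AddCommGroup N₂] [AddCommGroup N₃] [Module R N₁] [Module R N₂] [Module R N₃]
  {u₁ : N₁ →ₗ[R] N₁} {u₂ : N₂ →ₗ[R] N₂} {u₃ : N₃ →ₗ[R] N₃}

omit [IsNoetherianRing R] in
lemma map_sq (p : N₂ →ₗ[R] N₃) (cp : ∀ x, p (u₂ x) = u₃ (p x)) (Q : Submodule R N₂) (j : ℕ) :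
    (sq u₂ Q j).map p = sq u₃ (Q.map p) j := by
  induction j with
  | zero => rfl
  | succ j ih =>
    change (Q ⊔ (sq u₂ Q j).map u₂).map p = Q.map p ⊔ (sq u₃ (Q.map p) j).map u₃
    rw [← ih, Submodule.map_sup, ← Submodule.map_comp, ← Submodule.map_comp]
    congr 2
    ext x
    exact cp x

lemma good_triple (i : N₁ →ₗ[R] N₂) (p : N₂ →ₗ[R] N₃) (hi : Injective i) (hp : Surjective p)
    (ci : ∀ x, i (u₁ x) = u₂ (i x)) (cp : ∀ x, p (u₂ x) = u₃ (p x)) (h1 : FinU u₁) (h2 : FinU u₂)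
    (h3 : FinU u₃) : ∃ Q : Submodule R N₂, Good u₂ Q ∧ Good u₁ (Q.comap i) ∧ Good u₃ (Q.map p) ∧
      (Q.map p).comap u₃ = (Q.comap u₂).map p := by
  obtain ⟨Q, hQ⟩ := exists_good h2
  have hL3 : Gens u₃ (Q.map p) := by
    intro n
    obtain ⟨n, rfl⟩ := hp n
    obtain ⟨j, hj⟩ := hQ.gens n
    refine ⟨j, ?_⟩
    rw [← map_sq p cp]
    exact ⟨n, hj, rfl⟩
  obtain ⟨j3, hj3⟩ := good_large h3 (hQ.fg.map p) hL3
  obtain ⟨L, hL, hLg⟩ := h1.exists_gens
  obtain ⟨j1, hj1⟩ := hQ.gens.le (hL.map i)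
  set j := max j1 j3 with hj
  have h4 : L ≤ (sq u₂ Q (j + 1)).comap i := by
    rw [← Submodule.map_le_iff_le_comap]
    exact hj1.trans (sq_mono u₂ Q (le_trans (le_max_left _ _) (Nat.le_succ _)))
  obtain ⟨h5, h6⟩ := hj3 j (le_max_right _ _)
  refine ⟨sq u₂ Q (j + 1), hQ.sq _, ⟨?_, ?_, hLg.mono h4⟩, ?_, ?_⟩
  · exact Submodule.fg_of_fg_map_injective i hi
      ((hQ.sq (j + 1)).fg.of_le (Submodule.map_comap_le i _))
  · intro x hx
    have h7 : u₂ (i x) ∈ sq u₂ Q (j + 1) := by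
      rw [← ci]
      exact hx
    exact (hQ.sq (j + 1)).le h7
  · rw [map_sq p cp]
    exact h5
  · rw [map_sq p cp, h6, hQ.comap, map_sq p cp]

end triple

section chi

variable {S : Type} [CommRing S] [IsNoetherianRing S] {N₁ N₂ N₃ : Type} [AddCommGroup N₁]
  [AddCommGroup N₂] [AddCommGroup N₃] [Module S[X] N₁] [Module S[X] N₂] [Module S[X] N₃]
  [Module S N₁] [Module S N₂] [Module S N₃] [IsScalarTower S S[X] N₁] [IsScalarTower S S[X] N₂]
  [IsScalarTower S S[X] N₃] {F : S} {f : AddFun S}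
  {u₁ : N₁ →ₗ[S[X]] N₁} {u₂ : N₂ →ₗ[S[X]] N₂} {u₃ : N₃ →ₗ[S[X]] N₃}

lemma chi_triple (hf : IsAdditive F f) (r₁ : Rel F u₁) (r₂ : Rel F u₂) (r₃ : Rel F u₃)
    (i : N₁ →ₗ[S[X]] N₂) (p : N₂ →ₗ[S[X]] N₃) (hi : Injective i) (hip : Exact i p)
    (ci : ∀ x, i (u₁ x) = u₂ (i x)) (cp : ∀ x, p (u₂ x) = u₃ (p x)) {Q : Submodule S[X] N₂}
    (g₂ : Good u₂ Q) (g₁ : Good u₁ (Q.comap i)) (g₃ : Good u₃ (Q.map p))
    (hc : (Q.map p).comap u₃ = (Q.comap u₂).map p) :
    chi f (vmap r₂ Q) = chi f (vmap r₁ (Q.comap i)) + chi f (vmap r₃ (Q.map p)) := by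
  have m1 : ∀ x ∈ (Q.comap i).comap u₁, i x ∈ Q.comap u₂ := fun x hx => by
    rw [Submodule.mem_comap, ← ci]
    exact hx
  have m2 : ∀ x ∈ Q.comap u₂, p x ∈ (Q.map p).comap u₃ := fun x hx => by
    rw [Submodule.mem_comap, ← cp]
    exact ⟨u₂ x, hx, rfl⟩
  set i₀ : (Q.comap i) →ₗ[S] Q := (i.restrict (p := Q.comap i) (q := Q)
    (fun x hx => hx)).restrictScalars S with hi₀
  set p₀ : Q →ₗ[S] (Q.map p) := (p.restrict (p := Q) (q := Q.map p)
    (fun x hx => ⟨x, hx, rfl⟩)).restrictScalars S with hp₀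
  set j₀ : ((Q.comap i).comap u₁) →ₗ[S] (Q.comap u₂) := (i.restrict m1).restrictScalars S with hj₀
  set q₀ : (Q.comap u₂) →ₗ[S] ((Q.map p).comap u₃) := (p.restrict m2).restrictScalars S with hq₀
  refine chi_add hf _ _ _ i₀ p₀ j₀ q₀ ?_ ?_ ?_ ?_ ?_ ?_ ?_ ?_ (fred_vmap r₁ g₁) (fred_vmap r₂ g₂)
    (fred_vmap r₃ g₃)
  · apply LinearMap.ext
    intro x
    apply Subtype.ext
    exact i.map_smul (X : S[X]) x.1
  · apply LinearMap.ext
    intro x
    apply Subtype.ext
    exact p.map_smul (X : S[X]) x.1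
  · intro x y hxy
    exact Subtype.ext (hi (congrArg Subtype.val hxy))
  · rintro ⟨_, x, hx, rfl⟩
    exact ⟨⟨x, hx⟩, rfl⟩
  · intro x
    constructor
    · intro hx
      obtain ⟨y, hy⟩ := (hip x.1).1 (congrArg Subtype.val hx)
      refine ⟨⟨y, ?_⟩, Subtype.ext hy⟩
      rw [Submodule.mem_comap, hy]
      exact x.2
    · rintro ⟨y, rfl⟩
      exact Subtype.ext ((hip (i y.1)).2 ⟨y.1, rfl⟩)
  · intro x y hxy
    exact Subtype.ext (hi (congrArg Subtype.val hxy))
  · rintro ⟨y, hy⟩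
    rw [hc] at hy
    obtain ⟨x, hx, rfl⟩ := hy
    exact ⟨⟨x, hx⟩, rfl⟩
  · intro x
    constructor
    · intro hx
      obtain ⟨y, hy⟩ := (hip x.1).1 (congrArg Subtype.val hx)
      refine ⟨⟨y, ?_⟩, Subtype.ext hy⟩
      rw [Submodule.mem_comap, Submodule.mem_comap, ci, hy]
      exact x.2
    · rintro ⟨y, rfl⟩
      exact Subtype.ext ((hip (i y.1)).2 ⟨y.1, rfl⟩)

end chi

section lam

variable {S : Type} [CommRing S]

open Classical in
/-- the value on `(N, u)` -/
noncomputable def lamU {N : Type} [AddCommGroup N] [Module S[X] N] [Module S N]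
    [IsScalarTower S S[X] N] (F : S) (f : AddFun S) (u : N →ₗ[S[X]] N) : ℚ :=
  if h : Rel F u ∧ ∃ Q, Good u Q then chi f (vmap h.1 h.2.choose) else 0

lemma lamU_eq [IsNoetherianRing S] [IsDomain S] (hS : Gen S) {F : S} (hF : F ≠ 0) {f : AddFun S}
    (hf : IsAdditive F f) (h0 : f (S ⧸ Ideal.span {F}) = 0) {N : Type} [AddCommGroup N]
    [Module S[X] N] [Module S N] [IsScalarTower S S[X] N] {u : N →ₗ[S[X]] N} (r : Rel F u)
    {Q : Submodule S[X] N} (hQ : Good u Q) : lamU F f u = chi f (vmap r Q) := by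
  have h : Rel F u ∧ ∃ Q, Good u Q := ⟨r, Q, hQ⟩
  rw [lamU, dif_pos h]
  exact chi_eq hS hF hf h0 r h.2.choose_spec hQ

section mods

variable (N : Type) [AddCommGroup N] [Module S[X][X] N]

/-- multiplication by the outer variable -/
noncomputable def uX [Module S[X] N] [IsScalarTower S[X] S[X][X] N] : N →ₗ[S[X]] N :=
  (LinearMap.lsmul S[X][X] N X).restrictScalars S[X]

/-- the module over the polynomials in the inner variable -/
noncomputable abbrev modX : Module S[X] N := Module.compHom N (C : S[X] →+* S[X][X])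

/-- the module over the constants -/
noncomputable abbrev modS : Module S N :=
  Module.compHom N ((C : S[X] →+* S[X][X]).comp (C : S →+* S[X]))

lemma towX : @IsScalarTower S[X] S[X][X] N _ _ (modX N).toSMul :=
  let := modX (S := S) N
  ⟨fun a b m => by
    change (a • b) • m = (C a : S[X][X]) • (b • m)
    rw [← mul_smul, Polynomial.smul_eq_C_mul]⟩

lemma towS : @IsScalarTower S S[X] N _ (modX N).toSMul (modS N).toSMul :=
  let := modX (S := S) N
  let := modS (S := S) N
  ⟨fun a b m => by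
    change (C (a • b) : S[X][X]) • m = (C (C a) : S[X][X]) • (C b : S[X][X]) • m
    rw [← mul_smul, Polynomial.smul_eq_C_mul, C_mul]⟩

end mods

/-- the additive function on the modules over `S[v][u]` -/
noncomputable def lam (F : S) (f : AddFun S) : AddFun S[X][X] := fun N _ _ =>
  let := modX (S := S) N
  let := modS (S := S) N
  have := towX (S := S) N
  have := towS (S := S) N
  lamU F f (uX N)

/-- the equation `F = u v` -/
noncomputable abbrev eqn (F : S) : S[X][X] := C (C F) - X * C X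

lemma rel_uX {N : Type} [AddCommGroup N] [Module S[X][X] N] [Module S[X] N] [Module S N]
    [IsScalarTower S[X] S[X][X] N] [IsScalarTower S S[X] N] {F : S}
    (h : ∀ n : N, eqn F • n = 0) : Rel F (uX N) := by
  intro n
  have h1 := h n
  rw [sub_smul, sub_eq_zero] at h1
  change (X : S[X]) • (X : S[X][X]) • n = F • n
  rw [← algebraMap_smul S[X][X] (X : S[X]), smul_smul, mul_comm, ← algebraMap_smul S[X] F,
    ← algebraMap_smul S[X][X] (algebraMap S S[X] F)]
  exact h1.symm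

theorem lam_eq [IsNoetherianRing S] [IsDomain S] (hS : Gen S) {F : S} (hF : F ≠ 0) {f : AddFun S}
    (hf : IsAdditive F f) (h0 : f (S ⧸ Ideal.span {F}) = 0) {N : Type} [AddCommGroup N]
    [Module S[X][X] N] [i1 : Module S[X] N] [i2 : Module S N] [IsScalarTower S[X] S[X][X] N]
    [IsScalarTower S S[X] N] (h : ∀ n : N, eqn F • n = 0) {Q : Submodule S[X] N}
    (hQ : Good (uX N) Q) : lam F f N = chi f (vmap (rel_uX h) Q) := by
  obtain rfl : i2 = modS N := Module.ext' _ _ (fun r n => by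
    change r • n = (C (C r) : S[X][X]) • n
    rw [← algebraMap_smul S[X] r n, ← algebraMap_smul S[X][X] (algebraMap S S[X] r) n]
    rfl)
  obtain rfl : i1 = modX N := Module.ext' _ _ (fun r n => by
    change r • n = (C r : S[X][X]) • n
    rw [← algebraMap_smul S[X][X] r n]
    rfl)
  let := modX (S := S) N
  let := modS (S := S) N
  exact lamU_eq hS hF hf h0 (rel_uX h) hQ

lemma finU_uX [IsNoetherianRing S] {N : Type} [AddCommGroup N] [Module S[X][X] N] [Module S[X] N]
    [IsScalarTower S[X] S[X][X] N] (h : Module.Finite S[X][X] N) : FinU (uX (S := S) N) := by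
  constructor
  · obtain ⟨s, hs⟩ := h.fg_top
    refine ⟨Submodule.span S[X] (s : Set N), ⟨s, rfl⟩, fun n => ?_⟩
    set L := Submodule.span S[X] (s : Set N) with hL
    have hX : ∀ n j, n ∈ sq (uX N) L j → ∀ p : S[X][X], ∃ i, p • n ∈ sq (uX N) L i := by
      intro n j hn p
      induction p using Polynomial.induction_on' with
      | add p q hp hq =>
        obtain ⟨a, ha⟩ := hp
        obtain ⟨b, hb⟩ := hq
        refine ⟨max a b, ?_⟩
        rw [add_smul]
        exact add_mem (sq_mono _ L (le_max_left _ _) ha) (sq_mono _ L (le_max_right _ _) hb)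
      | monomial m r =>
        have h1 : ∀ m : ℕ, (X ^ m : S[X][X]) • n ∈ sq (uX N) L (j + m) := by
          intro m
          induction m with
          | zero => rw [pow_zero, one_smul]; exact hn
          | succ m ih =>
            rw [pow_succ', mul_smul]
            exact Submodule.mem_sup_right ⟨_, ih, rfl⟩
        refine ⟨j + m, ?_⟩
        rw [← C_mul_X_pow_eq_monomial, mul_smul]
        have h2 := Submodule.smul_mem _ r (h1 m)
        rw [← algebraMap_smul S[X][X] r] at h2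
        exact h2
    have hn : n ∈ Submodule.span S[X][X] (s : Set N) := by
      rw [hs]
      trivial
    induction hn using Submodule.span_induction with
    | mem x hx => exact ⟨0, Submodule.subset_span hx⟩
    | zero => exact ⟨0, zero_mem _⟩
    | add a b _ _ ha hb =>
      obtain ⟨i, hi⟩ := ha
      obtain ⟨j, hj⟩ := hb
      exact ⟨max i j, add_mem (sq_mono _ L (le_max_left _ _) hi)
        (sq_mono _ L (le_max_right _ _) hj)⟩
    | smul p a _ ha =>
      obtain ⟨j, hj⟩ := ha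
      exact hX a j hj p
  · set D : Submodule S[X][X] N := LinearMap.ker (LinearMap.lsmul S[X][X] N X) with hD
    have h1 : Module.Finite S[X][X] D := Module.Finite.of_injective D.subtype D.injective_subtype
    have h2 : Module.Finite S[X] D := by
      refine fin_of_X (S := S[X]) D h1 ?_
      rintro ⟨x, hx⟩
      apply Subtype.ext
      exact hx
    have h3 : Module.Finite S[X] (D.restrictScalars S[X]) := h2
    exact Module.Finite.iff_fg.1 h3

theorem lam_additive [IsNoetherianRing S] [IsDomain S] (hS : Gen S) {F : S} (hF : F ≠ 0)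
    {f : AddFun S} (hf : IsAdditive F f) (h0 : f (S ⧸ Ideal.span {F}) = 0) :
    IsAdditive (eqn F) (lam F f) := by
  intro N₁ N₂ N₃ _ _ _ _ _ _ i p hN hi hp hip
  have a₁ : Adm (eqn F) N₁ := hN.sub i hi
  have a₃ : Adm (eqn F) N₃ := hN.quot p hp
  let := modX (S := S) N₁
  let := modX (S := S) N₂
  let := modX (S := S) N₃
  let := modS (S := S) N₁
  let := modS (S := S) N₂
  let := modS (S := S) N₃
  have := towX (S := S) N₁
  have := towX (S := S) N₂
  have := towX (S := S) N₃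
  have := towS (S := S) N₁
  have := towS (S := S) N₂
  have := towS (S := S) N₃
  have ci : ∀ x, (i.restrictScalars S[X]) (uX N₁ x) = uX N₂ ((i.restrictScalars S[X]) x) :=
    fun x => i.map_smul (X : S[X][X]) x
  have cp : ∀ x, (p.restrictScalars S[X]) (uX N₂ x) = uX N₃ ((p.restrictScalars S[X]) x) :=
    fun x => p.map_smul (X : S[X][X]) x
  obtain ⟨Q, g₂, g₁, g₃, hc⟩ := good_triple (i.restrictScalars S[X]) (p.restrictScalars S[X]) hi hp
    ci cp (finU_uX a₁.1) (finU_uX hN.1) (finU_uX a₃.1)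
  rw [lam_eq hS hF hf h0 hN.2 g₂, lam_eq hS hF hf h0 a₁.2 g₁, lam_eq hS hF hf h0 a₃.2 g₃]
  exact chi_triple hf _ _ _ _ _ hi hip ci cp g₂ g₁ g₃ hc

end lam

end Pool.Agent.W5h77.KH
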