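import Pool.Agent.W5h77.KH.Res

set_option autoImplicit false

/-!
# Lattices
-/

namespace Pool.Agent.W5h77.KH

open Function Polynomial

section seq

variable {R N : Type} [CommRing R] [AddCommGroup N] [Module R N] (u : N →ₗ[R] N)

/-- `Q + u Q + ... + u ^ j Q` -/
def sq (Q : Submodule R N) : ℕ → Submodule R N
  | 0 => Q
  | j + 1 => Q ⊔ (sq Q j).map u

lemma sq_succ_mono (Q : Submodule R N) (j : ℕ) : sq u Q j ≤ sq u Q (j + 1) := by
  induction j with
  | zero => exact le_sup_left
  | succ j ih => exact sup_le_sup_left (Submodule.map_mono ih) _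

lemma sq_mono (Q : Submodule R N) : Monotone (sq u Q) := monotone_nat_of_le_succ (sq_succ_mono u Q)

lemma sq_mono' {Q Q' : Submodule R N} (h : Q ≤ Q') (j : ℕ) : sq u Q j ≤ sq u Q' j := by
  induction j with
  | zero => exact h
  | succ j ih => exact sup_le_sup h (Submodule.map_mono ih)

lemma sq_fg {Q : Submodule R N} (h : Q.FG) (j : ℕ) : (sq u Q j).FG := by
  induction j with
  | zero => exact h
  | succ j ih => exact h.sup (ih.map u)

/-- `Q` generates `N` under `u` -/
def Gens (Q : Submodule R N) : Prop := ∀ n, ∃ j, n ∈ sq u Q j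

variable {u}

lemma Gens.mono {Q Q' : Submodule R N} (h : Gens u Q) (hle : Q ≤ Q') : Gens u Q' := fun n => by
  obtain ⟨j, hj⟩ := h n
  exact ⟨j, sq_mono' u hle j hj⟩

lemma Gens.le {Q L : Submodule R N} (h : Gens u Q) (hL : L.FG) : ∃ j, L ≤ sq u Q j := by
  obtain ⟨s, hs⟩ := hL
  choose E hE using h
  refine ⟨s.sup E, ?_⟩
  rw [← hs, Submodule.span_le]
  intro x hx
  exact sq_mono u Q (Finset.le_sup hx) (hE x)

lemma comap_sq {L : Submodule R N} {j0 : ℕ} (h : L.comap u ≤ sq u L j0) {j : ℕ} (hj : j0 ≤ j) :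
    (sq u L (j + 1)).comap u = sq u L j := by
  apply le_antisymm
  · intro n hn
    obtain ⟨l, hl, y, hy, hly⟩ := Submodule.mem_sup.1 (Submodule.mem_comap.1 hn)
    obtain ⟨y, hy, rfl⟩ := hy
    have h1 : n - y ∈ L.comap u := by
      rw [Submodule.mem_comap, map_sub, ← hly, add_sub_cancel_right]
      exact hl
    have h2 := add_mem (sq_mono u L hj (h h1)) hy
    rwa [sub_add_cancel] at h2
  · intro n hn
    exact Submodule.mem_sup_right ⟨n, hn, rfl⟩

lemma comap_fg [IsNoetherianRing R] (hk : (LinearMap.ker u).FG) {L : Submodule R N} (hL : L.FG) :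
    (L.comap u).FG := by
  apply Submodule.fg_of_fg_map_of_fg_inf_ker u
  · exact hL.of_le (Submodule.map_comap_le u L)
  · exact hk.of_le inf_le_right

/-- good lattices -/
structure Good (u : N →ₗ[R] N) (Q : Submodule R N) : Prop where
  fg : Q.FG
  le : Q.comap u ≤ Q
  gens : Gens u Q

/-- finite generation -/
structure FinU (u : N →ₗ[R] N) : Prop where
  exists_gens : ∃ L : Submodule R N, L.FG ∧ Gens u L
  ker_fg : (LinearMap.ker u).FG

lemma good_large [IsNoetherianRing R] (h : FinU u) {L : Submodule R N} (hL : L.FG)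
    (hg : Gens u L) : ∃ j0, ∀ j, j0 ≤ j → Good u (sq u L (j + 1)) ∧
      (sq u L (j + 1)).comap u = sq u L j := by
  obtain ⟨j0, hj0⟩ := hg.le (comap_fg h.ker_fg hL)
  refine ⟨j0, fun j hj => ?_⟩
  have h1 := comap_sq hj0 hj
  exact ⟨⟨sq_fg u hL _, by rw [h1]; exact sq_succ_mono u L j, hg.mono (sq_mono u L (Nat.zero_le _))⟩,
    h1⟩

lemma exists_good [IsNoetherianRing R] (h : FinU u) : ∃ Q, Good u Q := by
  obtain ⟨L, hL, hg⟩ := h.exists_gens
  obtain ⟨j0, hj0⟩ := good_large h hL hg
  exact ⟨_, (hj0 j0 le_rfl).1⟩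

lemma Good.comap {Q : Submodule R N} (h : Good u Q) (j : ℕ) :
    (sq u Q (j + 1)).comap u = sq u Q j := comap_sq (j0 := 0) h.le (Nat.zero_le _)

lemma Good.sq {Q : Submodule R N} (h : Good u Q) (j : ℕ) : Good u (sq u Q j) := by
  cases j with
  | zero => exact h
  | succ j =>
    exact ⟨sq_fg u h.fg _, by rw [h.comap]; exact sq_succ_mono u Q j,
      h.gens.mono (sq_mono u Q (Nat.zero_le _))⟩

end seq

section fin

variable {S : Type} [CommRing S] [IsNoetherianRing S]

omit [IsNoetherianRing S] in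
lemma fin_of_X (D : Type) [AddCommGroup D] [Module S[X] D] [Module S D] [IsScalarTower S S[X] D]
    (hD : Module.Finite S[X] D) (h : ∀ d : D, (X : S[X]) • d = 0) : Module.Finite S D := by
  obtain ⟨s, hs⟩ := hD.fg_top
  refine ⟨⟨s, ?_⟩⟩
  rw [eq_top_iff]
  intro x _
  have hx : x ∈ Submodule.span S[X] (s : Set D) := by
    rw [hs]
    trivial
  induction hx using Submodule.span_induction with
  | mem x hx => exact Submodule.subset_span hx
  | zero => exact zero_mem _
  | add a b _ _ ha hb => exact add_mem (ha trivial) (hb trivial)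
  | smul p a _ ha =>
    have h1 : p • a = p.coeff 0 • a := by
      conv_lhs => rw [← divX_mul_X_add p]
      rw [add_smul, mul_smul, h, smul_zero, zero_add, ← algebraMap_smul S[X] (p.coeff 0) a]
      rfl
    rw [h1]
    exact Submodule.smul_mem _ _ (ha trivial)

lemma fin_of_X_pow (j : ℕ) : ∀ (D : Type) [AddCommGroup D] [Module S[X] D] [Module S D]
    [IsScalarTower S S[X] D], Module.Finite S[X] D → (∀ d : D, (X ^ j : S[X]) • d = 0) →
      Module.Finite S D := by
  induction j with
  | zero =>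
    intro D _ _ _ _ hD h
    have h1 : Subsingleton D := ⟨fun a b => by
      have h2 := h a
      have h3 := h b
      rw [pow_zero, one_smul] at h2 h3
      rw [h2, h3]⟩
    infer_instance
  | succ j ih =>
    intro D _ _ _ _ hD h
    set K : Submodule S[X] D := LinearMap.range (LinearMap.lsmul S[X] D X) with hK
    have h1 : Module.Finite S K := by
      refine ih K (Module.Finite.of_injective K.subtype K.injective_subtype) ?_
      rintro ⟨_, x, rfl⟩
      apply Subtype.ext
      change (X ^ j : S[X]) • (X : S[X]) • x = 0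
      rw [smul_smul, ← pow_succ, h]
    have h2 : Module.Finite S (D ⧸ K) := by
      refine fin_of_X (D ⧸ K) (Module.Finite.of_surjective K.mkQ K.mkQ_surjective) ?_
      intro d
      obtain ⟨d, rfl⟩ := Submodule.mkQ_surjective _ d
      rw [← map_smul]
      exact (Submodule.Quotient.mk_eq_zero _).2 ⟨d, rfl⟩
    have h3 : Module.Finite S (K.restrictScalars S) := h1
    have h4 : Module.Finite S (D ⧸ K.restrictScalars S) := h2
    exact Module.Finite.of_submodule_quotient (K.restrictScalars S)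

end fin

section chi

variable {S : Type} [CommRing S] {N : Type} [AddCommGroup N] [Module S[X] N] [Module S N]
  [IsScalarTower S S[X] N] {F : S} {u : N →ₗ[S[X]] N}

/-- the relation `X u = F` -/
def Rel (F : S) (u : N →ₗ[S[X]] N) : Prop := ∀ n, (X : S[X]) • u n = F • n

/-- multiplication by `X` from `Q` to `u⁻¹ Q` -/
noncomputable def vmap (h : Rel F u) (Q : Submodule S[X] N) : Q →ₗ[S] (Q.comap u) where
  toFun x := ⟨(X : S[X]) • x.1, by
    rw [Submodule.mem_comap, map_smul, h]
    exact Submodule.smul_of_tower_mem Q F x.2⟩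
  map_add' x y := Subtype.ext (smul_add _ _ _)
  map_smul' s x := Subtype.ext (by
    change (X : S[X]) • s • x.1 = s • (X : S[X]) • x.1
    rw [← algebraMap_smul S[X] s x.1, ← algebraMap_smul S[X] s ((X : S[X]) • x.1), smul_smul,
      smul_smul, mul_comm])

lemma vmap_coe (h : Rel F u) (Q : Submodule S[X] N) (x : Q) :
    (vmap h Q x : N) = (X : S[X]) • (x : N) := rfl

/-- the same over `S[X]` -/
noncomputable def vmapX (h : Rel F u) (Q : Submodule S[X] N) : Q →ₗ[S[X]] (Q.comap u) where
  toFun x := vmap h Q x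
  map_add' x y := Subtype.ext (smul_add _ _ _)
  map_smul' s x := Subtype.ext (by
    change (X : S[X]) • s • x.1 = s • (X : S[X]) • x.1
    rw [smul_smul, smul_smul, mul_comm])

lemma fred_vmap [IsNoetherianRing S] (h : Rel F u) {Q : Submodule S[X] N} (hQ : Good u Q) :
    Fred F (vmap h Q) := by
  have hfQ : Module.Finite S[X] Q := Module.Finite.iff_fg.2 hQ.fg
  have hfP : Module.Finite S[X] (Q.comap u) := Module.Finite.iff_fg.2 (hQ.fg.of_le hQ.le)
  refine ⟨⟨?_, ?_⟩, ⟨?_, ?_⟩⟩
  · have h1 : Module.Finite S (LinearMap.ker (vmapX h Q)) := by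
      have h2 : Module.Finite S[X] (LinearMap.ker (vmapX h Q)) :=
        Module.Finite.of_injective (LinearMap.ker (vmapX h Q)).subtype
          (LinearMap.ker (vmapX h Q)).injective_subtype
      refine fin_of_X (S := S) (LinearMap.ker (vmapX h Q)) h2 ?_
      rintro ⟨x, hx⟩
      apply Subtype.ext
      apply Subtype.ext
      have h3 : (X : S[X]) • x.1 = 0 := congrArg Subtype.val (LinearMap.mem_ker.1 hx)
      exact h3
    exact h1
  · rintro ⟨x, hx⟩
    apply Subtype.ext
    apply Subtype.ext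
    change F • x.1 = 0
    have h1 : (X : S[X]) • x.1 = 0 := congrArg Subtype.val hx
    rw [← h, ← map_smul, h1, map_zero]
  · have h1 : Module.Finite S (Q.comap u ⧸ LinearMap.range (vmapX h Q)) := by
      refine fin_of_X (S := S) (Q.comap u ⧸ LinearMap.range (vmapX h Q))
        (Module.Finite.of_surjective (LinearMap.range (vmapX h Q)).mkQ
        (LinearMap.range (vmapX h Q)).mkQ_surjective) ?_
      intro d
      obtain ⟨d, rfl⟩ := Submodule.mkQ_surjective _ d
      rw [← map_smul]
      exact (Submodule.Quotient.mk_eq_zero _).2 ⟨⟨d.1, hQ.le d.2⟩, rfl⟩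
    exact h1
  · intro d
    obtain ⟨d, rfl⟩ := Submodule.mkQ_surjective _ d
    rw [← map_smul]
    exact (Submodule.Quotient.mk_eq_zero _).2 ⟨⟨u d.1, d.2⟩, Subtype.ext (h d.1)⟩

/-- `X` sends `sq u Q (j + 1)` to `sq u Q j` -/
lemma X_smul_sq (h : Rel F u) (Q : Submodule S[X] N) (j : ℕ) {n : N}
    (hn : n ∈ sq u Q (j + 1)) : (X : S[X]) • n ∈ sq u Q j := by
  obtain ⟨q, hq, y, hy, rfl⟩ := Submodule.mem_sup.1 hn
  obtain ⟨y, hy, rfl⟩ := hy
  rw [smul_add, h]
  exact add_mem (sq_mono u Q (Nat.zero_le _) (Submodule.smul_mem Q _ hq))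
    (Submodule.smul_of_tower_mem _ F hy)

lemma X_pow_smul_sq (h : Rel F u) (Q : Submodule S[X] N) (j : ℕ) :
    ∀ {n : N}, n ∈ sq u Q j → (X ^ j : S[X]) • n ∈ Q := by
  induction j with
  | zero =>
    intro n hn
    rw [pow_zero, one_smul]
    exact hn
  | succ j ih =>
    intro n hn
    rw [pow_succ, mul_smul]
    exact ih (X_smul_sq h Q j hn)

variable [IsNoetherianRing S] {f : AddFun S}

/-- two good lattices, one of them contained in the other -/
lemma chi_le [IsDomain S] (hS : Gen S) (hF : F ≠ 0) (hf : IsAdditive F f)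
    (h0 : f (S ⧸ Ideal.span {F}) = 0) (h : Rel F u) {Q Q' : Submodule S[X] N} (hQ : Good u Q)
    (hQ' : Good u Q') (hle : Q ≤ Q') : chi f (vmap h Q) = chi f (vmap h Q') := by
  set W : Submodule S[X] Q' := Q.comap Q'.subtype with hW
  have hfQ' : Module.Finite S[X] Q' := Module.Finite.iff_fg.2 hQ'.fg
  have hfD : Module.Finite S[X] (Q' ⧸ W) := Module.Finite.of_surjective W.mkQ W.mkQ_surjective
  obtain ⟨j, hj⟩ := hQ.gens.le hQ'.fg
  have hDS : Module.Finite S (Q' ⧸ W) := by
    refine fin_of_X_pow j _ hfD ?_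
    intro d
    obtain ⟨d, rfl⟩ := Submodule.mkQ_surjective _ d
    rw [← map_smul]
    refine (Submodule.Quotient.mk_eq_zero _).2 ?_
    exact X_pow_smul_sq h Q j (hj d.2)
  -- the maps
  set i : Q →ₗ[S] Q' := (Submodule.inclusion hle).restrictScalars S with hi
  set p : Q' →ₗ[S] (Q' ⧸ W) := W.mkQ.restrictScalars S with hp
  set i' : (Q.comap u) →ₗ[S] (Q'.comap u) :=
    (Submodule.inclusion (Submodule.comap_mono (f := u) hle)).restrictScalars S with hi'
  set q : (Q'.comap u) →ₗ[S] (Q' ⧸ W) :=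
    (W.mkQ.comp (u.restrict (p := Q'.comap u) (q := Q') (fun x hx => hx))).restrictScalars S with hq
  have key := chi_add (f := f) hf (vmap h Q) (vmap h Q') (LinearMap.lsmul S (Q' ⧸ W) F) i p i' q
    (by
      ext x
      rfl)
    (by
      apply LinearMap.ext
      intro x
      refine Eq.trans ?_ ((W.mkQ.restrictScalars S).map_smul F x)
      refine congrArg W.mkQ ?_
      apply Subtype.ext
      change u ((X : S[X]) • x.1) = F • x.1
      rw [map_smul, h])
    (Submodule.inclusion_injective hle) W.mkQ_surjective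
    (by
      intro x
      constructor
      · intro hx
        exact ⟨⟨x.1, (Submodule.Quotient.mk_eq_zero W).1 hx⟩, rfl⟩
      · rintro ⟨y, rfl⟩
        exact (Submodule.Quotient.mk_eq_zero W).2 y.2)
    (Submodule.inclusion_injective (Submodule.comap_mono (f := u) hle))
    (by
      intro d
      obtain ⟨d, rfl⟩ := W.mkQ_surjective d
      obtain ⟨a, ha, b, hb, hab⟩ := Submodule.mem_sup.1 (sq_succ_mono u Q j (hj d.2))
      obtain ⟨b, hb, rfl⟩ := hb
      have h1 : u b ∈ Q' := by
        have h2 : u b = d.1 - a := by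
          rw [← hab, add_sub_cancel_left]
        rw [h2]
        exact sub_mem d.2 (hle ha)
      refine ⟨⟨b, h1⟩, ?_⟩
      change W.mkQ _ = W.mkQ d
      rw [← sub_eq_zero, ← map_sub]
      refine (Submodule.Quotient.mk_eq_zero _).2 ?_
      change u b - d.1 ∈ Q
      rw [← hab, sub_add_cancel_right]
      exact neg_mem ha)
    (by
      intro x
      constructor
      · intro hx
        exact ⟨⟨x.1, (Submodule.Quotient.mk_eq_zero W).1 hx⟩, rfl⟩
      · rintro ⟨y, rfl⟩
        exact (Submodule.Quotient.mk_eq_zero W).2 y.2)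
    (fred_vmap h hQ) (fred_vmap h hQ') (fred_smul _ hDS)
  rw [mu_zero hS hF hf h0 _ hDS, add_zero] at key
  exact key.symm

theorem chi_eq [IsDomain S] (hS : Gen S) (hF : F ≠ 0) (hf : IsAdditive F f)
    (h0 : f (S ⧸ Ideal.span {F}) = 0) (h : Rel F u) {Q Q' : Submodule S[X] N} (hQ : Good u Q)
    (hQ' : Good u Q') : chi f (vmap h Q) = chi f (vmap h Q') := by
  obtain ⟨j, hj⟩ := hQ.gens.le hQ'.fg
  rw [chi_le hS hF hf h0 h hQ (hQ.sq j) (sq_mono u Q (Nat.zero_le _)),
    chi_le hS hF hf h0 h hQ' (hQ.sq j) hj]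

end chi

end Pool.Agent.W5h77.KH
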