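import Pool.Agent.W5h77.KH.Add

set_option autoImplicit false

/-!
# The polynomial modules `M[X]`
-/

namespace Pool.Agent.W5h77.KH

open Function Polynomial

section

variable {A : Type} [CommRing A] {M N K : Type} [AddCommGroup M] [AddCommGroup N] [AddCommGroup K]
  [Module A M] [Module A N] [Module A K]

/-- the map of the polynomial modules -/
noncomputable def pmap (φ : M →ₗ[A] N) : PolynomialModule A M →ₗ[A[X]] PolynomialModule A N where
  toFun := PolynomialModule.map A φ
  map_add' := map_add _
  map_smul' p x := by
    rw [PolynomialModule.map_smul]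
    simp

lemma pmap_single (φ : M →ₗ[A] N) (n : ℕ) (m : M) :
    pmap φ (PolynomialModule.single A n m) = PolynomialModule.single A n (φ m) :=
  PolynomialModule.map_single A φ n m

lemma eq_sum_single (x : PolynomialModule A M) :
    x = ∑ n ∈ x.coeff.support, PolynomialModule.single A n (x.coeff n) := by
  apply PolynomialModule.coeff_injective
  rw [PolynomialModule.coeff_sum]
  simp only [PolynomialModule.coeff_single]
  exact (Finsupp.sum_single x.coeff).symm

lemma coeff_pmap (φ : M →ₗ[A] N) (x : PolynomialModule A M) (n : ℕ) :
    (pmap φ x).coeff n = φ (x.coeff n) := by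
  induction x using PolynomialModule.induction_linear with
  | zero => simp
  | add x y hx hy => rw [map_add, PolynomialModule.coeff_add, Finsupp.add_apply, hx, hy,
      PolynomialModule.coeff_add, Finsupp.add_apply, map_add]
  | single i m =>
    rw [pmap_single, PolynomialModule.coeff_single, PolynomialModule.coeff_single,
      Finsupp.single_apply, Finsupp.single_apply]
    split_ifs
    · rfl
    · rw [map_zero]

lemma ext_coeff {x y : PolynomialModule A M} (h : ∀ n, x.coeff n = y.coeff n) : x = y :=
  PolynomialModule.coeff_injective (Finsupp.ext h)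

lemma pmap_injective {φ : M →ₗ[A] N} (h : Injective φ) : Injective (pmap φ) := fun x y hxy =>
  ext_coeff fun n => h (by rw [← coeff_pmap, ← coeff_pmap, hxy])

lemma exists_lift (φ : M →ₗ[A] N) (x : PolynomialModule A N) (h : ∀ n, x.coeff n ∈ Set.range φ) :
    ∃ y, pmap φ y = x := by
  choose y hy using h
  refine ⟨∑ n ∈ x.coeff.support, PolynomialModule.single A n (y n), ?_⟩
  rw [map_sum]
  conv_rhs => rw [eq_sum_single x]
  refine Finset.sum_congr rfl fun n _ => ?_
  rw [pmap_single, hy]

lemma pmap_surjective {φ : M →ₗ[A] N} (h : Surjective φ) : Surjective (pmap φ) := fun x =>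
  exists_lift φ x fun n => h (x.coeff n)

lemma pmap_exact {φ : M →ₗ[A] N} {ψ : N →ₗ[A] K} (h : Exact φ ψ) : Exact (pmap φ) (pmap ψ) := by
  intro x
  constructor
  · intro hx
    refine exists_lift φ x fun n => ?_
    rw [← h, ← coeff_pmap, hx]
    rfl
  · rintro ⟨y, rfl⟩
    refine ext_coeff fun n => ?_
    rw [coeff_pmap, coeff_pmap, (h _).2 ⟨_, rfl⟩]
    rfl

instance pmod_finite [Module.Finite A M] : Module.Finite A[X] (PolynomialModule A M) :=
  Module.Finite.equiv (PolynomialModule.polynomialTensorProductLEquivPolynomialModule A M)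

end

end Pool.Agent.W5h77.KH
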