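import Pool.Agent.W5h77.KH.Tower

set_option autoImplicit false

/-!
# Finite pull-backs
-/

namespace Pool.Agent.W5h77.KH

open Function Polynomial

section pull

variable {k A B : Type} [Field k] [CommRing A] [CommRing B] [Algebra k A] [Algebra k B]
  [IsNoetherianRing A]

omit [IsNoetherianRing A] in
lemma trdeg_quot_le {P Q : Ideal A} (h : P ≤ Q) :
    Algebra.trdeg k (A ⧸ Q) ≤ Algebra.trdeg k (A ⧸ P) :=
  trdeg_le_of_surjective (Ideal.Quotient.factorₐ k h) (Ideal.Quotient.factor_surjective h)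

omit [IsNoetherianRing A] in
lemma dimLe_quot {P : Ideal A} {n : ℕ} (h : Algebra.trdeg k (A ⧸ P) ≤ n) :
    DimLe k (A := A) (A ⧸ P) n := by
  intro Q _ hle
  rw [Ideal.annihilator_quotient] at hle
  exact (trdeg_quot_le hle).trans h

/-- the values on the modules killed by `P` -/
lemma exists_mult {G : A} {g : AddFun A} (hg : IsAdditive G g) {e : ℕ}
    (hv : ∀ (M : Type) [AddCommGroup M] [Module A M], Adm G M → DimLe k (A := A) M e → g M = 0)
    {P : Ideal A} (hP : P.IsPrime) (hPd : Algebra.trdeg k (A ⧸ P) ≤ (e + 1 : ℕ)) :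
    ∀ (M : Type) [AddCommGroup M] [Module A M], Adm G M → P ≤ Module.annihilator A M →
      ∃ ρ : ℕ, g M = ρ * g (A ⧸ P) := by
  intro M _ _ hM
  obtain ⟨hM1, hM2⟩ := hM
  induction hM1 using IsNoetherianRing.induction_on_isQuotientEquivQuotientPrime A with
  | subsingleton N => exact fun _ => ⟨0, by rw [f_zero hg, Nat.cast_zero, zero_mul]⟩
  | quotient N p e' =>
    intro hT
    have h1 : Module.annihilator A N = p.1 := by
      rw [e'.annihilator_eq, Ideal.annihilator_quotient]
    have h2 : Adm G (A ⧸ p.1) := by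
      refine ⟨inferInstance, fun m => ?_⟩
      obtain ⟨n, rfl⟩ := e'.surjective m
      rw [← map_smul, hM2, map_zero]
    rw [h1] at hT
    rw [f_iso hg h2 e']
    by_cases h3 : P = p.1
    · exact ⟨1, by rw [h3, Nat.cast_one, one_mul]⟩
    · refine ⟨0, ?_⟩
      rw [Nat.cast_zero, zero_mul]
      have hlt : P < p.1 := lt_of_le_of_ne hT h3
      obtain ⟨z, hz, hzP⟩ := Set.exists_of_ssubset hlt
      have hp := p.2
      have h4 : Algebra.trdeg k (A ⧸ p.1) ≤ e := by
        refine drop hP (Ideal.Quotient.mkₐ k p.1) (Ideal.Quotient.mkₐ_surjective k p.1) ?_ hzP ?_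
          hPd
        · exact fun x hx => Ideal.Quotient.eq_zero_iff_mem.2 (hT hx)
        · exact Ideal.Quotient.eq_zero_iff_mem.2 hz
      exact hv _ h2 (dimLe_quot h4)
  | exact N₁ N₂ N₃ i p hi hp hip h1 h3 =>
    intro hT
    have hA : Adm G N₂ := ⟨inferInstance, hM2⟩
    have hA1 := hA.sub i hi
    have hA3 := hA.quot p hp
    obtain ⟨ρ₁, hρ₁⟩ := h1 hA1.2 (hT.trans (i.annihilator_le_of_injective hi))
    obtain ⟨ρ₃, hρ₃⟩ := h3 hA3.2 (hT.trans (p.annihilator_le_of_surjective hp))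
    refine ⟨ρ₁ + ρ₃, ?_⟩
    rw [hg N₁ N₂ N₃ i p hA hi hp hip, hρ₁, hρ₃]
    push_cast
    ring

omit [IsNoetherianRing A] in
lemma trdeg_over (φ : A →ₐ[k] B) (hφ : (φ : A →+* B).IsIntegral) {P : Ideal A} {P' : Ideal B}
    (hP' : P'.IsPrime) (h : P'.comap (φ : A →+* B) = P) :
    Algebra.trdeg k (B ⧸ P') ≤ Algebra.trdeg k (A ⧸ P) := by
  have hP : P.IsPrime := by
    rw [← h]
    exact Ideal.comap_isPrime _ _
  have hle : P ≤ P'.comap (φ : A →+* B) := h.ge
  set ψ : (A ⧸ P) →ₐ[k] (B ⧸ P') := Ideal.quotientMapₐ P' φ hle with hψ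
  have hinj : Injective ψ := Ideal.quotientMap_injective' (H := hle) h.le
  let i1 : Algebra (A ⧸ P) (B ⧸ P') := (ψ : (A ⧸ P) →+* (B ⧸ P')).toAlgebra
  have i2 : IsScalarTower k (A ⧸ P) (B ⧸ P') :=
    IsScalarTower.of_algebraMap_eq fun c => (ψ.commutes c).symm
  have i3 : FaithfulSMul (A ⧸ P) (B ⧸ P') := (faithfulSMul_iff_algebraMap_injective _ _).2 hinj
  have i4 : Algebra.IsIntegral (A ⧸ P) (B ⧸ P') := by
    refine ⟨fun x => ?_⟩
    obtain ⟨b, rfl⟩ := Ideal.Quotient.mk_surjective x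
    obtain ⟨p, hp, hb⟩ := hφ b
    refine ⟨p.map (Ideal.Quotient.mk P), hp.map _, ?_⟩
    rw [eval₂_map]
    have h1 : (algebraMap (A ⧸ P) (B ⧸ P')).comp (Ideal.Quotient.mk P) =
        (Ideal.Quotient.mk P').comp (φ : A →+* B) := rfl
    rw [h1, ← hom_eval₂, hb, map_zero]
  have i5 : Algebra.IsAlgebraic (A ⧸ P) (B ⧸ P') := inferInstance
  rw [← trdeg_add_eq k (A ⧸ P) (A := B ⧸ P'), trdeg_eq_zero (R := A ⧸ P) (A := B ⧸ P'), add_zero]

/-- the functions for a finite pull-back -/
lemma test_res [IsDomain A] [IsDomain B] (φ : A →ₐ[k] B) (hfin : (φ : A →+* B).Finite)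
    (hinj : Injective φ) (hA : Gen A) {G : A} (hG : G ≠ 0) {e : ℕ} {f : AddFun A}
    (hf : Test k G e f) : Test k (φ G) e (res (φ : A →+* B) f) := by
  have hne : (φ : A →+* B) G ≠ 0 := by
    intro h
    exact hG (hinj (by rw [map_zero]; exact h))
  refine ⟨res_additive hfin hf.add, struct_res (φ : A →+* B) hfin hA hG hf.add hf.str hne, ?_⟩
  intro M _ _ hM hd
  have h2 := dimLe_res φ hfin.to_isIntegral hd
  have h3 : @Adm A _ G M _ (Module.compHom M (φ : A →+* B)) := res_adm hfin hM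
  let := Module.compHom M (φ : A →+* B)
  exact hf.van M h3 h2

/-- **Finite pull-backs.** -/
theorem dual_pull [IsDomain A] [IsDomain B] (φ : A →ₐ[k] B) (hfin : (φ : A →+* B).Finite)
    (hinj : Injective φ) (hA : Gen A) {G : A} (hG : G ≠ 0) {e r : ℕ} (h : DualLe k (φ G) e r) :
    DualLe k G e r := by
  intro κ _ f hκ hf
  obtain ⟨c, hc, hv⟩ := h κ (fun i => res (φ : A →+* B) (f i)) hκ
    (fun i => test_res φ hfin hinj hA hG (hf i))
  refine ⟨c, hc, ?_⟩
  have hg := Test.sum hf c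
  intro N _ _ hN hd
  refine devissage hg.add (T := fun P => Algebra.trdeg k (A ⧸ P) ≤ (e + 1 : ℕ)) ?_ N hN hd
  intro P hP hPd hGP
  let := (φ : A →+* B).toAlgebra
  have hint : Algebra.IsIntegral A B := ⟨hfin.to_isIntegral⟩
  obtain ⟨P', -, hP', hcomap⟩ := Ideal.exists_ideal_over_prime_of_isIntegral P (⊥ : Ideal B)
    (by
      intro a ha
      have h1 : φ a = 0 := ha
      have h2 : a = 0 := hinj (by rw [h1, map_zero])
      rw [h2]
      exact P.zero_mem)
  have hcomap' : P'.comap (φ : A →+* B) = P := hcomap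
  have hGP' : φ G ∈ P' := by
    have h1 : G ∈ P'.comap (φ : A →+* B) := by
      rw [hcomap']
      exact hGP
    exact h1
  have hadm : Adm (φ G) (B ⧸ P') := by
    refine ⟨inferInstance, fun m => ?_⟩
    obtain ⟨m, rfl⟩ := Submodule.mkQ_surjective _ m
    rw [← map_smul]
    exact (Submodule.Quotient.mk_eq_zero _).2 (Ideal.mul_mem_right _ _ hGP')
  have hdB : DimLe k (A := B) (B ⧸ P') (e + 1) := by
    intro Q _ hle
    rw [Ideal.annihilator_quotient] at hle
    exact (trdeg_le_of_surjective (Ideal.Quotient.factorₐ k hle)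
      (Ideal.Quotient.factor_surjective hle)).trans
      ((trdeg_over φ hfin.to_isIntegral hP' hcomap').trans hPd)
  have h1 := hv (B ⧸ P') hadm hdB
  let i1 : Module A (B ⧸ P') := Module.compHom (B ⧸ P') (φ : A →+* B)
  set g : AddFun A := fun N _ _ => ∑ i, c i * f i N with hgdef
  have h2 : g (B ⧸ P') = 0 := h1
  have hadmA : Adm G (B ⧸ P') := res_adm hfin hadm
  -- the inclusion of `A / P`
  set j : (A ⧸ P) →ₗ[A] (B ⧸ P') :=
    { toFun := Ideal.quotientMap P' (φ : A →+* B) hcomap'.ge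
      map_add' := map_add _
      map_smul' := fun a x => by
        obtain ⟨x, rfl⟩ := Ideal.Quotient.mk_surjective x
        change Ideal.Quotient.mk P' (φ (a * x)) = Ideal.Quotient.mk P' (φ a * φ x)
        rw [map_mul] } with hj
  have hjinj : Injective j := Ideal.quotientMap_injective' (H := hcomap'.ge) hcomap'.le
  have h3 := hg.add _ _ _ j (LinearMap.range j).mkQ hadmA hjinj (LinearMap.range j).mkQ_surjective
    (LinearMap.exact_map_mkQ_range j)
  obtain ⟨ρ, hρ⟩ := exists_mult hg.add hg.van hP hPd ((B ⧸ P') ⧸ LinearMap.range j)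
    (hadmA.quot _ (LinearMap.range j).mkQ_surjective) (by
      intro a ha
      rw [Module.mem_annihilator]
      intro x
      obtain ⟨x, rfl⟩ := Submodule.mkQ_surjective _ x
      rw [← map_smul]
      have h4 : a • x = 0 := by
        obtain ⟨x, rfl⟩ := Ideal.Quotient.mk_surjective x
        change Ideal.Quotient.mk P' (φ a * x) = 0
        rw [Ideal.Quotient.eq_zero_iff_mem]
        refine P'.mul_mem_right _ ?_
        have h5 : a ∈ P'.comap (φ : A →+* B) := by
          rw [hcomap']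
          exact ha
        exact h5
      rw [h4, map_zero])
  have h5 : (1 + ρ : ℚ) * g (A ⧸ P) = 0 := by
    have h6 : g (B ⧸ P') = g (A ⧸ P) + g ((B ⧸ P') ⧸ LinearMap.range j) := h3
    have h7 : g ((B ⧸ P') ⧸ LinearMap.range j) = ρ * g (A ⧸ P) := hρ
    rw [h2, h7] at h6
    linarith
  refine (mul_eq_zero.1 h5).resolve_left ?_
  positivity

end pull

section above

open MvPolynomial

variable {k : Type} [Field k]

/-- `Above F t m H`: the hypersurface `H = 0` is obtained from `F = 0` by finitely many steps, of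
two kinds: the step from `H` to `H'` if `H' = 0` has `l ≥ 1` hyperplane sections which are cones
over `H = 0` (this adds `1` to `t` and multiplies `m` by `l`), and the step from `H` to `φ H`,
where `φ` is a finite injective endomorphism of the polynomial ring (the pull-back). -/
inductive Above {N : ℕ} (F : MvPolynomial (Fin N) k) :
    (t : ℕ) → ℕ → MvPolynomial (Fin (N + 2 * t)) k → Prop
  | base : Above F 0 1 F
  | cone (t m d l : ℕ) (H : MvPolynomial (Fin (N + 2 * t)) k)
      (H' : MvPolynomial (Fin (N + 2 * (t + 1))) k) : Above F t m H → 2 ≤ d → 1 ≤ l →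
      ConeStep d l H H' → Above F (t + 1) (m * l) H'
  | pull (t m : ℕ) (H : MvPolynomial (Fin (N + 2 * t)) k)
      (φ : MvPolynomial (Fin (N + 2 * t)) k →ₐ[k] MvPolynomial (Fin (N + 2 * t)) k) :
      Above F t m H → φ.toRingHom.Finite → Injective φ →
      Above F t m (φ H)

/-- **The rank inequality.** -/
theorem above {N : ℕ} {F : MvPolynomial (Fin N) k} (hF : F ≠ 0) {t m : ℕ}
    {H : MvPolynomial (Fin (N + 2 * t)) k} (h : Above F t m H) : H ≠ 0 ∧ 1 ≤ m ∧
      ∀ e b r : ℕ, DualLe k H (e + t) b → b < m * (r + 1) → DualLe k F e r := by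
  induction h with
  | base =>
    refine ⟨hF, le_rfl, fun e b r h hb => ?_⟩
    intro κ _ f hκ hf
    exact h κ f (by omega) hf
  | cone t m d l H H' _ hd hl hstep ih =>
    obtain ⟨ih1, ih2, ih3⟩ := ih
    refine ⟨hstep.ne_zero hl ih1, Nat.mul_pos ih2 hl, fun e b r h hb => ?_⟩
    have hpos : 0 < m * (r + 1) := Nat.mul_pos ih2 (Nat.succ_pos r)
    refine ih3 e (m * (r + 1) - 1) r ?_ (by omega)
    refine cone_step hd hstep ih1 (e := e + t) h ?_
    have h1 : m * (r + 1) - 1 + 1 = m * (r + 1) := by omega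
    rw [h1, ← mul_assoc, mul_comm l]
    exact hb
  | pull t m H φ _ hfin hinj ih =>
    obtain ⟨ih1, ih2, ih3⟩ := ih
    refine ⟨fun h => ih1 (hinj (by rw [h, map_zero])), ih2, fun e b r h hb => ?_⟩
    exact ih3 e b r (dual_pull φ hfin hinj (gen_mv k _) ih1 h) hb

end above

end Pool.Agent.W5h77.KH
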