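import Pool.Agent.W5h77.KH.Val

set_option autoImplicit false

/-!
# Ranks
-/

namespace Pool.Agent.W5h77.KH

open Function Polynomial

section defs

variable (k : Type) {A : Type} [Field k] [CommRing A] [Algebra k A] (G : A) (e : ℕ)

/-- additive functions vanishing on `A / (G)` and on the modules of dimension at most `e` -/
structure Test (f : AddFun A) : Prop where
  add : IsAdditive G f
  str : f (A ⧸ Ideal.span {G}) = 0
  van : ∀ (M : Type) [AddCommGroup M] [Module A M], Adm G M → DimLe k (A := A) M e → f M = 0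

/-- In the Grothendieck group with rational coefficients of the finitely generated modules over
`A / (G)`, the classes of the modules of dimension at most `e + 1` are linear combinations of the
class of `A / (G)`, of classes of modules of dimension at most `e`, and of the classes of `r`
suitable modules `M i` of dimension at most `e + 1`. (Equivalently: every additive function which
vanishes on `A / (G)`, on the modules of dimension at most `e` and on the `M i` vanishes on the
modules of dimension at most `e + 1`.) -/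
def RankLe (r : ℕ) : Prop :=
  ∃ M : Fin r → ModuleCat.{0} A, (∀ i, Adm G (M i)) ∧ (∀ i, DimLe k (A := A) (M i) (e + 1)) ∧
    ∀ f : AddFun A, Test k G e f → (∀ i, f (M i) = 0) →
      ∀ (N : Type) [AddCommGroup N] [Module A N], Adm G N → DimLe k (A := A) N (e + 1) → f N = 0

/-- the dual form -/
def DualLe (r : ℕ) : Prop :=
  ∀ (κ : Type) [Fintype κ] (f : κ → AddFun A), r < Fintype.card κ → (∀ i, Test k G e (f i)) →
    ∃ c : κ → ℚ, c ≠ 0 ∧ ∀ (N : Type) [AddCommGroup N] [Module A N], Adm G N →
      DimLe k (A := A) N (e + 1) → ∑ i, c i * f i N = 0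

/-- triangular systems -/
def Tri (s : ℕ) : Prop :=
  ∃ (M : Fin s → ModuleCat.{0} A) (f : Fin s → AddFun A), (∀ i, Adm G (M i)) ∧
    (∀ i, DimLe k (A := A) (M i) (e + 1)) ∧ (∀ i, Test k G e (f i)) ∧
    (∀ i j, j < i → f i (M j) = 0) ∧ ∀ i, f i (M i) ≠ 0

end defs

section lin

variable {k A : Type} [Field k] [CommRing A] [Algebra k A] {G : A} {e : ℕ}

lemma Test.sum {κ : Type} [Fintype κ] {f : κ → AddFun A} (h : ∀ i, Test k G e (f i))
    (c : κ → ℚ) : Test k G e (fun N _ _ => ∑ i, c i * f i N) := by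
  refine ⟨?_, ?_, ?_⟩
  · intro M₁ M₂ M₃ _ _ _ _ _ _ i p hM hi hp hip
    change ∑ j, c j * f j M₂ = ∑ j, c j * f j M₁ + ∑ j, c j * f j M₃
    rw [← Finset.sum_add_distrib]
    refine Finset.sum_congr rfl fun j _ => ?_
    rw [(h j).add M₁ M₂ M₃ i p hM hi hp hip, mul_add]
  · refine Finset.sum_eq_zero fun j _ => ?_
    rw [(h j).str, mul_zero]
  · intro M _ _ hM hd
    refine Finset.sum_eq_zero fun j _ => ?_
    rw [(h j).van M hM hd, mul_zero]

theorem dual_of_rank {r : ℕ} (h : RankLe k G e r) : DualLe k G e r := by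
  obtain ⟨M, hM, hd, hv⟩ := h
  intro κ _ f hr hf
  set L : (κ → ℚ) →ₗ[ℚ] (Fin r → ℚ) :=
    LinearMap.pi fun j => ∑ i, (f i (M j)) • LinearMap.proj i with hL
  have h1 : LinearMap.ker L ≠ ⊥ := by
    apply LinearMap.ker_ne_bot_of_finrank_lt
    rw [Module.finrank_fintype_fun_eq_card, Module.finrank_fintype_fun_eq_card, Fintype.card_fin]
    exact hr
  obtain ⟨c, hc, hc0⟩ := Submodule.exists_mem_ne_zero_of_ne_bot h1
  refine ⟨c, hc0, fun N _ _ hN hdN => ?_⟩
  refine hv _ (Test.sum hf c) (fun j => ?_) N hN hdN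
  have h2 := congrFun (LinearMap.mem_ker.1 hc) j
  rw [hL, LinearMap.pi_apply] at h2
  simp only [LinearMap.sum_apply, LinearMap.smul_apply, LinearMap.proj_apply, smul_eq_mul,
    Pi.zero_apply] at h2
  rw [← h2]
  exact Finset.sum_congr rfl fun i _ => mul_comm _ _

lemma rank_pad {s r : ℕ} (hsr : s ≤ r) (h : RankLe k G e s) : RankLe k G e r := by
  obtain ⟨M, hM, hd, hv⟩ := h
  set M' : Fin r → ModuleCat.{0} A :=
    fun i => if h : i.1 < s then M ⟨i.1, h⟩ else ModuleCat.of A PUnit with hM'
  have e1 : ∀ (i : Fin r) (h : i.1 < s), M' i = M ⟨i.1, h⟩ := fun i h => dif_pos h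
  have e2 : ∀ (i : Fin r), ¬ i.1 < s → M' i = ModuleCat.of A PUnit := fun i h => dif_neg h
  refine ⟨M', ?_, ?_, ?_⟩
  · intro i
    by_cases h : i.1 < s
    · rw [e1 i h]
      exact hM _
    · rw [e2 i h]
      exact adm_of_subsingleton (M := PUnit)
  · intro i
    by_cases h : i.1 < s
    · rw [e1 i h]
      exact hd _
    · rw [e2 i h]
      intro P hP hle
      exfalso
      apply hP.ne_top
      rw [Ideal.eq_top_iff_one]
      apply hle
      rw [Module.mem_annihilator]
      exact fun _ => Subsingleton.elim (α := PUnit) _ _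
  · intro f hf hi N _ _ hN hdN
    refine hv f hf (fun i => ?_) N hN hdN
    have h1 := hi ⟨i.1, lt_of_lt_of_le i.2 hsr⟩
    rw [e1 _ i.2] at h1
    exact h1

lemma tri_of_not {r : ℕ} (h : ¬ RankLe k G e r) : ∀ s, s ≤ r + 1 → Tri k G e s := by
  intro s
  induction s with
  | zero =>
    intro _
    exact ⟨fun i => i.elim0, fun i => i.elim0, fun i => i.elim0, fun i => i.elim0,
      fun i => i.elim0, fun i => i.elim0, fun i => i.elim0⟩
  | succ s ih =>
    intro hs
    obtain ⟨M, f, hM, hd, hf, h0, h1⟩ := ih (by omega)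
    have h2 : ¬ RankLe k G e s := fun h3 => h (rank_pad (by omega) h3)
    have h3 : ∃ g : AddFun A, Test k G e g ∧ (∀ i, g (M i) = 0) ∧ ∃ N : ModuleCat.{0} A,
        Adm G N ∧ DimLe k (A := A) N (e + 1) ∧ g N ≠ 0 := by
      by_contra hcon
      push Not at hcon
      refine h2 ⟨M, hM, hd, fun g hg hgi N _ _ hN hdN => ?_⟩
      exact hcon g hg hgi (ModuleCat.of A N) hN hdN
    obtain ⟨g, hg, hgi, N, hN, hdN, hgN⟩ := h3
    refine ⟨Fin.snoc (α := fun _ => ModuleCat.{0} A) M N,
      Fin.snoc (α := fun _ => AddFun A) f g, ?_, ?_, ?_, ?_, ?_⟩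
    · intro i
      refine Fin.lastCases ?_ (fun i => ?_) i
      · rw [Fin.snoc_last]
        exact hN
      · rw [Fin.snoc_castSucc]
        exact hM i
    · intro i
      refine Fin.lastCases ?_ (fun i => ?_) i
      · rw [Fin.snoc_last]
        exact hdN
      · rw [Fin.snoc_castSucc]
        exact hd i
    · intro i
      refine Fin.lastCases ?_ (fun i => ?_) i
      · rw [Fin.snoc_last]
        exact hg
      · rw [Fin.snoc_castSucc]
        exact hf i
    · intro i j
      refine Fin.lastCases ?_ (fun i => ?_) i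
      · refine Fin.lastCases ?_ (fun j => ?_) j
        · intro hlt
          exact absurd hlt (lt_irrefl _)
        · intro _
          rw [Fin.snoc_last, Fin.snoc_castSucc]
          exact hgi j
      · refine Fin.lastCases ?_ (fun j => ?_) j
        · intro hlt
          exact absurd (Fin.le_last _) (not_le.2 hlt)
        · intro hlt
          rw [Fin.snoc_castSucc, Fin.snoc_castSucc]
          exact h0 i j (by simpa using hlt)
    · intro i
      refine Fin.lastCases ?_ (fun i => ?_) i
      · rw [Fin.snoc_last, Fin.snoc_last]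
        exact hgN
      · rw [Fin.snoc_castSucc, Fin.snoc_castSucc]
        exact h1 i

theorem rank_of_dual {r : ℕ} (h : DualLe k G e r) : RankLe k G e r := by
  by_contra hcon
  obtain ⟨M, f, hM, hd, hf, h0, h1⟩ := tri_of_not hcon (r + 1) le_rfl
  obtain ⟨c, hc, hv⟩ := h (Fin (r + 1)) f (by simp) hf
  apply hc
  funext j
  rw [Pi.zero_apply]
  induction j using WellFoundedLT.induction with
  | ind j ih =>
    have h2 := hv (M j) (hM j) (hd j)
    rw [Finset.sum_eq_single j] at h2
    · exact (mul_eq_zero.1 h2).resolve_right (h1 j)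
    · intro i _ hij
      rcases lt_or_gt_of_ne hij with hlt | hgt
      · rw [ih i hlt, zero_mul]
      · rw [h0 i j hgt, mul_zero]
    · intro h3
      exact absurd (Finset.mem_univ j) h3

theorem rank_iff {r : ℕ} : RankLe k G e r ↔ DualLe k G e r := ⟨dual_of_rank, rank_of_dual⟩

end lin

section growth

variable {k S : Type} [Field k] [CommRing S] [Algebra k S] [IsNoetherianRing S] [IsDomain S]
  {ι : Type} [Fintype ι] [DecidableEq ι]

/-- the functions for `F + ∏ (z - c_j u)` -/
theorem test_sus (hS : Gen S) {F : S} (hF : F ≠ 0) {c : ι → k} (hc : Injective c)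
    (hι : 2 ≤ Fintype.card ι) (l : ι) {e : ℕ} {f : AddFun S} (hf : Test k F e f) :
    Test k (sus c F) (e + 1) (res (psc c l) (lam F f)) := by
  have hfin := psc_finite (S := S) hc hι l
  have hla := lam_additive hS hF hf.add hf.str
  refine ⟨?_, ?_, ?_⟩
  · have h1 := res_additive hfin hla
    rw [psc_eqn] at h1
    exact h1
  · have hSS : Gen S[X][X] := gen_poly (gen_poly hS)
    have h2 : eqn F ≠ 0 := by
      intro h3
      have h4 := psc_eqn c l F
      rw [h3, map_zero] at h4
      exact sus_ne_zero l hF h4.symm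
    have h3 := struct_res (psc c l) hfin hSS h2 hla (lam_struct hS hF hf.add hf.str)
      (by rw [psc_eqn]; exact sus_ne_zero l hF)
    rw [psc_eqn] at h3
    exact h3
  · intro N _ _ hN hd
    have hk : ∀ a : k, psc c l (algebraMap k S[X][X] a) = algebraMap k S[X][X] a :=
      fun a => psc_CC c l (algebraMap k S a)
    have h2 := dimLe_res (⟨psc c l, hk⟩ : S[X][X] →ₐ[k] S[X][X]) hfin.to_isIntegral hd
    have h3 : @Adm S[X][X] _ (eqn F) N _ (Module.compHom N (psc (S := S) c l)) := by
      rw [← psc_eqn c l] at hN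
      exact res_adm hfin hN
    let := Module.compHom N (psc (S := S) c l)
    exact lam_dim hS hF hf.add hf.str hf.van N h3 h2

/-- the values of the functions -/
theorem val_ne (hS : Gen S) {F : S} (hF : F ≠ 0) {c : ι → k} (hc : Injective c) {l j : ι}
    (hjl : j ≠ l) {e : ℕ} {f : AddFun S} (hf : Test k F e f) {M : Type} [AddCommGroup M]
    [Module S M] (hM : Adm F M) :
    res (thc (c j)) (res (psc c l) (lam F f)) (PolynomialModule S M) = f M := by
  have hne : c j - c l ≠ 0 := fun h => hjl (hc (sub_eq_zero.1 h))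
  refine lam_one (ρ := (thc (c j)).comp (psc c l)) (M := M) ?_ ?_
    (a := algebraMap k S (c j - c l)) (b := algebraMap k S (c j - c l)⁻¹) ?_ ?_ hS hF hf.add hf.str
    hM
  · intro s
    rw [RingHom.comp_apply, psc_CC, thc_CC]
  · rw [RingHom.comp_apply, thc_psc_CX_ne c hjl]
  · rw [← map_mul, mul_inv_cancel₀ hne, map_one]
  · rw [RingHom.comp_apply, thc_psc_X]

theorem val_eq (hS : Gen S) {F : S} (hF : F ≠ 0) {c : ι → k} (hc : Injective c)
    (hι : 2 ≤ Fintype.card ι) (l : ι) {e : ℕ} {f : AddFun S} (hf : Test k F e f) {M : Type}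
    [AddCommGroup M] [Module S M] (hM : Adm F M) :
    res (thc (c l)) (res (psc c l) (lam F f)) (PolynomialModule S M) =
      -((Fintype.card ι - 1 : ℕ) * f M) := by
  have hne : -∏ j ∈ Finset.univ.erase l, (c l - c j) ≠ 0 := by
    rw [neg_ne_zero, Finset.prod_ne_zero_iff]
    intro j hj h
    exact (Finset.mem_erase.1 hj).1 (hc (sub_eq_zero.1 h)).symm
  refine lam_two (ρ := (thc (c l)).comp (psc c l)) (M := M) ?_ ?_
    (a := algebraMap k S (-∏ j ∈ Finset.univ.erase l, (c l - c j)))
    (b := algebraMap k S (-∏ j ∈ Finset.univ.erase l, (c l - c j))⁻¹) ?_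
    (m := Fintype.card ι - 1) (by omega) ?_ hS hF hf.add hf.str hM
  · intro s
    rw [RingHom.comp_apply, psc_CC, thc_CC]
  · rw [RingHom.comp_apply, thc_psc_X, sub_self, map_zero, C_0, zero_mul]
  · rw [← map_mul, mul_inv_cancel₀ hne, map_one]
  · rw [RingHom.comp_apply, thc_psc_CX_eq]

/-- **The growth of the ranks.** -/
theorem growth (hS : Gen S) {F : S} (hF : F ≠ 0) {c : ι → k} (hc : Injective c)
    (hι : 2 ≤ Fintype.card ι) {e r r' : ℕ} (h : DualLe k (sus c F) (e + 1) r')
    (hr : r' < (Fintype.card ι - 1) * (r + 1)) : DualLe k F e r := by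
  intro κ _ f hκ hf
  have hne : Nonempty ι := Fintype.card_pos_iff.1 (by omega)
  obtain ⟨j0⟩ := hne
  set J := {j : ι // j ≠ j0} with hJ
  have hJc : Fintype.card J = Fintype.card ι - 1 := by
    have h1 := Fintype.card_subtype_compl (fun j : ι => j = j0)
    rw [Fintype.card_subtype_eq] at h1
    exact h1
  obtain ⟨c', hc', hv⟩ := h (κ × J) (fun p => res (psc c p.2.1) (lam F (f p.1)))
    (by
      rw [Fintype.card_prod, hJc]
      calc r' < (Fintype.card ι - 1) * (r + 1) := hr
        _ ≤ (Fintype.card ι - 1) * Fintype.card κ := Nat.mul_le_mul_left _ hκ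
        _ = _ := mul_comm _ _)
    (fun p => test_sus hS hF hc hι p.2.1 (hf p.1))
  -- the relations
  have hrel : ∀ (j : J) (M : Type) [AddCommGroup M] [Module S M], Adm F M →
      DimLe k (A := S) M (e + 1) →
      ∑ i, (∑ l, c' (i, l) - Fintype.card ι * c' (i, j)) * f i M = 0 := by
    intro j M _ _ hM hdM
    have h1 := @hv (PolynomialModule S M) _
      (Module.compHom (PolynomialModule S M) (thc (S := S) (c j.1)))
      ⟨res_finite (thc (S := S) (c j.1)) (RingHom.Finite.of_surjective _ (thc_surj (c j.1)))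
        (by have := hM.1; infer_instance),
        fun x => by
          change thc (c j.1) (sus c F) • x = 0
          rw [thc_sus, ← algebraMap_eq, algebraMap_smul]
          exact ext_coeff fun n => hM.2 _⟩ (dimLe_Tc (c j.1) hdM)
    rw [Fintype.sum_prod_type] at h1
    rw [← h1]
    refine Finset.sum_congr rfl fun i _ => ?_
    have h2 : ∀ l : J, c' (i, l) * res (thc (c j.1)) (res (psc c l.1) (lam F (f i)))
        (PolynomialModule S M) =
          c' (i, l) * f i M - (if l = j then Fintype.card ι * c' (i, l) * f i M else 0) := by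
      intro l
      by_cases hlj : l = j
      · subst hlj
        rw [val_eq hS hF hc hι l.1 (hf i) hM, if_pos rfl]
        have h3 : ((Fintype.card ι - 1 : ℕ) : ℚ) = Fintype.card ι - 1 := by
          rw [Nat.cast_sub (by omega), Nat.cast_one]
        rw [h3]
        ring
      · rw [val_ne hS hF hc (fun h => hlj (Subtype.ext h.symm)) (hf i) hM, if_neg hlj, sub_zero]
    have h3 : ∑ l : J, c' (i, l) * res (thc (c j.1)) (res (psc c l.1) (lam F (f i)))
        (PolynomialModule S M) = (∑ l, c' (i, l) - Fintype.card ι * c' (i, j)) * f i M := by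
      rw [Finset.sum_congr rfl (fun l _ => h2 l), Finset.sum_sub_distrib, Finset.sum_ite_eq',
        if_pos (Finset.mem_univ j), sub_mul, Finset.sum_mul]
    exact h3.symm
  by_contra hcon
  push Not at hcon
  have hz : ∀ j : J, (fun i => ∑ l, c' (i, l) - Fintype.card ι * c' (i, j)) = (0 : κ → ℚ) := by
    intro j
    by_contra hne
    obtain ⟨N, _, _, hN, hdN, h1⟩ := hcon _ hne
    exact h1 (hrel j N hN hdN)
  apply hc'
  funext ⟨i, j⟩
  have h1 : ∀ j : J, ∑ l, c' (i, l) = Fintype.card ι * c' (i, j) := fun j =>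
    sub_eq_zero.1 (congrFun (hz j) i)
  have h2 : (Fintype.card J : ℚ) * ∑ l, c' (i, l) = Fintype.card ι * ∑ l, c' (i, l) := by
    conv_rhs => rw [Finset.mul_sum]
    rw [← Finset.sum_congr rfl (fun j _ => h1 j), Finset.sum_const, Finset.card_univ,
      nsmul_eq_mul]
  have h3 : ∑ l, c' (i, l) = 0 := by
    rw [hJc, Nat.cast_sub (by omega), Nat.cast_one] at h2
    linarith
  have h4 := h1 j
  rw [h3] at h4
  have h5 : (Fintype.card ι : ℚ) ≠ 0 := by
    have : 0 < Fintype.card ι := by omega
    exact_mod_cast this.ne'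
  exact (mul_eq_zero.1 h4.symm).resolve_left h5

end growth

end Pool.Agent.W5h77.KH
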