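import Pool.Agent.W5h77.KH.Gen

set_option autoImplicit false

/-!
# Restriction along homomorphisms of rings
-/

namespace Pool.Agent.W5h77.KH

open Function Polynomial

section mu

variable {A : Type} [CommRing A] [IsNoetherianRing A] {G : A} {f : AddFun A}

/-- multiplication by `G` -/
lemma fred_smul (D : Type) [AddCommGroup D] [Module A D] (hD : Module.Finite A D) :
    Fred G (LinearMap.lsmul A D G) := by
  refine ⟨⟨inferInstance, ?_⟩, ⟨inferInstance, ?_⟩⟩
  · rintro ⟨m, hm⟩
    exact Subtype.ext hm
  · intro m
    obtain ⟨m, rfl⟩ := Submodule.mkQ_surjective _ m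
    rw [← map_smul]
    exact (Submodule.Quotient.mk_eq_zero _).2 ⟨m, rfl⟩

theorem mu_zero [IsDomain A] (hA : Gen A) (hG : G ≠ 0) (hf : IsAdditive G f)
    (h0 : f (A ⧸ Ideal.span {G}) = 0) (D : Type) [AddCommGroup D] [Module A D]
    (hD : Module.Finite A D) : chi f (LinearMap.lsmul A D G) = 0 := by
  refine hA (fun M _ _ => chi f (LinearMap.lsmul A M G)) ?_ ?_ D hD
  · intro M₁ M₂ M₃ _ _ _ _ _ _ i p hM hi hp hip
    have h2 := hM.1
    have h1 : Module.Finite A M₁ := Module.Finite.of_injective i hi
    have h3 : Module.Finite A M₃ := Module.Finite.of_surjective p hp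
    refine chi_add hf _ _ _ i p i p ?_ ?_ hi hp hip hi hp hip (fred_smul _ h1) (fred_smul _ h2)
      (fred_smul _ h3)
    · ext x
      simp
    · ext x
      simp
  · have h1 : Subsingleton (LinearMap.ker (LinearMap.lsmul A A G)) := by
      rw [Submodule.subsingleton_iff_eq_bot, LinearMap.ker_eq_bot']
      intro x hx
      exact (mul_eq_zero.1 (show G * x = 0 from hx)).resolve_left hG
    have h2 : LinearMap.range (LinearMap.lsmul A A G) = Ideal.span {G} := by
      ext x
      rw [Ideal.mem_span_singleton']
      constructor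
      · rintro ⟨y, rfl⟩
        exact ⟨y, mul_comm _ _⟩
      · rintro ⟨y, rfl⟩
        exact ⟨y, mul_comm _ _⟩
    change f _ - f _ = 0
    rw [f_zero hf, zero_sub, neg_eq_zero, h2, h0]

end mu

section res

variable {A B : Type} [CommRing A] [CommRing B]

/-- restriction: the value of `f` on the module over `A` obtained from a module over `B` -/
def res (φ : A →+* B) (f : AddFun A) : AddFun B := fun M _ _ => @f M _ (Module.compHom M φ)

/-- a linear map over `B` is linear over `A` -/
def resMap (φ : A →+* B) {M N : Type} [AddCommGroup M] [AddCommGroup N] [Module B M] [Module B N]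
    (i : M →ₗ[B] N) : @LinearMap A A _ _ (RingHom.id A) M N _ _ (Module.compHom M φ)
      (Module.compHom N φ) :=
  let := Module.compHom M φ
  let := Module.compHom N φ
  { toFun := i
    map_add' := i.map_add
    map_smul' := fun a m => i.map_smul (φ a) m }

lemma res_finite (φ : A →+* B) (hφ : φ.Finite) {M : Type} [AddCommGroup M] [Module B M]
    (h : Module.Finite B M) : @Module.Finite A M _ _ (Module.compHom M φ) := by
  let := φ.toAlgebra
  let := Module.compHom M φ
  have h1 : Module.Finite A B := hφ
  have h2 : IsScalarTower A B M := ⟨fun a b m => by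
    change (φ a * b) • m = φ a • (b • m)
    rw [mul_smul]⟩
  exact Module.Finite.trans B M

lemma res_adm {φ : A →+* B} (hφ : φ.Finite) {G : A} {M : Type} [AddCommGroup M] [Module B M]
    (h : Adm (φ G) M) : @Adm A _ G M _ (Module.compHom M φ) := by
  obtain ⟨h1, h2⟩ := h
  exact ⟨res_finite φ hφ h1, h2⟩

lemma res_additive {φ : A →+* B} (hφ : φ.Finite) {G : A} {f : AddFun A} (hf : IsAdditive G f) :
    IsAdditive (φ G) (res φ f) := by
  intro M₁ M₂ M₃ _ _ _ _ _ _ i p hM hi hp hip
  let := Module.compHom M₁ φ
  let := Module.compHom M₂ φ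
  let := Module.compHom M₃ φ
  exact hf M₁ M₂ M₃ (resMap φ i) (resMap φ p) (res_adm hφ hM) hi hp hip

lemma res_res {C : Type} [CommRing C] (φ : A →+* B) (ψ : B →+* C) (f : AddFun A) (M : Type)
    [AddCommGroup M] [Module C M] : res ψ (res φ f) M = res (ψ.comp φ) f M := rfl

lemma res_id (f : AddFun A) (M : Type) [AddCommGroup M] [Module A M] :
    res (RingHom.id A) f M = f M := rfl

lemma gen_equiv (e : A ≃+* B) (hA : Gen A) : Gen B := by
  intro g hg h0 M _ _ hM
  have hfin : (e.symm : B →+* A).Finite := RingHom.Finite.of_surjective _ e.symm.surjective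
  have hfin' : (e : A →+* B).Finite := RingHom.Finite.of_surjective _ e.surjective
  have h1 : IsAdditive (0 : A) (res (e.symm : B →+* A) g) := by
    have := res_additive hfin hg
    rwa [map_zero] at this
  have h2 : res (e.symm : B →+* A) g A = 0 := by
    rw [← h0]
    let := Module.compHom A (e.symm : B →+* A)
    refine f_iso hg (adm_zero inferInstance) ?_
    exact
      { toFun := e
        invFun := e.symm
        left_inv := e.symm_apply_apply
        right_inv := e.apply_symm_apply
        map_add' := e.map_add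
        map_smul' := fun b a => by
          change e (e.symm b * a) = b * e a
          rw [map_mul, e.apply_symm_apply] }
  have h3 := @hA (res (e.symm : B →+* A) g) h1 h2 M _ (Module.compHom M (e : A →+* B))
    (res_finite (e : A →+* B) hfin' hM)
  have h4 : res (e : A →+* B) (res (e.symm : B →+* A) g) M = 0 := h3
  rw [res_res] at h4
  have h5 : (e : A →+* B).comp (e.symm : B →+* A) = RingHom.id B := by
    ext x
    simp
  rw [h5, res_id] at h4
  exact h4

theorem gen_mv (k : Type) [Field k] (n : ℕ) : Gen (MvPolynomial (Fin n) k) := by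
  induction n with
  | zero => exact gen_equiv (MvPolynomial.isEmptyRingEquiv k (Fin 0)).symm (gen_field k)
  | succ n ih => exact gen_equiv (MvPolynomial.finSuccEquiv k n).symm.toRingEquiv (gen_poly ih)

end res

section dim

variable {k A B : Type} [Field k] [CommRing A] [CommRing B] [Algebra k A] [Algebra k B]

lemma mem_ann_res (φ : A →+* B) {M : Type} [AddCommGroup M] [Module B M] (a : A) :
    a ∈ @Module.annihilator A M _ _ (Module.compHom M φ) ↔ φ a ∈ Module.annihilator B M := by
  let := Module.compHom M φ
  rw [Module.mem_annihilator, Module.mem_annihilator]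
  exact Iff.rfl

lemma dimLe_res (φ : A →ₐ[k] B) (hφ : (φ : A →+* B).IsIntegral) {M : Type} [AddCommGroup M]
    [Module B M] {n : ℕ} (h : DimLe k (A := B) M n) :
    @DimLe k A _ _ _ M _ (Module.compHom M (φ : A →+* B)) n := by
  intro P hP hle
  let := (φ : A →+* B).toAlgebra
  have hint : Algebra.IsIntegral A B := ⟨hφ⟩
  obtain ⟨Q, hQ1, hQ2, hQ3⟩ := Ideal.exists_ideal_over_prime_of_isIntegral P
    (Module.annihilator B M) (fun a ha => hle ((mem_ann_res (φ : A →+* B) a).2 ha))
  refine le_trans ?_ (h Q hQ2 hQ1)
  have hle' : P ≤ Q.comap (φ : A →+* B) := by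
    rw [← hQ3]
    exact le_refl _
  have hge' : Q.comap (φ : A →+* B) ≤ P := by
    rw [← hQ3]
    exact le_refl _
  exact trdeg_le_of_injective (Ideal.quotientMapₐ Q φ hle')
    (Ideal.quotientMap_injective' (H := hle') hge')

end dim

end Pool.Agent.W5h77.KH
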