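import Pool.Agent.W5h77.KH.Van

set_option autoImplicit false

/-!
# From `F + u z ^ m - u ^ (m + 1)` to `F`
-/

namespace Pool.Agent.W5h77.KH

open Function Polynomial Cardinal

section maps

variable {S : Type} [CommRing S]

/-- the form `F + u z ^ m - u ^ (m + 1)`; the inner variable is `z` and the outer one is `u` -/
noncomputable def susp (m : ℕ) (F : S) : S[X][X] := C (C F) + X * (C X ^ m - X ^ m)

/-- the homomorphism with `u ↦ u` and `v ↦ u ^ m - z ^ m` -/
noncomputable def psi (m : ℕ) : S[X][X] →+* S[X][X] :=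
  eval₂RingHom (eval₂RingHom ((C : S[X] →+* S[X][X]).comp C) (X ^ m - C X ^ m)) X

/-- the homomorphism with `u ↦ X` and `z ↦ X` -/
noncomputable def theta : S[X][X] →+* S[X] := evalRingHom X

lemma psi_CC (m : ℕ) (s : S) : psi m (C (C s)) = C (C s) := by
  simp [psi]

lemma psi_CX (m : ℕ) : psi (S := S) m (C X) = X ^ m - C X ^ m := by
  simp [psi]

lemma psi_X (m : ℕ) : psi (S := S) m X = X := by
  simp [psi]

lemma theta_C (p : S[X]) : theta (C p) = p := by
  simp [theta]

lemma theta_X : theta (X : S[X][X]) = X := by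
  simp [theta]

lemma psi_eqn (m : ℕ) (F : S) : psi m (eqn F) = susp m F := by
  rw [eqn, susp, map_sub, map_mul, psi_CC, psi_CX, psi_X]
  ring

lemma theta_susp (m : ℕ) (F : S) : theta (susp m F) = C F := by
  rw [susp, map_add, map_mul, map_sub, map_pow, map_pow, theta_C, theta_C, theta_X, sub_self,
    mul_zero, add_zero]

lemma theta_psi_C (m : ℕ) (p : S[X]) : theta (psi m (C p)) = C (p.coeff 0) := by
  induction p using Polynomial.induction_on' with
  | add p q hp hq => rw [C_add, map_add, map_add, hp, hq, coeff_add, C_add]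
  | monomial n s =>
    rw [← C_mul_X_pow_eq_monomial, C_mul, C_pow, map_mul, map_pow, map_mul, map_pow, psi_CC, psi_CX,
      theta_C, map_sub, map_pow, map_pow, theta_C, theta_X, sub_self, coeff_C_mul, coeff_X_pow]
    by_cases hn : n = 0
    · subst hn
      simp
    · rw [zero_pow hn, if_neg (fun h => hn h.symm), mul_zero, mul_zero, C_0]

lemma finite_of_gen {A B : Type} [CommRing A] [CommRing B] (φ : A →+* B) (b : B)
    (hb : φ.IsIntegralElem b)
    (hgen : ∀ T : Subring B, (∀ a, φ a ∈ T) → b ∈ T → ∀ x, x ∈ T) : φ.Finite := by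
  let := φ.toAlgebra
  have h1 : IsIntegral A b := hb
  have h3 : Algebra.adjoin A {b} = ⊤ := by
    rw [eq_top_iff]
    intro g _
    exact hgen (Algebra.adjoin A {b}).toSubring
      (fun a => Subalgebra.algebraMap_mem (Algebra.adjoin A {b}) a)
      (Algebra.subset_adjoin rfl) g
  have h4 := h1.fg_adjoin_singleton
  rw [h3] at h4
  exact ⟨h4⟩

lemma psi_finite {m : ℕ} (hm : 1 ≤ m) : (psi (S := S) m).Finite := by
  refine finite_of_gen (psi m) (C X) ?_ ?_
  · have h2 : (X ^ m - C (X ^ m - C X : S[X][X]) : S[X][X][X]).Monic :=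
      monic_X_pow_sub_C _ (by omega)
    refine ⟨_, h2, ?_⟩
    rw [eval₂_sub, eval₂_pow, eval₂_X, eval₂_C]
    rw [map_sub, map_pow, psi_X, psi_CX]
    ring
  · intro T hT hCX g
    have hX : (X : S[X][X]) ∈ T := by
      have h4 := hT X
      rwa [psi_X] at h4
    have hCC : ∀ s : S, (C (C s) : S[X][X]) ∈ T := by
      intro s
      have h4 := hT (C (C s))
      rwa [psi_CC] at h4
    have hC : ∀ p : S[X], (C p : S[X][X]) ∈ T := by
      intro p
      induction p using Polynomial.induction_on' with
      | add p q hp hq => rw [C_add]; exact add_mem hp hq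
      | monomial n s =>
        rw [← C_mul_X_pow_eq_monomial, C_mul, C_pow]
        exact mul_mem (hCC s) (pow_mem hCX n)
    induction g using Polynomial.induction_on' with
    | add p q hp hq => exact add_mem hp hq
    | monomial n p =>
      rw [← C_mul_X_pow_eq_monomial]
      exact mul_mem (hC p) (pow_mem hX n)

lemma susp_ne_zero [IsDomain S] {m : ℕ} {F : S} (hF : F ≠ 0) : susp m F ≠ 0 := by
  intro h
  have h1 := theta_susp m F
  rw [h, map_zero] at h1
  exact hF (C_injective (by rw [← h1, C_0]))

end maps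

section T

variable {k S : Type} [Field k] [CommRing S] [Algebra k S]

lemma trdeg_poly (B : Type) [CommRing B] [IsDomain B] [Algebra k B] :
    Algebra.trdeg k B[X] = Algebra.trdeg k B + 1 := by
  rw [← trdeg_add_eq k B (A := B[X]), Polynomial.trdeg_of_isDomain]

lemma dimLe_T {M : Type} [AddCommGroup M] [Module S M] {n : ℕ} (h : DimLe k (A := S) M n) :
    @DimLe k S[X][X] _ _ _ (PolynomialModule S M) _
      (Module.compHom (PolynomialModule S M) (theta (S := S))) (n + 1) := by
  intro P hP hle
  have hmem : ∀ a : S[X][X], (∀ x : PolynomialModule S M, theta a • x = 0) → a ∈ P := by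
    intro a ha
    refine hle ?_
    rw [mem_ann_res, Module.mem_annihilator]
    exact ha
  have hC : ∀ c : k, ((C : S[X] →+* S[X][X]).comp (C : S →+* S[X])) (algebraMap k S c) =
      algebraMap k S[X][X] c := fun c => rfl
  set φ : S →ₐ[k] S[X][X] := ⟨(C : S[X] →+* S[X][X]).comp (C : S →+* S[X]), hC⟩ with hφ
  set p : Ideal S := P.comap φ with hp
  have hpp : p.IsPrime := Ideal.comap_isPrime φ P
  have hann : Module.annihilator S M ≤ p := by
    intro s hs
    refine hmem _ fun x => ?_
    change theta (C (C s)) • x = 0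
    rw [theta_C, ← algebraMap_eq, algebraMap_smul]
    refine ext_coeff fun n => ?_
    exact Module.mem_annihilator.1 hs (x.coeff n)
  have hd := h p hpp hann
  have hXX : (C X - X : S[X][X]) ∈ P := by
    refine hmem _ fun x => ?_
    rw [map_sub, theta_C, theta_X, sub_self, zero_smul]
  set π : (S ⧸ p) →ₐ[k] (S[X][X] ⧸ P) := Ideal.quotientMapₐ P φ le_rfl with hπ
  have hσc : ∀ c : k, eval₂RingHom (π : (S ⧸ p) →+* (S[X][X] ⧸ P)) (Ideal.Quotient.mk P X)
      (algebraMap k (S ⧸ p)[X] c) = algebraMap k (S[X][X] ⧸ P) c := by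
    intro c
    rw [IsScalarTower.algebraMap_apply k (S ⧸ p) (S ⧸ p)[X], algebraMap_eq, coe_eval₂RingHom,
      eval₂_C]
    exact π.commutes c
  set σ : (S ⧸ p)[X] →ₐ[k] (S[X][X] ⧸ P) :=
    ⟨eval₂RingHom (π : (S ⧸ p) →+* (S[X][X] ⧸ P)) (Ideal.Quotient.mk P X), hσc⟩ with hσ
  have h1 : ∀ s : S, σ (C (Ideal.Quotient.mk p s)) = Ideal.Quotient.mk P (C (C s)) := by
    intro s
    change eval₂RingHom (π : (S ⧸ p) →+* (S[X][X] ⧸ P)) (Ideal.Quotient.mk P X) _ = _
    rw [coe_eval₂RingHom, eval₂_C]
    rfl
  have h2 : σ X = Ideal.Quotient.mk P X := by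
    change eval₂RingHom (π : (S ⧸ p) →+* (S[X][X] ⧸ P)) (Ideal.Quotient.mk P X) _ = _
    rw [coe_eval₂RingHom, eval₂_X]
  have h3 : σ X = Ideal.Quotient.mk P (C X) := by
    rw [h2, eq_comm, Ideal.Quotient.eq]
    exact hXX
  have hC' : ∀ q : S[X], Ideal.Quotient.mk P (C q) ∈ σ.range := by
    intro q
    induction q using Polynomial.induction_on' with
    | add a b ha hb => rw [C_add, map_add]; exact add_mem ha hb
    | monomial n s =>
      rw [← C_mul_X_pow_eq_monomial, C_mul, C_pow, map_mul, map_pow, ← h1, ← h3]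
      exact mul_mem (AlgHom.mem_range_self σ _) (pow_mem (AlgHom.mem_range_self σ _) n)
  have hsurj : Surjective σ := by
    intro g
    obtain ⟨g, rfl⟩ := Ideal.Quotient.mk_surjective g
    change Ideal.Quotient.mk P g ∈ σ.range
    induction g using Polynomial.induction_on' with
    | add a b ha hb => rw [map_add]; exact add_mem ha hb
    | monomial n q =>
      rw [← C_mul_X_pow_eq_monomial, map_mul, map_pow, ← h2]
      exact mul_mem (hC' q) (pow_mem (AlgHom.mem_range_self σ _) n)
  refine (trdeg_le_of_surjective σ hsurj).trans ?_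
  rw [trdeg_poly]
  push_cast
  exact add_le_add_left hd 1

end T

section TM

/-- the module `M[X]` as a module over `S[v][u]` -/
def TM (_m : ℕ) (S M : Type) [CommRing S] [AddCommGroup M] [Module S M] : Type :=
  PolynomialModule S M

variable {S : Type} [CommRing S] {m : ℕ} {M : Type} [AddCommGroup M] [Module S M]

noncomputable instance : AddCommGroup (TM m S M) := inferInstanceAs (AddCommGroup (PolynomialModule S M))

noncomputable instance : Module S[X][X] (TM m S M) :=
  Module.compHom (PolynomialModule S M) ((theta (S := S)).comp (psi m))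

noncomputable instance : Module S[X] (TM m S M) := modX (S := S) (TM m S M)

noncomputable instance : Module S (TM m S M) := modS (S := S) (TM m S M)

instance : IsScalarTower S[X] S[X][X] (TM m S M) := towX (S := S) (TM m S M)

instance : IsScalarTower S S[X] (TM m S M) := towS (S := S) (TM m S M)

/-- the underlying polynomial -/
def toP (x : TM m S M) : PolynomialModule S M := x

/-- the coefficients -/
noncomputable def cf (x : TM m S M) (n : ℕ) : M := (toP x).coeff n

lemma toP_smul (a : S[X][X]) (x : TM m S M) : toP (a • x) = theta (psi m a) • toP x := rfl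

lemma toP_smul' (a : S[X]) (x : TM m S M) : toP (a • x) = theta (psi m (C a)) • toP x := rfl

/-- the monomials -/
noncomputable def sg (m : ℕ) (n : ℕ) (y : M) : TM m S M := PolynomialModule.single S n y

lemma cf_sg (n : ℕ) (y : M) (i : ℕ) : cf (sg (S := S) m n y) i = if n = i then y else 0 := by
  change (PolynomialModule.single S n y).coeff i = _
  rw [PolynomialModule.coeff_single, Finsupp.single_apply]

lemma cf_ext {x y : TM m S M} (h : ∀ n, cf x n = cf y n) : x = y := ext_coeff h

lemma cf_add (x y : TM m S M) (n : ℕ) : cf (x + y) n = cf x n + cf y n := rfl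

lemma cf_zero (n : ℕ) : cf (0 : TM m S M) n = 0 := rfl

lemma smulX (p : S[X]) (x : TM m S M) (n : ℕ) : cf (p • x) n = p.coeff 0 • cf x n := by
  rw [cf, toP_smul', theta_psi_C, ← algebraMap_eq, algebraMap_smul]
  rfl

lemma smulS (s : S) (x : TM m S M) (n : ℕ) : cf (s • x) n = s • cf x n := by
  rw [← algebraMap_smul S[X] s x, smulX]
  rw [algebraMap_eq, coeff_C_zero]

lemma X_sg (n : ℕ) (y : M) : (X : S[X][X]) • (sg m n y : TM m S M) = sg m (n + 1) y := by
  have h1 : toP ((X : S[X][X]) • (sg m n y : TM m S M)) = toP (sg m (n + 1) y : TM m S M) := by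
    rw [toP_smul, psi_X, theta_X]
    change (X : S[X]) • PolynomialModule.single S n y = PolynomialModule.single S (n + 1) y
    rw [X, PolynomialModule.monomial_smul_single, one_smul, add_comm]
  exact h1

lemma TM_induction {p : TM m S M → Prop} (x : TM m S M) (h0 : p 0)
    (ha : ∀ x y, p x → p y → p (x + y)) (hs : ∀ n y, p (sg m n y)) : p x :=
  PolynomialModule.induction_linear (R := S) (M := M) (p := p) x h0 ha hs

lemma cf_X_succ (x : TM m S M) (n : ℕ) : cf ((X : S[X][X]) • x) (n + 1) = cf x n := by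
  induction x using TM_induction with
  | h0 => rw [smul_zero]; rfl
  | ha x y hx hy => rw [smul_add, cf_add, cf_add, hx, hy]
  | hs i y =>
    rw [X_sg, cf_sg, cf_sg]
    simp

/-- the constants -/
noncomputable def Qc (m : ℕ) (S M : Type) [CommRing S] [AddCommGroup M] [Module S M] :
    Submodule S[X] (TM m S M) where
  carrier := {x | ∀ n, cf x (n + 1) = 0}
  add_mem' {x y} hx hy n := by rw [cf_add, hx n, hy n, add_zero]
  zero_mem' n := rfl
  smul_mem' p x hx n := by rw [smulX, hx n, smul_zero]

/-- the constants are `M` -/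
noncomputable def eqc : M →ₗ[S] Qc m S M where
  toFun y := ⟨sg m 0 y, fun n => by rw [cf_sg, if_neg (by omega)]⟩
  map_add' x y := Subtype.ext (PolynomialModule.single_add (R := S) 0 x y)
  map_smul' s y := Subtype.ext (cf_ext fun n => by
    change cf (sg m 0 (s • y)) n = cf (s • (sg m 0 y : TM m S M)) n
    rw [smulS, cf_sg, cf_sg]
    split_ifs
    · rfl
    · rw [smul_zero])

lemma eqc_bij : Bijective (eqc (m := m) (S := S) (M := M)) := by
  constructor
  · intro x y hxy
    have h1 := congrArg (fun z => cf z.1 0) hxy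
    change cf (sg m 0 x : TM m S M) 0 = cf (sg m 0 y : TM m S M) 0 at h1
    rw [cf_sg, cf_sg] at h1
    simpa using h1
  · rintro ⟨x, hx⟩
    refine ⟨cf x 0, Subtype.ext (cf_ext fun n => ?_)⟩
    change cf (sg m 0 (cf x 0) : TM m S M) n = cf x n
    rw [cf_sg]
    cases n with
    | zero => simp
    | succ n => rw [if_neg (by omega), hx n]

lemma good_Qc [Module.Finite S M] : Good (uX (S := S) (TM m S M)) (Qc m S M) := by
  have hc : ∀ x : TM m S M, uX (S := S) (TM m S M) x ∈ Qc m S M → x = 0 := by
    intro x hx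
    refine cf_ext fun n => ?_
    rw [← cf_X_succ]
    exact hx n
  refine ⟨?_, ?_, ?_⟩
  · have h1 : Module.Finite S (Qc m S M) := Module.Finite.of_surjective eqc eqc_bij.2
    have h2 : Module.Finite S[X] (Qc m S M) := Module.Finite.of_restrictScalars_finite S S[X] _
    exact Module.Finite.iff_fg.1 h2
  · intro x hx
    rw [hc x hx]
    exact zero_mem _
  · intro x
    induction x using TM_induction with
    | h0 => exact ⟨0, zero_mem _⟩
    | ha x y hx hy =>
      obtain ⟨i, hi⟩ := hx
      obtain ⟨j, hj⟩ := hy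
      exact ⟨max i j, add_mem (sq_mono _ _ (le_max_left _ _) hi) (sq_mono _ _ (le_max_right _ _) hj)⟩
    | hs n y =>
      refine ⟨n, ?_⟩
      induction n with
      | zero => exact (eqc (m := m) (S := S) y).2
      | succ n ih =>
        refine Submodule.mem_sup_right ⟨_, ih, ?_⟩
        exact X_sg n y

theorem lam_TM [IsNoetherianRing S] [IsDomain S] (hS : Gen S) {F : S} (hF : F ≠ 0) {f : AddFun S}
    (hf : IsAdditive F f) (h0 : f (S ⧸ Ideal.span {F}) = 0) (hM : Adm F M) :
    lam F f (TM m S M) = f M := by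
  have hfin := hM.1
  have hkill : ∀ x : TM m S M, eqn F • x = 0 := by
    intro x
    have h1 : toP (eqn F • x) = toP (0 : TM m S M) := by
      rw [toP_smul, psi_eqn, theta_susp, ← algebraMap_eq, algebraMap_smul]
      exact ext_coeff fun n => hM.2 _
    exact h1
  have hX : ∀ x : TM m S M, (X : S[X]) • x = 0 := fun x => cf_ext fun n => by
    rw [smulX, coeff_X_zero, zero_smul, cf_zero]
  have hg : Good (uX (S := S) (TM m S M)) (Qc m S M) := good_Qc
  have hsub : Subsingleton ((Qc m S M).comap (uX (S := S) (TM m S M))) := by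
    refine ⟨fun a b => Subtype.ext (cf_ext fun n => ?_)⟩
    have ha := a.2 n
    have hb := b.2 n
    change cf ((X : S[X][X]) • a.1) (n + 1) = 0 at ha
    change cf ((X : S[X][X]) • b.1) (n + 1) = 0 at hb
    rw [cf_X_succ] at ha hb
    rw [ha, hb]
  have hQ : Adm F (Qc m S M) := hM.quot eqc eqc_bij.2
  rw [lam_eq hS hF hf h0 hkill hg, chi_zero hf hQ adm_of_subsingleton _
    (fun x => Subtype.ext (hX x.1)),
    f_zero hf (M := (Qc m S M).comap (uX (S := S) (TM m S M))), sub_zero]
  exact (f_iso hf hQ (LinearEquiv.ofBijective eqc eqc_bij)).symm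

end TM

section struct

lemma struct_res {A B : Type} [CommRing A] [IsNoetherianRing A] [IsDomain A] [CommRing B]
    [IsDomain B] (φ : A →+* B) (hφ : φ.Finite) (hA : Gen A) {G : A} (hG : G ≠ 0) {f : AddFun A}
    (hf : IsAdditive G f) (h0 : f (A ⧸ Ideal.span {G}) = 0) (hG' : φ G ≠ 0) :
    res φ f (B ⧸ Ideal.span {φ G}) = 0 := by
  let i2 : Module A B := Module.compHom B φ
  let i3 : Module A (B ⧸ Ideal.span {φ G}) := Module.compHom (B ⧸ Ideal.span {φ G}) φ
  have h1 : chi f (LinearMap.lsmul A B G) = 0 :=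
    mu_zero hA hG hf h0 B (res_finite φ hφ inferInstance)
  have hs : Subsingleton (LinearMap.ker (LinearMap.lsmul A B G)) := by
    rw [Submodule.subsingleton_iff_eq_bot, LinearMap.ker_eq_bot']
    intro x hx
    exact (mul_eq_zero.1 (show φ G * x = 0 from hx)).resolve_left hG'
  set π : B →ₗ[A] (B ⧸ Ideal.span {φ G}) := resMap φ (Submodule.mkQ (Ideal.span {φ G})) with hπ
  have hπs : Surjective π := Submodule.mkQ_surjective (Ideal.span {φ G})
  have hk : LinearMap.ker π = LinearMap.range (LinearMap.lsmul A B G) := by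
    ext x
    constructor
    · intro hx
      have h2 : x ∈ Ideal.span {φ G} := (Submodule.Quotient.mk_eq_zero _).1 hx
      obtain ⟨y, rfl⟩ := Ideal.mem_span_singleton'.1 h2
      exact ⟨y, mul_comm _ _⟩
    · rintro ⟨y, rfl⟩
      exact (Submodule.Quotient.mk_eq_zero _).2 (Ideal.mem_span_singleton'.2 ⟨y, mul_comm _ _⟩)
  have hadm : Adm G (B ⧸ Ideal.span {φ G}) := by
    refine res_adm hφ ⟨inferInstance, fun m => ?_⟩
    obtain ⟨m, rfl⟩ := Submodule.mkQ_surjective _ m
    rw [← map_smul]
    exact (Submodule.Quotient.mk_eq_zero _).2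
      (Ideal.mul_mem_right _ _ (Ideal.mem_span_singleton_self _))
  have e : (B ⧸ LinearMap.range (LinearMap.lsmul A B G)) ≃ₗ[A] (B ⧸ Ideal.span {φ G}) :=
    (Submodule.quotEquivOfEq _ _ hk.symm).trans (π.quotKerEquivOfSurjective hπs)
  have h2 : f (B ⧸ LinearMap.range (LinearMap.lsmul A B G)) = f (B ⧸ Ideal.span {φ G}) :=
    f_iso hf hadm e
  unfold chi at h1
  rw [f_zero hf, h2, zero_sub, neg_eq_zero] at h1
  exact h1

end struct

section descend

variable {k S : Type} [Field k] [CommRing S] [Algebra k S]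

/-- **The descent.** -/
theorem descend [IsNoetherianRing S] [IsDomain S] (hS : Gen S) {F : S} (hF : F ≠ 0) {m : ℕ}
    (hm : 1 ≤ m) {e : ℕ} (h : Spanned k (susp m F) (e + 1)) : Spanned k F e := by
  intro f hf h0 hv M _ _ hM hdM
  have hfin := psi_finite (S := S) hm
  have hla := lam_additive hS hF hf h0
  set g : AddFun S[X][X] := res (psi m) (lam F f) with hg
  have hga : IsAdditive (susp m F) g := by
    have h1 := res_additive hfin hla
    rw [psi_eqn] at h1
    exact h1
  have hA : ∀ (N : Type) [AddCommGroup N] [Module S[X][X] N], Adm (susp m F) N →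
      @Adm S[X][X] _ (eqn F) N _ (Module.compHom N (psi (S := S) m)) := by
    intro N _ _ hN
    rw [← psi_eqn] at hN
    exact res_adm hfin hN
  have hgv : ∀ (N : Type) [AddCommGroup N] [Module S[X][X] N], Adm (susp m F) N →
      DimLe k (A := S[X][X]) N (e + 1) → g N = 0 := by
    intro N _ _ hN hd
    have hk : ∀ c : k, psi m (algebraMap k S[X][X] c) = algebraMap k S[X][X] c :=
      fun c => psi_CC m (algebraMap k S c)
    have h2 := dimLe_res (⟨psi m, hk⟩ : S[X][X] →ₐ[k] S[X][X]) hfin.to_isIntegral hd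
    have h3 := hA N hN
    let := Module.compHom N (psi (S := S) m)
    exact lam_dim hS hF hf h0 hv N h3 h2
  have hg0 : g (S[X][X] ⧸ Ideal.span {susp m F}) = 0 := by
    have hSS : Gen S[X][X] := gen_poly (gen_poly hS)
    have h2 : eqn F ≠ 0 := by
      intro h3
      have h4 := psi_eqn m F
      rw [h3, map_zero] at h4
      exact susp_ne_zero hF h4.symm
    have h3 := struct_res (psi m) hfin hSS h2 hla (lam_struct hS hF hf h0)
      (by rw [psi_eqn]; exact susp_ne_zero hF)
    rw [psi_eqn] at h3
    exact h3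
  have hT := @h g hga hg0 hgv (PolynomialModule S M) _
    (Module.compHom (PolynomialModule S M) (theta (S := S))) ?_ (dimLe_T hdM)
  · rw [← lam_TM (m := m) hS hF hf h0 hM]
    exact hT
  · have hMf := hM.1
    refine ⟨?_, ?_⟩
    · exact res_finite (theta (S := S)) (RingHom.Finite.of_surjective _
        (fun p => ⟨C p, theta_C p⟩)) inferInstance
    · intro x
      change theta (susp m F) • x = 0
      rw [theta_susp, ← algebraMap_eq, algebraMap_smul]
      exact ext_coeff fun n => hM.2 _

end descend

end Pool.Agent.W5h77.KH
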