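import Pool.Agent.W5h77.KH.Forms2

set_option autoImplicit false

/-!
# Towers of hypersurfaces with hyperplane sections which are cones
-/

namespace Pool.Agent.W5h77.KH

open Function MvPolynomial

variable {k : Type} [Field k]

/-- The hypersurface `F' = 0` has `m` hyperplane sections which are cones over `F = 0`: one has
`F' = F + G`, where `G` is a polynomial in the variables of `F` and in two more variables `u`, `z`
(these are the variables `0` and `1`), and for `m ≤ d - 1` different constants `c_l` the polynomial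
`G` is the product of `z - c_l u` and of a form `Q_l` of degree `d - 1` which does not vanish at
the vertex, the point with `u = 1`, `z = c_l` at which the variables of `F` vanish. -/
def ConeStep (d m : ℕ) {N : ℕ} (F : MvPolynomial (Fin N) k) (F' : MvPolynomial (Fin (N + 2)) k) :
    Prop :=
  m ≤ d - 1 ∧ ∃ (c : Fin m → k) (G : MvPolynomial (Fin (N + 2)) k)
    (Q : Fin m → MvPolynomial (Fin (N + 2)) k), Injective c ∧
    F' = rename (fun i : Fin N => i.succ.succ) F + G ∧ ∀ l, (Q l).IsHomogeneous (d - 1) ∧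
      G = (X 1 - C (c l) * X 0) * Q l ∧ eval (vertex (c l) N) (Q l) ≠ 0

lemma ConeStep.ne_zero {d m : ℕ} (hm : 1 ≤ m) {N : ℕ} {F : MvPolynomial (Fin N) k}
    {F' : MvPolynomial (Fin (N + 2)) k} (h : ConeStep d m F F') (hF : F ≠ 0) : F' ≠ 0 := by
  obtain ⟨_, c, G, Q, _, h1, h2⟩ := h
  intro h3
  set l : Fin m := ⟨0, hm⟩ with hl
  have h4 : equiv2 k N F' = Polynomial.C (Polynomial.C F) + equiv2 k N G := by
    rw [h1, map_add, equiv2_rename]
  have h5 : equiv2 k N G = ell (c l) * kap (c l) (equiv2 k N (aeval (sbs (c l) N) (Q l))) := by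
    rw [kap_equiv2, (h2 l).2.1, map_mul, map_sub, map_mul, equiv2_X1, equiv2_X0, equiv2_C]
    rfl
  rw [h3, map_zero] at h4
  exact sum_ne_zero h5 hF h4.symm

lemma cone_step {d m : ℕ} (hd : 2 ≤ d) {N : ℕ} {F : MvPolynomial (Fin N) k}
    {F' : MvPolynomial (Fin (N + 2)) k} (h : ConeStep d m F F') (hF : F ≠ 0) {e r b : ℕ}
    (h' : DualLe k F' (e + 1) b) (hb : b < m * (r + 1)) : DualLe k F e r := by
  obtain ⟨hm, c, G, Q, hc, h1, h2⟩ := h
  rw [h1] at h'
  exact cones_form (by omega) hF hm hc (fun l => (h2 l).1) (fun l => (h2 l).2.1)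
    (fun l => (h2 l).2.2) h' hb

/-- **Towers.** -/
theorem tower {d : ℕ} (hd : 2 ≤ d) {N : ℕ} (F : (s : ℕ) → MvPolynomial (Fin (N + 2 * s)) k)
    (m : ℕ → ℕ) (hF : F 0 ≠ 0) {e : ℕ} (t : ℕ) :
    (∀ s, s < t → ConeStep d (m s) (F s) (F (s + 1))) → (∀ s, s < t → 1 ≤ m s) →
      F t ≠ 0 ∧ ∀ b r : ℕ, DualLe k (F t) (e + t) b → b < (∏ s ∈ Finset.range t, m s) * (r + 1) →
        DualLe k (F 0) e r := by
  induction t with
  | zero =>
    intro _ _
    refine ⟨hF, fun b r h hb => ?_⟩
    rw [Finset.prod_range_zero, one_mul] at hb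
    intro κ _ f hκ hf
    exact h κ f (by omega) hf
  | succ t ih =>
    intro hs hm
    obtain ⟨ih1, ih2⟩ := ih (fun s hst => hs s (by omega)) (fun s hst => hm s (by omega))
    have hstep := hs t (Nat.lt_succ_self t)
    refine ⟨hstep.ne_zero (hm t (Nat.lt_succ_self t)) ih1, fun b r h hb => ?_⟩
    set p := (∏ s ∈ Finset.range t, m s) * (r + 1) with hp
    have hpos : 0 < p := by
      refine Nat.mul_pos (Finset.prod_pos fun s hs' => ?_) (Nat.succ_pos r)
      exact hm s (by have := Finset.mem_range.1 hs'; omega)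
    refine ih2 (p - 1) r ?_ (by omega)
    refine cone_step hd hstep ih1 (e := e + t) h ?_
    have h1 : p - 1 + 1 = p := by omega
    rw [h1, hp, ← mul_assoc, mul_comm (m t), ← Finset.prod_range_succ]
    exact hb

end Pool.Agent.W5h77.KH
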