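import Pool.Agent.W5h77.KH.Growth

set_option autoImplicit false

/-!
# The values on the modules `M[X]`
-/

namespace Pool.Agent.W5h77.KH

open Function Polynomial Cardinal

section TR

/-- the module `M[X]` as a module over `S[v][u]` by means of `ρ` -/
def TR {S : Type} [CommRing S] (_ρ : S[X][X] →+* S[X]) (M : Type) [AddCommGroup M] [Module S M] :
    Type := PolynomialModule S M

variable {S : Type} [CommRing S] {ρ : S[X][X] →+* S[X]} {M : Type} [AddCommGroup M] [Module S M]

noncomputable instance : AddCommGroup (TR ρ M) :=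
  inferInstanceAs (AddCommGroup (PolynomialModule S M))

noncomputable instance : Module S[X][X] (TR ρ M) := Module.compHom (PolynomialModule S M) ρ

noncomputable instance : Module S[X] (TR ρ M) := modX (S := S) (TR ρ M)

noncomputable instance : Module S (TR ρ M) := modS (S := S) (TR ρ M)

instance : IsScalarTower S[X] S[X][X] (TR ρ M) := towX (S := S) (TR ρ M)

instance : IsScalarTower S S[X] (TR ρ M) := towS (S := S) (TR ρ M)

/-- the underlying polynomial -/
def toQ (x : TR ρ M) : PolynomialModule S M := x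

/-- the coefficients -/
noncomputable def cg (x : TR ρ M) (n : ℕ) : M := (toQ x).coeff n

lemma toQ_smul (a : S[X][X]) (x : TR ρ M) : toQ (a • x) = ρ a • toQ x := rfl

lemma toQ_smul' (a : S[X]) (x : TR ρ M) : toQ (a • x) = ρ (C a) • toQ x := rfl

lemma toQ_smul'' (a : S) (x : TR ρ M) : toQ (a • x) = ρ (C (C a)) • toQ x := rfl

variable (ρ) in
/-- the monomials -/
noncomputable def mn (n : ℕ) (y : M) : TR ρ M := PolynomialModule.single S n y

lemma cg_mn (n : ℕ) (y : M) (i : ℕ) : cg (mn ρ n y) i = if n = i then y else 0 := by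
  change (PolynomialModule.single S n y).coeff i = _
  rw [PolynomialModule.coeff_single, Finsupp.single_apply]

lemma cg_ext {x y : TR ρ M} (h : ∀ n, cg x n = cg y n) : x = y := ext_coeff h

lemma cg_add (x y : TR ρ M) (n : ℕ) : cg (x + y) n = cg x n + cg y n := rfl

lemma cg_zero (n : ℕ) : cg (0 : TR ρ M) n = 0 := rfl

lemma coeff_mon_smul (a : S) (m : ℕ) (x : PolynomialModule S M) (n : ℕ) :
    ((C a * X ^ m : S[X]) • x).coeff n = if m ≤ n then a • x.coeff (n - m) else 0 := by
  rw [C_mul_X_pow_eq_monomial, PolynomialModule.monomial_smul_apply]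

lemma TR_induction {p : TR ρ M → Prop} (x : TR ρ M) (h0 : p 0)
    (ha : ∀ x y, p x → p y → p (x + y)) (hs : ∀ n y, p (mn ρ n y)) : p x :=
  PolynomialModule.induction_linear (R := S) (M := M) (p := p) x h0 ha hs

variable (hCC : ∀ s : S, ρ (C (C s)) = C s)

include hCC in
lemma cg_smulS (s : S) (x : TR ρ M) (n : ℕ) : cg (s • x) n = s • cg x n := by
  rw [cg, toQ_smul'', hCC, ← algebraMap_eq, algebraMap_smul]
  rfl

section one

variable (hv : ρ (C X) = 0)

include hCC hv in
lemma rho_C (p : S[X]) : ρ (C p) = C (p.coeff 0) := by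
  induction p using Polynomial.induction_on' with
  | add p q hp hq => rw [C_add, map_add, hp, hq, coeff_add, C_add]
  | monomial n s =>
    rw [← C_mul_X_pow_eq_monomial, C_mul, C_pow, map_mul, map_pow, hCC, hv, coeff_C_mul,
      coeff_X_pow]
    by_cases hn : n = 0
    · subst hn
      simp
    · rw [zero_pow hn, if_neg (fun h => hn h.symm), mul_zero, mul_zero, C_0]

include hCC hv in
lemma cg_smulX (p : S[X]) (x : TR ρ M) (n : ℕ) : cg (p • x) n = p.coeff 0 • cg x n := by
  rw [cg, toQ_smul', rho_C hCC hv, ← algebraMap_eq, algebraMap_smul]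
  rfl

variable {a b : S} (hab : a * b = 1) (hu : ρ X = C a * X)

include hu in
lemma cg_X (x : TR ρ M) (n : ℕ) : cg ((X : S[X][X]) • x) (n + 1) = a • cg x n := by
  rw [cg, toQ_smul, hu]
  have h := coeff_mon_smul a 1 (toQ x) (n + 1)
  rw [pow_one] at h
  rw [h, if_pos (by omega), Nat.add_sub_cancel]
  rfl

include hu in
lemma cg_X0 (x : TR ρ M) : cg ((X : S[X][X]) • x) 0 = 0 := by
  rw [cg, toQ_smul, hu]
  have h := coeff_mon_smul a 1 (toQ x) 0
  rw [pow_one] at h
  rw [h, if_neg (by omega)]

/-- the constants -/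
noncomputable def Qk (hCC : ∀ s : S, ρ (C (C s)) = C s) (hv : ρ (C X) = 0) (M : Type)
    [AddCommGroup M] [Module S M] : Submodule S[X] (TR ρ M) where
  carrier := {x | ∀ n, cg x (n + 1) = 0}
  add_mem' {x y} hx hy n := by rw [cg_add, hx n, hy n, add_zero]
  zero_mem' n := rfl
  smul_mem' p x hx n := by rw [cg_smulX hCC hv, hx n, smul_zero]

/-- the constants are `M` -/
noncomputable def eqk (hCC : ∀ s : S, ρ (C (C s)) = C s) (hv : ρ (C X) = 0) (M : Type)
    [AddCommGroup M] [Module S M] : M →ₗ[S] Qk hCC hv M where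
  toFun y := ⟨mn ρ 0 y, fun n => by rw [cg_mn, if_neg (by omega)]⟩
  map_add' x y := Subtype.ext (PolynomialModule.single_add (R := S) 0 x y)
  map_smul' s y := Subtype.ext (cg_ext fun n => by
    change cg (mn ρ 0 (s • y)) n = cg (s • (mn ρ 0 y : TR ρ M)) n
    rw [cg_smulS hCC, cg_mn, cg_mn]
    split_ifs
    · rfl
    · rw [smul_zero])

lemma eqk_bij : Bijective (eqk hCC hv M) := by
  constructor
  · intro x y hxy
    have h1 := congrArg (fun z => cg z.1 0) hxy
    change cg (mn ρ 0 x : TR ρ M) 0 = cg (mn ρ 0 y : TR ρ M) 0 at h1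
    rw [cg_mn, cg_mn] at h1
    simpa using h1
  · rintro ⟨x, hx⟩
    refine ⟨cg x 0, Subtype.ext (cg_ext fun n => ?_)⟩
    change cg (mn ρ 0 (cg x 0) : TR ρ M) n = cg x n
    rw [cg_mn]
    cases n with
    | zero => simp
    | succ n => rw [if_neg (by omega), hx n]

include hab hu in
lemma mem_Qk (x : TR ρ M) (hx : (X : S[X][X]) • x ∈ Qk hCC hv M) : x = 0 := by
  refine cg_ext fun n => ?_
  have h1 : cg ((X : S[X][X]) • x) (n + 1) = 0 := hx n
  rw [cg_X hu] at h1
  rw [cg_zero, ← one_smul S (cg x n), ← hab, mul_comm, mul_smul, h1, smul_zero]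

include hab hu in
lemma good_Qk [Module.Finite S M] : Good (uX (S := S) (TR ρ M)) (Qk hCC hv M) := by
  refine ⟨?_, ?_, ?_⟩
  · have h1 : Module.Finite S (Qk hCC hv M) :=
      Module.Finite.of_surjective (eqk hCC hv M) (eqk_bij hCC hv).2
    have h2 : Module.Finite S[X] (Qk hCC hv M) :=
      Module.Finite.of_restrictScalars_finite S S[X] _
    exact Module.Finite.iff_fg.1 h2
  · intro x hx
    rw [mem_Qk hCC hv hab hu x hx]
    exact zero_mem _
  · intro x
    induction x using TR_induction with
    | h0 => exact ⟨0, zero_mem _⟩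
    | ha x y hx hy =>
      obtain ⟨i, hi⟩ := hx
      obtain ⟨j, hj⟩ := hy
      exact ⟨max i j, add_mem (sq_mono _ _ (le_max_left _ _) hi) (sq_mono _ _ (le_max_right _ _) hj)⟩
    | hs n y =>
      refine ⟨n, ?_⟩
      induction n generalizing y with
      | zero => exact (eqk hCC hv M y).2
      | succ n ih =>
        refine Submodule.mem_sup_right ⟨_, ih (b • y), ?_⟩
        refine cg_ext fun i => ?_
        change cg ((X : S[X][X]) • mn ρ n (b • y)) i = _
        cases i with
        | zero => rw [cg_X0 hu, cg_mn, if_neg (by omega)]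
        | succ i =>
          rw [cg_X hu, cg_mn, cg_mn]
          by_cases h : n = i
          · rw [if_pos h, if_pos (by omega), smul_smul, hab, one_smul]
          · rw [if_neg h, if_neg (by omega), smul_zero]

include hCC hv hab hu in
/-- the case in which `v` acts as zero -/
theorem lam_one [IsNoetherianRing S] [IsDomain S] (hS : Gen S) {F : S} (hF : F ≠ 0) {f : AddFun S}
    (hf : IsAdditive F f) (h0 : f (S ⧸ Ideal.span {F}) = 0) (hM : Adm F M) :
    lam F f (TR ρ M) = f M := by
  have hfin := hM.1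
  have hkill : ∀ x : TR ρ M, eqn F • x = 0 := by
    intro x
    have h1 : toQ (eqn F • x) = toQ (0 : TR ρ M) := by
      rw [toQ_smul, eqn, map_sub, map_mul, hCC, hv, mul_zero, sub_zero, ← algebraMap_eq,
        algebraMap_smul]
      exact ext_coeff fun n => hM.2 _
    exact h1
  have hX : ∀ x : TR ρ M, (X : S[X]) • x = 0 := fun x => cg_ext fun n => by
    rw [cg_smulX hCC hv, coeff_X_zero, zero_smul, cg_zero]
  have hg : Good (uX (S := S) (TR ρ M)) (Qk hCC hv M) := good_Qk hCC hv hab hu
  have hsub : Subsingleton ((Qk hCC hv M).comap (uX (S := S) (TR ρ M))) := by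
    refine ⟨fun x y => Subtype.ext ?_⟩
    rw [mem_Qk hCC hv hab hu x.1 x.2, mem_Qk hCC hv hab hu y.1 y.2]
  have hQ : Adm F (Qk hCC hv M) := hM.quot (eqk hCC hv M) (eqk_bij hCC hv).2
  rw [lam_eq hS hF hf h0 hkill hg, chi_zero hf hQ adm_of_subsingleton _
    (fun x => Subtype.ext (hX x.1)),
    f_zero hf (M := (Qk hCC hv M).comap (uX (S := S) (TR ρ M))), sub_zero]
  exact (f_iso hf hQ (LinearEquiv.ofBijective (eqk hCC hv M) (eqk_bij hCC hv))).symm

end one

lemma adm_pi {F : S} (hM : Adm F M) (m : ℕ) : Adm F (Fin m → M) := by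
  have := hM.1
  exact ⟨inferInstance, fun x => funext fun i => hM.2 (x i)⟩

lemma f_pi {F : S} {f : AddFun S} (hf : IsAdditive F f) (hM : Adm F M) (m : ℕ) :
    f (Fin m → M) = m * f M := by
  induction m with
  | zero => rw [f_zero hf, Nat.cast_zero, zero_mul]
  | succ m ih =>
    rw [hf M (Fin (m + 1) → M) (Fin m → M) (LinearMap.single S (fun _ => M) 0)
      (LinearMap.funLeft S M Fin.succ) (adm_pi hM _) ?_ ?_ ?_, ih]
    · push_cast
      ring
    · exact Pi.single_injective (M := fun _ => M) 0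
    · intro y
      exact ⟨Fin.cons 0 y, by ext i; simp [LinearMap.funLeft]⟩
    · intro x
      constructor
      · intro hx
        refine ⟨x 0, ?_⟩
        ext i
        refine Fin.cases ?_ (fun i => ?_) i
        · simp
        · have h1 := congrFun hx i
          change x i.succ = 0 at h1
          rw [h1]
          simp
      · rintro ⟨y, rfl⟩
        ext i
        simp [LinearMap.funLeft]

section two

variable (hu : ρ X = 0) {a b : S} (hab : a * b = 1) {m : ℕ} (hm : 1 ≤ m)
  (hv : ρ (C X) = C a * X ^ m)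

include hv in
lemma cg_v (x : TR ρ M) (n : ℕ) :
    cg ((X : S[X]) • x) n = if m ≤ n then a • cg x (n - m) else 0 := by
  rw [cg, toQ_smul', hv, coeff_mon_smul]
  rfl

include hCC hab hm hv in
lemma rho_finite : (ρ.comp (C : S[X] →+* S[X][X])).Finite := by
  refine finite_of_gen _ X ?_ ?_
  · have h2 : (X ^ m - C (C b * X : S[X]) : S[X][X]).Monic := monic_X_pow_sub_C _ (by omega)
    refine ⟨_, h2, ?_⟩
    rw [eval₂_sub, eval₂_pow, eval₂_X, eval₂_C, RingHom.comp_apply, C_mul, map_mul, hCC, hv,
      ← mul_assoc, ← C_mul, mul_comm b, hab, C_1, one_mul, sub_self]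
  · intro T hT hX g
    have hC : ∀ s : S, (C s : S[X]) ∈ T := by
      intro s
      have h4 := hT (C s)
      rwa [RingHom.comp_apply, hCC] at h4
    induction g using Polynomial.induction_on' with
    | add p q hp hq => exact add_mem hp hq
    | monomial n p =>
      rw [← C_mul_X_pow_eq_monomial]
      exact mul_mem (hC p) (pow_mem hX n)

/-- the first coefficients -/
noncomputable def firstc (hCC : ∀ s : S, ρ (C (C s)) = C s) (m : ℕ) (M : Type) [AddCommGroup M]
    [Module S M] : TR ρ M →ₗ[S] (Fin m → M) where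
  toFun x i := cg x i
  map_add' _ _ := rfl
  map_smul' s x := funext fun i => cg_smulS hCC s x i

lemma firstc_surj : Surjective (firstc hCC m M) := by
  intro y
  refine ⟨PolynomialModule.ofCoeff S (∑ i : Fin m, Finsupp.single (i : ℕ) (y i)), ?_⟩
  ext j
  change (∑ i : Fin m, Finsupp.single (i : ℕ) (y i)) (j : ℕ) = y j
  rw [Finsupp.finsetSum_apply]
  rw [Finset.sum_eq_single j]
  · simp
  · intro i _ hij
    rw [Finsupp.single_apply, if_neg (fun h => hij (Fin.ext h))]
  · intro h
    exact absurd (Finset.mem_univ j) h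

include hCC hu hab hm hv in
/-- the case in which `u` acts as zero -/
theorem lam_two [IsNoetherianRing S] [IsDomain S] (hS : Gen S) {F : S} (hF : F ≠ 0) {f : AddFun S}
    (hf : IsAdditive F f) (h0 : f (S ⧸ Ideal.span {F}) = 0) (hM : Adm F M) :
    lam F f (TR ρ M) = -(m * f M) := by
  have hfin := hM.1
  have hkill : ∀ x : TR ρ M, eqn F • x = 0 := by
    intro x
    have h1 : toQ (eqn F • x) = toQ (0 : TR ρ M) := by
      rw [toQ_smul, eqn, map_sub, map_mul, hCC, hu, zero_mul, sub_zero, ← algebraMap_eq,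
        algebraMap_smul]
      exact ext_coeff fun n => hM.2 _
    exact h1
  have hg : Good (uX (S := S) (TR ρ M)) ⊤ := by
    refine ⟨?_, le_top, fun x => ⟨0, trivial⟩⟩
    have h1 := res_finite (ρ.comp (C : S[X] →+* S[X][X])) (rho_finite hCC hab hm hv)
      (M := PolynomialModule S M) inferInstance
    have h2 : Module.Finite S[X] (TR ρ M) := h1
    exact h2.fg_top
  rw [lam_eq hS hF hf h0 hkill hg]
  have hr := rel_uX (S := S) hkill
  have s1 : Subsingleton (LinearMap.ker (vmap (rel_uX hkill) ⊤)) := by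
    rw [Submodule.subsingleton_iff_eq_bot, LinearMap.ker_eq_bot']
    rintro ⟨x, hx⟩ h1
    apply Subtype.ext
    change x = 0
    have h2 : (X : S[X]) • x = 0 := congrArg Subtype.val h1
    refine cg_ext fun n => ?_
    have h3 := cg_v hv x (n + m)
    rw [h2, if_pos (by omega), Nat.add_sub_cancel, cg_zero] at h3
    rw [cg_zero, ← one_smul S (cg x n), ← hab, mul_comm, mul_smul, ← h3, smul_zero]
  set w : ((⊤ : Submodule S[X] (TR ρ M)).comap (uX (S := S) (TR ρ M))) →ₗ[S] (Fin m → M) :=
    (firstc hCC m M).comp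
      (((⊤ : Submodule S[X] (TR ρ M)).comap (uX (S := S) (TR ρ M))).subtype.restrictScalars S)
    with hw
  have hws : Surjective w := by
    intro y
    obtain ⟨x, hx⟩ := firstc_surj hCC y
    exact ⟨⟨x, trivial⟩, hx⟩
  have hk : LinearMap.ker w = LinearMap.range (vmap (rel_uX hkill) ⊤) := by
    ext x
    constructor
    · intro hx
      have h1 : ∀ i : Fin m, cg x.1 i = 0 := fun i => congrFun hx i
      set y : TR ρ M := PolynomialModule.ofCoeff S (b • (toQ x.1).coeff.comapDomain (· + m)
        (add_left_injective m).injOn) with hy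
      have h2 : ∀ n, cg y n = b • cg x.1 (n + m) := fun n => rfl
      refine ⟨⟨y, trivial⟩, Subtype.ext (cg_ext fun n => ?_)⟩
      change cg ((X : S[X]) • y) n = _
      rw [cg_v hv]
      by_cases hn : m ≤ n
      · rw [if_pos hn, h2, Nat.sub_add_cancel hn, smul_smul, hab, one_smul]
      · rw [if_neg hn]
        exact (h1 ⟨n, by omega⟩).symm
    · rintro ⟨y, rfl⟩
      rw [LinearMap.mem_ker]
      ext i
      change cg ((X : S[X]) • y.1) i = 0
      rw [cg_v hv, if_neg (by omega)]
  have e : (_ ⧸ LinearMap.range (vmap (rel_uX hkill) ⊤)) ≃ₗ[S] (Fin m → M) :=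
    (Submodule.quotEquivOfEq _ _ hk.symm).trans (w.quotKerEquivOfSurjective hws)
  have h1 : f (_ ⧸ LinearMap.range (vmap (rel_uX hkill) ⊤)) = f (Fin m → M) :=
    f_iso hf (adm_pi hM m) e
  unfold chi
  rw [f_zero hf, h1, f_pi hf hM, zero_sub]

end two

end TR

end Pool.Agent.W5h77.KH
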