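import Pool.Agent.W5h77.KH.Rank

set_option autoImplicit false

/-!
# The values on the modules `M[X]`, the general case with `u = 0`
-/

namespace Pool.Agent.W5h77.KH

open Function Polynomial Cardinal

section pm

variable {S : Type} [CommRing S] {M : Type} [AddCommGroup M] [Module S M] {β : S[X]} {m : ℕ}

lemma top_coeff (hβ : β.natDegree ≤ m) (x : PolynomialModule S M) (n : ℕ)
    (h : ∀ j, n < j → x.coeff j = 0) : (β • x).coeff (n + m) = β.coeff m • x.coeff n := by
  rw [PolynomialModule.smul_apply, Finset.sum_eq_single (m, n)]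
  · rintro ⟨i, j⟩ hij hne
    rw [Finset.HasAntidiagonal.mem_antidiagonal] at hij
    simp only at hij ⊢
    rcases lt_trichotomy n j with h1 | h1 | h1
    · rw [h j h1, smul_zero]
    · exfalso
      apply hne
      rw [Prod.mk.injEq]
      omega
    · rw [coeff_eq_zero_of_natDegree_lt (by omega), zero_smul]
  · intro h1
    exfalso
    apply h1
    rw [Finset.HasAntidiagonal.mem_antidiagonal]
    omega

lemma smul_inj {b : S} (hβ : β.natDegree ≤ m) (hb : b * β.coeff m = 1) (K : ℕ) :
    ∀ x : PolynomialModule S M, (∀ j, K ≤ j → x.coeff j = 0) →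
      (∀ j, m ≤ j → (β • x).coeff j = 0) → x = 0 := by
  induction K with
  | zero =>
    intro x h _
    exact ext_coeff fun n => h n (Nat.zero_le n)
  | succ K ih =>
    intro x h1 h2
    refine ih x (fun j hj => ?_) h2
    rcases Nat.lt_or_ge K j with h3 | h3
    · exact h1 j h3
    · obtain rfl : j = K := le_antisymm h3 hj
      have h4 := top_coeff hβ x j (fun i hi => h1 i hi)
      rw [h2 _ (by omega)] at h4
      rw [← one_smul S (x.coeff j), ← hb, mul_smul, ← h4, smul_zero]

lemma exists_bound (x : PolynomialModule S M) : ∃ K, ∀ j, K ≤ j → x.coeff j = 0 := by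
  refine ⟨x.coeff.support.sup id + 1, fun j hj => ?_⟩
  by_contra hne
  have h1 := Finset.le_sup (f := id) (Finsupp.mem_support_iff.2 hne)
  simp only [id] at h1
  omega

end pm

section TR

variable {S : Type} [CommRing S] {ρ : S[X][X] →+* S[X]} {M : Type} [AddCommGroup M] [Module S M]

/-- the polynomials of degree less than `m` -/
noncomputable def lowp (ρ : S[X][X] →+* S[X]) {m : ℕ} (y : Fin m → M) : TR ρ M :=
  PolynomialModule.ofCoeff S (∑ i : Fin m, Finsupp.single (i : ℕ) (y i))

lemma cg_lowp {m : ℕ} (y : Fin m → M) (n : ℕ) :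
    cg (lowp ρ y) n = if h : n < m then y ⟨n, h⟩ else 0 := by
  change (∑ i : Fin m, Finsupp.single (i : ℕ) (y i)) n = _
  rw [Finsupp.finsetSum_apply]
  by_cases h : n < m
  · rw [dif_pos h, Finset.sum_eq_single (⟨n, h⟩ : Fin m)]
    · simp
    · intro i _ hij
      rw [Finsupp.single_apply, if_neg (fun h => hij (Fin.ext h))]
    · intro h
      exact absurd (Finset.mem_univ _) h
  · rw [dif_neg h]
    refine Finset.sum_eq_zero fun i _ => ?_
    rw [Finsupp.single_apply, if_neg (by have := i.2; omega)]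

variable (hCC : ∀ s : S, ρ (C (C s)) = C s)

/-- the polynomials of degree less than `m`, as a linear map -/
noncomputable def lowm (hCC : ∀ s : S, ρ (C (C s)) = C s) (m : ℕ) (M : Type) [AddCommGroup M]
    [Module S M] : (Fin m → M) →ₗ[S] TR ρ M where
  toFun y := lowp ρ y
  map_add' x y := cg_ext fun n => by
    rw [cg_add, cg_lowp, cg_lowp, cg_lowp]
    split_ifs
    · rfl
    · rw [add_zero]
  map_smul' s y := cg_ext fun n => by
    rw [RingHom.id_apply, cg_smulS hCC, cg_lowp, cg_lowp]
    split_ifs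
    · rfl
    · rw [smul_zero]

variable (hu : ρ X = 0) {β : S[X]} {m : ℕ} (hm : 1 ≤ m) (hβ : β.natDegree ≤ m) {b : S}
  (hb : b * β.coeff m = 1) (hv : ρ (C X) = β)

include hv in
lemma toQ_X (x : TR ρ M) : toQ ((X : S[X]) • x) = β • toQ x := by
  rw [toQ_smul', hv]

include hCC hm hβ hb hv in
lemma rho_finite' : (ρ.comp (C : S[X] →+* S[X][X])).Finite := by
  refine finite_of_gen _ X ?_ ?_
  · refine ⟨C (C b) * β.map C - C (C b * X), ?_, ?_⟩
    · refine monic_of_natDegree_le_of_coeff_eq_one m ?_ ?_
      · refine (natDegree_sub_le _ _).trans (max_le ?_ ?_)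
        · exact (natDegree_C_mul_le _ _).trans (natDegree_map_le.trans hβ)
        · rw [natDegree_C]
          exact Nat.zero_le _
      · rw [coeff_sub, coeff_C_mul, coeff_map, coeff_C, if_neg (by omega), sub_zero, ← C_mul, hb,
          C_1]
    · have h1 : ((ρ.comp (C : S[X] →+* S[X][X])).comp (C : S →+* S[X])) = C := by
        ext s : 1
        exact hCC s
      rw [eval₂_sub, eval₂_mul, eval₂_C, eval₂_C, eval₂_map, h1, RingHom.comp_apply,
        RingHom.comp_apply, C_mul, map_mul, hCC, hv, eval₂_C_X, sub_self]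
  · intro T hT hX g
    have hC : ∀ s : S, (C s : S[X]) ∈ T := by
      intro s
      have h4 := hT (C s)
      rwa [RingHom.comp_apply, hCC] at h4
    induction g using Polynomial.induction_on' with
    | add p q hp hq => exact add_mem hp hq
    | monomial n p =>
      rw [← C_mul_X_pow_eq_monomial]
      exact mul_mem (hC p) (pow_mem hX n)

include hβ hb hv in
lemma exists_rem (K : ℕ) : ∀ x : TR ρ M, (∀ j, m + K ≤ j → cg x j = 0) →
    ∃ (y : Fin m → M) (z : TR ρ M), x = lowp ρ y + (X : S[X]) • z := by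
  induction K with
  | zero =>
    intro x hx
    refine ⟨fun i => cg x i, 0, cg_ext fun n => ?_⟩
    rw [smul_zero, add_zero, cg_lowp]
    split_ifs with h
    · rfl
    · exact hx n (by omega)
  | succ K ih =>
    intro x hx
    set w : TR ρ M := mn ρ K (b • cg x (m + K)) with hw
    have hc : ∀ j, m + K ≤ j → cg ((X : S[X]) • w) j = cg x j := by
      intro j hj
      have h1 : cg ((X : S[X]) • w) j = (β • PolynomialModule.single S K (b • cg x (m + K))).coeff j :=
        congrArg (fun z => z.coeff j) (toQ_X hv w)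
      rw [h1, PolynomialModule.smul_single_apply, if_pos (by omega)]
      rcases Nat.lt_or_ge (m + K) j with h2 | h2
      · rw [coeff_eq_zero_of_natDegree_lt (by omega), zero_smul, hx j (by omega)]
      · obtain rfl : j = m + K := le_antisymm h2 hj
        rw [Nat.add_sub_cancel, smul_smul, mul_comm, hb, one_smul]
    obtain ⟨y, z, hyz⟩ := ih (x - (X : S[X]) • w) (fun j hj => by
      have h1 : cg (x - (X : S[X]) • w) j = cg x j - cg ((X : S[X]) • w) j := rfl
      rw [h1, hc j hj, sub_self])
    refine ⟨y, z + w, ?_⟩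
    rw [smul_add, ← add_assoc, ← hyz, sub_add_cancel]

include hCC hu hm hβ hb hv in
/-- the case in which `u` acts as zero -/
theorem lam_two' [IsNoetherianRing S] [IsDomain S] (hS : Gen S) {F : S} (hF : F ≠ 0)
    {f : AddFun S} (hf : IsAdditive F f) (h0 : f (S ⧸ Ideal.span {F}) = 0) (hM : Adm F M) :
    lam F f (TR ρ M) = -(m * f M) := by
  have hfin := hM.1
  have hkill : ∀ x : TR ρ M, eqn F • x = 0 := by
    intro x
    have h1 : toQ (eqn F • x) = toQ (0 : TR ρ M) := by
      rw [toQ_smul, eqn, map_sub, map_mul, hCC, hu, zero_mul, sub_zero, ← algebraMap_eq,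
        algebraMap_smul]
      exact ext_coeff fun n => hM.2 _
    exact h1
  have hg : Good (uX (S := S) (TR ρ M)) ⊤ := by
    refine ⟨?_, le_top, fun x => ⟨0, trivial⟩⟩
    have h1 := res_finite (ρ.comp (C : S[X] →+* S[X][X])) (rho_finite' hCC hm hβ hb hv)
      (M := PolynomialModule S M) inferInstance
    have h2 : Module.Finite S[X] (TR ρ M) := h1
    exact h2.fg_top
  rw [lam_eq hS hF hf h0 hkill hg]
  have s1 : Subsingleton (LinearMap.ker (vmap (rel_uX hkill) ⊤)) := by
    rw [Submodule.subsingleton_iff_eq_bot, LinearMap.ker_eq_bot']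
    rintro ⟨x, hx⟩ h1
    apply Subtype.ext
    change x = 0
    have h2 : (X : S[X]) • x = 0 := congrArg Subtype.val h1
    obtain ⟨K, hK⟩ := exists_bound (toQ x)
    refine smul_inj hβ hb K (toQ x) hK (fun j _ => ?_)
    rw [← toQ_X hv, h2]
    rfl
  set R := LinearMap.range (vmap (rel_uX (S := S) hkill) ⊤) with hR
  set w : (Fin m → M) →ₗ[S] (((⊤ : Submodule S[X] (TR ρ M)).comap (uX (S := S) (TR ρ M))) ⧸ R) :=
    R.mkQ.comp ((lowm hCC m M).codRestrict
      (((⊤ : Submodule S[X] (TR ρ M)).comap (uX (S := S) (TR ρ M))).restrictScalars S)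
      (fun _ => trivial)) with hw
  have hwb : Bijective w := by
    constructor
    · rw [← LinearMap.ker_eq_bot, LinearMap.ker_eq_bot']
      intro y hy
      obtain ⟨z, hz⟩ := (Submodule.Quotient.mk_eq_zero R).1 hy
      have h1 : (X : S[X]) • z.1 = lowp ρ y := congrArg Subtype.val hz
      obtain ⟨K, hK⟩ := exists_bound (toQ z.1)
      have h2 : z.1 = 0 := by
        refine smul_inj hβ hb K (toQ z.1) hK (fun j hj => ?_)
        rw [← toQ_X hv, h1]
        change cg (lowp ρ y) j = 0
        rw [cg_lowp, dif_neg (by omega)]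
      rw [h2, smul_zero] at h1
      ext i
      have h3 := cg_lowp (ρ := ρ) y i
      rw [← h1, dif_pos i.2] at h3
      exact h3.symm
    · intro x
      obtain ⟨x, rfl⟩ := Submodule.mkQ_surjective _ x
      obtain ⟨K, hK⟩ := exists_bound (toQ x.1)
      obtain ⟨y, z, hyz⟩ := exists_rem hβ hb hv K x.1 (fun j hj => hK j (by omega))
      refine ⟨y, ?_⟩
      change R.mkQ _ = R.mkQ x
      rw [← sub_eq_zero, ← map_sub]
      refine (Submodule.Quotient.mk_eq_zero R).2 ⟨⟨-z, trivial⟩, Subtype.ext ?_⟩
      change (X : S[X]) • (-z) = lowp ρ y - x.1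
      rw [hyz, smul_neg]
      abel
  have h1 : f (_ ⧸ R) = f (Fin m → M) :=
    (f_iso hf (fred_vmap (rel_uX (S := S) hkill) hg).2 (LinearEquiv.ofBijective w hwb)).symm
  unfold chi
  rw [f_zero hf, h1, f_pi hf hM, zero_sub]

end TR

end Pool.Agent.W5h77.KH
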