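import Pool.Agent.W5h77.KH.Lam

set_option autoImplicit false

/-!
# Vanishing of the additive function of modules over `S[v][u] / (F - u v)`
-/

namespace Pool.Agent.W5h77.KH

open Function Polynomial Cardinal

section dim

/-- A non-injective surjection of domains lowers the transcendence degree. -/
lemma trdeg_lt_of_surj {K A B : Type} [Field K] [CommRing A] [CommRing B] [IsDomain A]
    [IsDomain B] [Algebra K A] [Algebra K B] (f : A →ₐ[K] B) (hf : Function.Surjective f)
    {z : A} (hz : z ≠ 0) (hfz : f z = 0) (hfin : Algebra.trdeg K A < ℵ₀) :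
    Algebra.trdeg K B < Algebra.trdeg K A := by
  by_contra hcon
  rw [not_lt] at hcon
  obtain ⟨s, hs⟩ := exists_isTranscendenceBasis K B
  choose y hy using hf
  have h1 : AlgebraicIndependent K (fun b : s => y b) := by
    apply AlgebraicIndependent.of_comp f
    have h2 : (f ∘ fun b : s => y b) = fun b : s => (b : B) := by
      funext b
      exact hy _
    rw [h2]
    exact hs.1
  have h3 : IsTranscendenceBasis K (fun b : s => y b) := by
    apply h1.isTranscendenceBasis_of_trdeg_le hfin
    rw [hs.cardinalMk_eq_trdeg]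
    exact hcon
  have h4 := h3.isAlgebraic
  have h5 : IsAlgebraic (Algebra.adjoin K (Set.range fun b : s => y b)) z :=
    h4.isAlgebraic z
  have h6 := Ideal.comap_ne_bot_of_algebraic_mem (I := RingHom.ker f) hz hfz h5
  obtain ⟨w, hw, hw0⟩ := Submodule.exists_mem_ne_zero_of_ne_bot h6
  apply hw0
  have h7 : f (w : A) = 0 := hw
  obtain ⟨w, hwm⟩ := w
  rw [Algebra.adjoin_range_eq_range_aeval] at hwm
  obtain ⟨p, hp⟩ := hwm
  have h8 : MvPolynomial.aeval (fun b : s => (b : B)) p = 0 := by
    have h9 : MvPolynomial.aeval (fun b : s => (b : B)) p =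
        f (MvPolynomial.aeval (fun b : s => y b) p) := by
      rw [← AlgHom.comp_apply, MvPolynomial.comp_aeval]
      congr 2
      funext b
      exact (hy _).symm
    rw [h9]
    have h10 : MvPolynomial.aeval (fun b : s => y b) p = w := hp
    rw [h10]
    exact h7
  have h11 : p = 0 := (algebraicIndependent_iff.1 hs.1) p h8
  apply Subtype.ext
  change w = 0
  rw [← hp, h11]
  exact map_zero _

lemma drop {k R B : Type} [Field k] [CommRing R] [Algebra k R] [CommRing B] [Algebra k B]
    [IsDomain B] {q : Ideal R} (hq : q.IsPrime) (ρ : R →ₐ[k] B) (hρ : Surjective ρ)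
    (hle : ∀ x ∈ q, ρ x = 0) {z : R} (hz : z ∉ q) (hρz : ρ z = 0) {n : ℕ}
    (h : Algebra.trdeg k (R ⧸ q) ≤ (n + 1 : ℕ)) : Algebra.trdeg k B ≤ n := by
  have h1 : Algebra.trdeg k (R ⧸ q) < ℵ₀ := lt_of_le_of_lt h Cardinal.natCast_lt_aleph0
  have h2 := trdeg_lt_of_surj (Ideal.Quotient.liftₐ q ρ hle)
    (Ideal.Quotient.lift_surjective_of_surjective q hle hρ)
    (z := Ideal.Quotient.mk q z) (fun h => hz (Ideal.Quotient.eq_zero_iff_mem.1 h)) hρz h1
  have h3 := lt_of_lt_of_le h2 h
  obtain ⟨m, hm⟩ := Cardinal.lt_aleph0.1 (lt_trans h2 h1)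
  rw [hm] at h3 ⊢
  have h4 : m < n + 1 := by exact_mod_cast h3
  exact_mod_cast Nat.lt_succ_iff.1 h4

/-- the constant coefficient -/
noncomputable def ev0 (k : Type) {S : Type} [Field k] [CommRing S] [Algebra k S] : S[X] →ₐ[k] S :=
  (aeval (R := S) (0 : S)).restrictScalars k

lemma ev0_apply {k S : Type} [Field k] [CommRing S] [Algebra k S] (p : S[X]) :
    ev0 k p = p.coeff 0 := (coeff_zero_eq_aeval_zero p).symm

lemma ev0_surj {k S : Type} [Field k] [CommRing S] [Algebra k S] :
    Surjective (ev0 k : S[X] →ₐ[k] S) := fun s => ⟨C s, by rw [ev0_apply, coeff_C_zero]⟩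

end dim

section

variable {S : Type} [CommRing S] [IsNoetherianRing S] {F : S} {f : AddFun S}

omit [IsNoetherianRing S] in
lemma chi_zero (hf : IsAdditive F f) {M N : Type} [AddCommGroup M] [AddCommGroup N] [Module S M]
    [Module S N] (hM : Adm F M) (hN : Adm F N) (φ : M →ₗ[S] N) (h : ∀ x, φ x = 0) :
    chi f φ = f M - f N := by
  obtain rfl : φ = 0 := LinearMap.ext h
  unfold chi
  congr 1
  · rw [LinearMap.ker_zero]
    exact (f_iso hf hM Submodule.topEquiv)
  · rw [LinearMap.range_zero]
    exact f_iso hf hN (Submodule.quotEquivOfEqBot _ rfl)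

/-- the structure module of the hypersurface `F = u v` -/
theorem lam_struct [IsDomain S] (hS : Gen S) (hF : F ≠ 0) (hf : IsAdditive F f)
    (h0 : f (S ⧸ Ideal.span {F}) = 0) : lam F f (S[X][X] ⧸ Ideal.span {eqn F}) = 0 := by
  set N := S[X][X] ⧸ Ideal.span {eqn F} with hN
  have hdeg : (eqn F).natDegree = 1 := by
    have h1 : eqn F = C (-X) * X + C (C F) := by
      rw [C_neg]
      ring
    rw [h1]
    exact natDegree_linear (neg_ne_zero.2 X_ne_zero)
  have hkill : ∀ n : N, eqn F • n = 0 := by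
    intro n
    obtain ⟨n, rfl⟩ := Submodule.mkQ_surjective _ n
    rw [← map_smul]
    exact (Submodule.Quotient.mk_eq_zero _).2
      (Ideal.mul_mem_right _ _ (Ideal.mem_span_singleton_self _))
  set Q : Submodule S[X] N := Submodule.span S[X] {Submodule.Quotient.mk 1} with hQ
  have hmem : ∀ b : S[X], b • (Submodule.Quotient.mk 1 : N) = Submodule.Quotient.mk (C b) := by
    intro b
    rw [← Submodule.Quotient.mk_smul, Polynomial.smul_eq_C_mul, mul_one]
  have hA : ∀ n : N, uX (S := S) N n ∈ Q → ∃ b : S[X], n = (X : S[X]) • b • (Submodule.Quotient.mk 1 : N) := by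
    intro n hn
    obtain ⟨g, rfl⟩ := Submodule.mkQ_surjective _ n
    obtain ⟨b, hb⟩ := Submodule.mem_span_singleton.1 hn
    rw [hmem] at hb
    have h1 : (Submodule.Quotient.mk (C b) : N) = Submodule.Quotient.mk (X * g) := hb
    rw [Submodule.Quotient.eq, Ideal.mem_span_singleton'] at h1
    obtain ⟨h, hh⟩ := h1
    refine ⟨h.coeff 0, ?_⟩
    have h2 : b = h.coeff 0 * C F := by
      have h3 := congrArg (fun p => p.coeff 0) hh
      simp only [mul_coeff_zero, coeff_sub, coeff_C_zero, coeff_X_zero, zero_mul, sub_zero] at h3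
      exact h3.symm
    have h3 : X * g = X * (C (X * h.coeff 0) - divX h * eqn F) := by
      have h4 : X * g = C b - h * eqn F := by
        rw [hh]
        ring
      rw [h4, h2]
      conv_lhs => rw [← divX_mul_X_add h]
      simp only [coeff_add, mul_coeff_zero, coeff_X_zero, mul_zero, zero_add, coeff_C_zero, C_mul]
      ring
    have h4 : g = C (X * h.coeff 0) - divX h * eqn F := mul_left_cancel₀ X_ne_zero h3
    rw [smul_smul, hmem]
    change (Submodule.Quotient.mk g : N) = _
    rw [Submodule.Quotient.eq, Ideal.mem_span_singleton']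
    refine ⟨-divX h, ?_⟩
    rw [h4]
    ring
  have hB : ∀ b : S[X], (X : S[X]) • b • (Submodule.Quotient.mk 1 : N) = 0 → b = 0 := by
    intro b hb
    rw [smul_smul, hmem, Submodule.Quotient.mk_eq_zero, Ideal.mem_span_singleton'] at hb
    obtain ⟨h, hh⟩ := hb
    by_cases h1 : h = 0
    · rw [h1, zero_mul] at hh
      have h2 : X * b = 0 := C_injective (by rw [← hh, C_0])
      exact (mul_eq_zero.1 h2).resolve_left X_ne_zero
    · exfalso
      have h2 : eqn F ≠ 0 := by
        intro h3
        rw [h3, natDegree_zero] at hdeg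
        omega
      have h3 := natDegree_mul h1 h2
      rw [hh, natDegree_C, hdeg] at h3
      omega
  have hgood : Good (uX (S := S) N) Q := by
    refine ⟨Submodule.fg_span_singleton _, ?_, ?_⟩
    · intro n hn
      obtain ⟨b, rfl⟩ := hA n hn
      exact Submodule.smul_mem _ _ (Submodule.smul_mem _ _ (Submodule.mem_span_singleton_self _))
    · intro n
      obtain ⟨g, rfl⟩ := Submodule.mkQ_surjective _ n
      induction g using Polynomial.induction_on' with
      | add p q hp hq =>
        obtain ⟨i, hi⟩ := hp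
        obtain ⟨j, hj⟩ := hq
        refine ⟨max i j, ?_⟩
        rw [map_add]
        exact add_mem (sq_mono _ Q (le_max_left _ _) hi) (sq_mono _ Q (le_max_right _ _) hj)
      | monomial m r =>
        have h1 : ∀ m : ℕ, (Submodule.Quotient.mk (X ^ m) : N) ∈ sq (uX (S := S) N) Q m := by
          intro m
          induction m with
          | zero => rw [pow_zero]; exact Submodule.mem_span_singleton_self _
          | succ m ih =>
            refine Submodule.mem_sup_right ⟨_, ih, ?_⟩
            rw [pow_succ']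
            rfl
        refine ⟨m, ?_⟩
        have h2 := Submodule.smul_mem _ r (h1 m)
        rw [← Submodule.Quotient.mk_smul, Polynomial.smul_eq_C_mul, C_mul_X_pow_eq_monomial] at h2
        exact h2
  rw [lam_eq hS hF hf h0 hkill hgood]
  have s1 : Subsingleton (LinearMap.ker (vmap (rel_uX hkill) Q)) := by
    rw [Submodule.subsingleton_iff_eq_bot, LinearMap.ker_eq_bot']
    rintro ⟨x, hx⟩ h1
    obtain ⟨b, rfl⟩ := Submodule.mem_span_singleton.1 hx
    have h2 := hB b (congrArg Subtype.val h1)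
    apply Subtype.ext
    change b • _ = (0 : N)
    rw [h2, zero_smul]
  have s2 : Subsingleton (Q.comap (uX (S := S) N) ⧸ LinearMap.range (vmap (rel_uX hkill) Q)) := by
    rw [Submodule.Quotient.subsingleton_iff, LinearMap.range_eq_top]
    rintro ⟨x, hx⟩
    obtain ⟨b, rfl⟩ := hA x hx
    exact ⟨⟨b • _, Submodule.smul_mem _ _ (Submodule.mem_span_singleton_self _)⟩, rfl⟩
  unfold chi
  rw [f_zero hf, f_zero hf, sub_zero]

end

section van

variable {k S : Type} [Field k] [CommRing S] [IsNoetherianRing S] [Algebra k S] {F : S}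
  {f : AddFun S}

/-- the case `v = 0` -/
lemma van_v [IsDomain S] (hS : Gen S) (hF : F ≠ 0) (hf : IsAdditive F f)
    (h0 : f (S ⧸ Ideal.span {F}) = 0) {e : ℕ}
    (hv : ∀ (M : Type) [AddCommGroup M] [Module S M], Adm F M → DimLe k (A := S) M e → f M = 0)
    (q : Ideal S[X][X]) (hq : q.IsPrime) (hdim : Algebra.trdeg k (S[X][X] ⧸ q) ≤ (e + 1 : ℕ))
    (hmem : eqn F ∈ q) (hvq : (C X : S[X][X]) ∈ q) : lam F f (S[X][X] ⧸ q) = 0 := by
  set N := S[X][X] ⧸ q with hN
  have hkill : ∀ x ∈ q, ∀ n : N, x • n = 0 := by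
    intro x hx n
    obtain ⟨n, rfl⟩ := Submodule.mkQ_surjective _ n
    rw [← map_smul]
    exact (Submodule.Quotient.mk_eq_zero _).2 (Ideal.mul_mem_right _ _ hx)
  obtain ⟨Q, hQ⟩ := exists_good (finU_uX (S := S) (N := N) inferInstance)
  have hX : ∀ n : N, (X : S[X]) • n = 0 := by
    intro n
    rw [← algebraMap_smul S[X][X] (X : S[X])]
    exact hkill _ hvq n
  have hFN : ∀ n : N, F • n = 0 := by
    intro n
    rw [← rel_uX (hkill _ hmem) n, hX]
  have hQf : Module.Finite S[X] Q := Module.Finite.iff_fg.2 hQ.fg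
  have hQS : Adm F Q := by
    refine ⟨fin_of_X (S := S) Q hQf (fun d => Subtype.ext (hX d.1)), fun d => Subtype.ext (hFN d.1)⟩
  have hPQ : Adm F (Q.comap (uX (S := S) N)) :=
    hQS.sub ((Submodule.inclusion hQ.le).restrictScalars S) (Submodule.inclusion_injective hQ.le)
  rw [lam_eq hS hF hf h0 (hkill _ hmem) hQ, chi_zero hf hQS hPQ _ (fun x => Subtype.ext (hX x.1))]
  by_cases hu : (X : S[X][X]) ∈ q
  · have h1 : Q.comap (uX (S := S) N) = Q := by
      refine le_antisymm hQ.le fun x hx => ?_
      rw [Submodule.mem_comap]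
      have h2 : uX (S := S) N x = 0 := hkill (X : S[X][X]) hu x
      rw [h2]
      exact zero_mem _
    rw [h1, sub_self]
  · set i : (Q.comap (uX (S := S) N)) →ₗ[S] Q :=
      ((uX (S := S) N).restrict (p := Q.comap (uX (S := S) N)) (q := Q) (fun x hx => hx)).restrictScalars S with hi
    have hinj : Injective i := by
      rw [← LinearMap.ker_eq_bot, LinearMap.ker_eq_bot']
      rintro ⟨x, hx⟩ h1
      apply Subtype.ext
      change x = 0
      have h2 : (X : S[X][X]) • x = 0 := congrArg Subtype.val h1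
      obtain ⟨g, rfl⟩ := Submodule.mkQ_surjective _ x
      rw [← map_smul] at h2
      have h3 : X * g ∈ q := (Submodule.Quotient.mk_eq_zero _).1 h2
      exact (Submodule.Quotient.mk_eq_zero _).2 ((hq.mem_or_mem h3).resolve_left hu)
    have h1 := hf _ _ (Q ⧸ LinearMap.range i) i (LinearMap.range i).mkQ hQS hinj
      (LinearMap.range i).mkQ_surjective (LinearMap.exact_map_mkQ_range i)
    have h2 : f (Q ⧸ LinearMap.range i) = 0 := by
      refine hv _ (hQS.quot _ (LinearMap.range i).mkQ_surjective) ?_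
      intro p hp hle
      refine drop hq ((Ideal.Quotient.mkₐ k p).comp ((ev0 k).comp (ev0 k))) ?_ ?_ hu ?_ hdim
      · exact (Ideal.Quotient.mkₐ_surjective k p).comp ((ev0_surj (k := k)).comp
        (ev0_surj (k := k)))
      · intro x hx
        change Ideal.Quotient.mk p (ev0 k (ev0 k x)) = 0
        rw [Ideal.Quotient.eq_zero_iff_mem, ev0_apply, ev0_apply]
        refine hle ?_
        rw [Module.mem_annihilator]
        intro d
        obtain ⟨d, rfl⟩ := Submodule.mkQ_surjective _ d
        rw [← map_smul]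
        refine (Submodule.Quotient.mk_eq_zero _).2 ?_
        have h3 : (X : S[X][X]) • (-(divX x • d.1)) = (x.coeff 0).coeff 0 • d.1 := by
          have h4 := hkill x hx d.1
          rw [← divX_mul_X_add x, add_smul] at h4
          have h5 : (C (x.coeff 0) : S[X][X]) • d.1 = (x.coeff 0).coeff 0 • d.1 := by
            have h6 : (C (x.coeff 0) : S[X][X]) • d.1 = (x.coeff 0) • d.1 :=
              algebraMap_smul S[X][X] (x.coeff 0) d.1
            rw [h6]
            conv_lhs => rw [← divX_mul_X_add (x.coeff 0), add_smul, mul_smul, hX, smul_zero,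
              zero_add]
            exact algebraMap_smul S[X] ((x.coeff 0).coeff 0) d.1
          have h7 : (divX x * X + C (x.coeff 0)).coeff 0 = x.coeff 0 := by
            rw [divX_mul_X_add]
          rw [h5] at h4
          rw [smul_neg, smul_smul, mul_comm, ← add_eq_zero_iff_neg_eq.1 h4]
        refine ⟨⟨-(divX x • d.1), ?_⟩, Subtype.ext h3⟩
        rw [Submodule.mem_comap]
        change (X : S[X][X]) • (-(divX x • d.1)) ∈ Q
        rw [h3]
        exact Submodule.smul_of_tower_mem Q _ d.2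
      · change Ideal.Quotient.mk p (ev0 k (ev0 k X)) = 0
        rw [ev0_apply, ev0_apply, coeff_X_zero, coeff_zero, map_zero]
    rw [h2, add_zero] at h1
    rw [h1, sub_self]

/-- the case `v ≠ 0` -/
lemma van_nv [IsDomain S] (hS : Gen S) (hF : F ≠ 0) (hf : IsAdditive F f)
    (h0 : f (S ⧸ Ideal.span {F}) = 0) {e : ℕ}
    (hv : ∀ (M : Type) [AddCommGroup M] [Module S M], Adm F M → DimLe k (A := S) M e → f M = 0)
    (q : Ideal S[X][X]) (hq : q.IsPrime) (hdim : Algebra.trdeg k (S[X][X] ⧸ q) ≤ (e + 1 : ℕ))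
    (hmem : eqn F ∈ q) (hvq : (C X : S[X][X]) ∉ q) : lam F f (S[X][X] ⧸ q) = 0 := by
  set N := S[X][X] ⧸ q with hN
  have hkill : ∀ x ∈ q, ∀ n : N, x • n = 0 := by
    intro x hx n
    obtain ⟨n, rfl⟩ := Submodule.mkQ_surjective _ n
    rw [← map_smul]
    exact (Submodule.Quotient.mk_eq_zero _).2 (Ideal.mul_mem_right _ _ hx)
  obtain ⟨Q, hQ⟩ := exists_good (finU_uX (S := S) (N := N) inferInstance)
  have hr := rel_uX (hkill _ hmem)
  rw [lam_eq hS hF hf h0 (hkill _ hmem) hQ]
  have s1 : Subsingleton (LinearMap.ker (vmap hr Q)) := by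
    rw [Submodule.subsingleton_iff_eq_bot, LinearMap.ker_eq_bot']
    rintro ⟨x, hx⟩ h1
    apply Subtype.ext
    change x = 0
    have h2 : (X : S[X]) • x = 0 := congrArg Subtype.val h1
    rw [← algebraMap_smul S[X][X] (X : S[X])] at h2
    obtain ⟨g, rfl⟩ := Submodule.mkQ_surjective _ x
    rw [← map_smul] at h2
    have h3 : C X * g ∈ q := (Submodule.Quotient.mk_eq_zero _).1 h2
    exact (Submodule.Quotient.mk_eq_zero _).2 ((hq.mem_or_mem h3).resolve_left hvq)
  have h2 : f (Q.comap (uX (S := S) N) ⧸ LinearMap.range (vmap hr Q)) = 0 := by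
    refine hv _ (fred_vmap hr hQ).2 ?_
    intro p hp hle
    have hq1 : (q.comap (C : S[X] →+* S[X][X])).IsPrime := Ideal.comap_isPrime _ _
    have hd1 : Algebra.trdeg k (S[X] ⧸ q.comap (C : S[X] →+* S[X][X])) ≤ (e + 1 : ℕ) := by
      refine le_trans ?_ hdim
      have hC : ∀ c : k, (C : S[X] →+* S[X][X]) (algebraMap k S[X] c) = algebraMap k S[X][X] c :=
        fun c => rfl
      set φ : S[X] →ₐ[k] S[X][X] := ⟨C, hC⟩ with hφ
      exact trdeg_le_of_injective (Ideal.quotientMapₐ q φ le_rfl)
        (Ideal.quotientMap_injective' (H := le_rfl) le_rfl)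
    refine drop hq1 ((Ideal.Quotient.mkₐ k p).comp (ev0 k)) ?_ ?_ hvq ?_ hd1
    · exact (Ideal.Quotient.mkₐ_surjective k p).comp (ev0_surj (k := k))
    · intro x hx
      change Ideal.Quotient.mk p (ev0 k x) = 0
      rw [Ideal.Quotient.eq_zero_iff_mem, ev0_apply]
      refine hle ?_
      rw [Module.mem_annihilator]
      intro d
      obtain ⟨d, rfl⟩ := Submodule.mkQ_surjective _ d
      rw [← map_smul]
      refine (Submodule.Quotient.mk_eq_zero _).2 ?_
      have h3 : (X : S[X]) • (-(divX x • d.1)) = x.coeff 0 • d.1 := by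
        have h4 : x • d.1 = 0 := by
          rw [← algebraMap_smul S[X][X] x d.1]
          exact hkill _ hx d.1
        rw [← divX_mul_X_add x, add_smul] at h4
        have h5 : (C (x.coeff 0) : S[X]) • d.1 = x.coeff 0 • d.1 :=
          algebraMap_smul S[X] (x.coeff 0) d.1
        rw [h5] at h4
        rw [smul_neg, smul_smul, mul_comm, ← add_eq_zero_iff_neg_eq.1 h4]
      exact ⟨⟨-(divX x • d.1), neg_mem (Submodule.smul_mem _ _ (hQ.le d.2))⟩, Subtype.ext h3⟩
    · change Ideal.Quotient.mk p (ev0 k X) = 0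
      rw [ev0_apply, coeff_X_zero, map_zero]
  unfold chi
  rw [f_zero hf, h2, sub_zero]

theorem lam_dim [IsDomain S] (hS : Gen S) (hF : F ≠ 0) (hf : IsAdditive F f)
    (h0 : f (S ⧸ Ideal.span {F}) = 0) {e : ℕ}
    (hv : ∀ (M : Type) [AddCommGroup M] [Module S M], Adm F M → DimLe k (A := S) M e → f M = 0)
    (N : Type) [AddCommGroup N] [Module S[X][X] N] (hN : Adm (eqn F) N)
    (hdim : DimLe k (A := S[X][X]) N (e + 1)) : lam F f N = 0 := by
  refine devissage (lam_additive hS hF hf h0)
    (T := fun q => Algebra.trdeg k (S[X][X] ⧸ q) ≤ (e + 1 : ℕ)) ?_ N hN hdim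
  intro q hq hd hmem
  by_cases hvq : (C X : S[X][X]) ∈ q
  · exact van_v hS hF hf h0 hv q hq hd hmem hvq
  · exact van_nv hS hF hf h0 hv q hq hd hmem hvq

end van

end Pool.Agent.W5h77.KH
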